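import Mathlib
import Pool.Agent.H359R3.IX8

set_option autoImplicit false
set_option linter.unusedVariables false
set_option linter.unusedSectionVars false

/-!
Definitions: automorphisms, cocycles, convergence in measure, spectral measures, Lebesgue spectrum.
-/

namespace Pool.Agent.W744.NG

open MeasureTheory Set Filter Topology
open scoped ENNReal symmDiff
open Pool.H359R3 Pool.H359R3.IX

/-- automorphisms (representatives), as in the library -/
abbrev AU {Z : Type*} [MeasurableSpace Z] (m : Measure Z) : Type _ :=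
  {e : Z ≃ᵐ Z // MeasurePreserving (⇑e) m m}

/-- `σ` is the spectral measure of `f` for the map `S` -/
def IsSpec {Z : Type*} [MeasurableSpace Z] (m : Measure Z) (S : Z → Z) (f : Z → ℂ)
    (σ : Measure UnitAddCircle) : Prop :=
  IsFiniteMeasure σ ∧ ∀ n : ℕ, ∫ θ, fourier (n : ℤ) θ ∂σ = ∫ z, f (S^[n] z) * starRingEnd ℂ (f z) ∂m

/-- Lebesgue spectrum -/
def LebSpec {Z : Type*} [MeasurableSpace Z] (m : Measure Z) (S : Z → Z) : Prop :=
  (∀ f : Z → ℂ, MemLp f 2 m → ∫ z, f z ∂m = 0 → ∃ σ, IsSpec m S f σ ∧ σ ≪ volume) ∧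
  ∃ f : Z → ℂ, MemLp f 2 m ∧ ∫ z, f z ∂m = 0 ∧
    ∃ σ, IsSpec m S f σ ∧ (volume : Measure UnitAddCircle) ≪ σ

/-- cocycles (representatives): measurable families of automorphisms of `(Y, ν)` -/
abbrev Coc (X : Type*) {Y : Type*} [MeasurableSpace X] [MeasurableSpace Y] (ν : Measure Y) : Type _ :=
  {Φ : X → AU ν // Measurable (fun z : X × Y => (Φ z.1).1 z.2)}

section
variable {X Y : Type*} [MeasurableSpace X] [MeasurableSpace Y]

/-- the skew product map -/
def sk {ν : Measure Y} (T : X → X) (Φ : Coc X ν) (z : X × Y) : X × Y := (T z.1, (Φ.1 z.1).1 z.2)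

/-- basic neighbourhoods for convergence in measure -/
def NB (μ : Measure X) {ν : Measure Y} (Φ : Coc X ν) (B : Set Y) (ε : ℝ) : Set (Coc X ν) :=
  {Ψ | μ.real {x | ε ≤ ν.real (((Φ.1 x).1 '' B) ∆ ((Ψ.1 x).1 '' B))} < ε}

/-- the topology of convergence in measure -/
abbrev tC (μ : Measure X) (ν : Measure Y) : TopologicalSpace (Coc X ν) :=
  TopologicalSpace.generateFrom
    {U | ∃ (Φ : Coc X ν) (B : Set Y) (ε : ℝ), MeasurableSet B ∧ 0 < ε ∧ U = NB μ Φ B ε}

variable [StandardBorelSpace X] [StandardBorelSpace Y]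

theorem sk_bij {μ : Measure X} {ν : Measure Y} (T : AU μ) (Φ : Coc X ν) :
    Function.Bijective (sk (T.1 : X → X) Φ) := by
  constructor
  · rintro ⟨x, y⟩ ⟨x', y'⟩ h
    simp only [sk, Prod.mk.injEq] at h
    obtain ⟨h1, h2⟩ := h
    have h3 := T.1.injective h1
    subst h3
    have h4 := (Φ.1 x).1.injective h2
    rw [h4]
  · rintro ⟨x, y⟩
    refine ⟨(T.1.symm x, (Φ.1 (T.1.symm x)).1.symm y), ?_⟩
    simp [sk]

theorem sk_meas {μ : Measure X} {ν : Measure Y} (T : AU μ) (Φ : Coc X ν) :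
    Measurable (sk (T.1 : X → X) Φ) :=
  (T.1.measurable.comp measurable_fst).prodMk Φ.2

/-- the skew product as a measurable equivalence -/
noncomputable def skE {μ : Measure X} {ν : Measure Y} (T : AU μ) (Φ : Coc X ν) : (X × Y) ≃ᵐ (X × Y) where
  toEquiv := Equiv.ofBijective _ (sk_bij T Φ)
  measurable_toFun := sk_meas T Φ
  measurable_invFun := by
    have hemb : MeasurableEmbedding (sk (T.1 : X → X) Φ) :=
      (sk_meas T Φ).measurableEmbedding (sk_bij T Φ).1
    intro s hs
    have h1 : (Equiv.ofBijective _ (sk_bij T Φ)).symm ⁻¹' s = sk (T.1 : X → X) Φ '' s := by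
      rw [← Equiv.image_eq_preimage_symm]
      rfl
    show MeasurableSet ((Equiv.ofBijective _ (sk_bij T Φ)).symm ⁻¹' s)
    rw [h1]
    exact hemb.measurableSet_image' hs

theorem sk_mp {μ : Measure X} {ν : Measure Y} [IsProbabilityMeasure μ] [IsProbabilityMeasure ν]
    (T : AU μ) (Φ : Coc X ν) : MeasurePreserving (sk (T.1 : X → X) Φ) (μ.prod ν) (μ.prod ν) := by
  have := MeasurePreserving.skew_product (μc := ν) (μd := ν) T.2 (g := fun x y => (Φ.1 x).1 y) Φ.2
    (Eventually.of_forall fun x => (Φ.1 x).2.map_eq)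
  exact this

/-- the skew product as an automorphism -/
noncomputable def skA {μ : Measure X} {ν : Measure Y} [IsProbabilityMeasure μ] [IsProbabilityMeasure ν]
    (T : AU μ) (Φ : Coc X ν) : AU (μ.prod ν) := ⟨skE T Φ, sk_mp T Φ⟩

theorem skA_apply {μ : Measure X} {ν : Measure Y} [IsProbabilityMeasure μ] [IsProbabilityMeasure ν]
    (T : AU μ) (Φ : Coc X ν) (z : X × Y) : (skA T Φ).1 z = sk (T.1 : X → X) Φ z := rfl

end

end Pool.Agent.W744.NG
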