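import Mathlib
import Pool.Agent.W744.NG.Base

set_option autoImplicit false
set_option linter.unusedVariables false
set_option linter.unusedSectionVars false

/-!
Statements of the pieces of the proof that the generic extension of a certain automorphism with
Lebesgue spectrum does not have Lebesgue spectrum.
-/

namespace Pool.Agent.W744.NG

open MeasureTheory Set Filter Topology
open scoped ENNReal symmDiff
open Pool.H359R3 Pool.H359R3.IX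

/-! ### the space of cocycles -/

/-- convergence in measure is the weak topology of the skew products -/
def S_Ind : Prop := ∀ (X Y : Type) [MeasurableSpace X] [StandardBorelSpace X] [MeasurableSpace Y]
  [StandardBorelSpace Y] (μ : Measure X) (ν : Measure Y) [IsProbabilityMeasure μ] [IsProbabilityMeasure ν]
  (F : DF (μ.prod ν)),
  tC μ ν = TopologicalSpace.induced (fun Φ : Coc X ν => skA (oneA : AU μ) Φ) (un F).toTopologicalSpace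

/-- measurable families of almost everywhere invertible maps come from cocycles -/
def S_Real : Prop := ∀ (X Y : Type) [MeasurableSpace X] [StandardBorelSpace X] [MeasurableSpace Y]
  [StandardBorelSpace Y] (μ : Measure X) (ν : Measure Y) [IsProbabilityMeasure μ] [IsProbabilityMeasure ν]
  [NullSingletonClass ν] (S R : X × Y → Y), Measurable S → Measurable R →
  (∀ᵐ x ∂μ, MeasurePreserving (fun y => S (x, y)) ν ν) →
  (∀ᵐ x ∂μ, ∀ᵐ y ∂ν, R (x, S (x, y)) = y) → (∀ᵐ x ∂μ, ∀ᵐ y ∂ν, S (x, R (x, y)) = y) →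
  ∃ Φ : Coc X ν, ∀ᵐ x ∂μ, ∀ᵐ y ∂ν, (Φ.1 x).1 y = S (x, y)

/-- automorphisms of the product over the identity come from cocycles -/
def S_Vert : Prop := ∀ (X Y : Type) [MeasurableSpace X] [StandardBorelSpace X] [MeasurableSpace Y]
  [StandardBorelSpace Y] (μ : Measure X) (ν : Measure Y) [IsProbabilityMeasure μ] [IsProbabilityMeasure ν]
  [NullSingletonClass ν] (S : AU (μ.prod ν)), (∀ᵐ z ∂(μ.prod ν), (S.1 z).1 = z.1) →
  ∃ Φ : Coc X ν, ∀ᵐ z ∂(μ.prod ν), S.1 z = (z.1, (Φ.1 z.1).1 z.2)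

/-- the automorphism group is complete -/
def S_Comp : Prop := ∀ (Z : Type) [MeasurableSpace Z] [StandardBorelSpace Z] (m : Measure Z)
  [IsProbabilityMeasure m] [NullSingletonClass m] (F : DF m), @CompleteSpace (AU m) (un F)

/-- the space of cocycles is a Baire space -/
def S_Baire : Prop := ∀ (X Y : Type) [MeasurableSpace X] [StandardBorelSpace X] [MeasurableSpace Y]
  [StandardBorelSpace Y] (μ : Measure X) (ν : Measure Y) [IsProbabilityMeasure μ] [IsProbabilityMeasure ν]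
  [NullSingletonClass μ] [NullSingletonClass ν], @BaireSpace (Coc X ν) (tC μ ν)

/-- Koopman operators depend continuously on the automorphism -/
def S_Koop : Prop := ∀ (Z : Type) [MeasurableSpace Z] (m : Measure Z) [IsProbabilityMeasure m] (F : DF m)
  (g : Lp ℂ 2 m), @Continuous (AU m) (Lp ℂ 2 m) (un F).toTopologicalSpace _
    (fun S => Lp.compMeasurePreserving (⇑S.1) S.2 g)

/-- the cocycles for which `g` (as a function of the second coordinate) is nearly fixed by a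
trigonometric polynomial of small norm in the skew product -/
def BE {X Y : Type} [MeasurableSpace X] [MeasurableSpace Y] (μ : Measure X) (ν : Measure Y) (T : X → X)
    (g : Y → ℂ) (ε : ℝ) : Set (Coc X ν) :=
  {Φ | ∃ (q : Polynomial ℂ) (M : ℕ), ∑ n ∈ q.support, ‖q.coeff n‖ ^ 2 < ε ∧
    eLpNorm (fun z : X × Y => (∑ n ∈ q.support, q.coeff n * g (((sk T Φ)^[n] z).2)) - g (((sk T Φ)^[M] z).2)) 2
      (μ.prod ν) < ENNReal.ofReal ε}

/-- openness -/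
def S_Open : Prop := ∀ (X Y : Type) [MeasurableSpace X] [StandardBorelSpace X] [MeasurableSpace Y]
  [StandardBorelSpace Y] (μ : Measure X) (ν : Measure Y) [IsProbabilityMeasure μ] [IsProbabilityMeasure ν]
  (T : AU μ) (g : Y → ℂ) (ε : ℝ), MemLp g 2 ν → @IsOpen (Coc X ν) (tC μ ν) (BE μ ν T.1 g ε)

/-! ### spectral measures -/

/-- nearly fixed by trigonometric polynomials of small norm implies singular -/
def S_Sing : Prop := ∀ (Z : Type) [MeasurableSpace Z] (m : Measure Z) [IsProbabilityMeasure m] (S : Z → Z)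
  (f : Z → ℂ), MeasurePreserving S m m → MemLp f 2 m →
  (∀ ε : ℝ, 0 < ε → ∃ (q : Polynomial ℂ) (M : ℕ), ∑ n ∈ q.support, ‖q.coeff n‖ ^ 2 < ε ∧
    eLpNorm (fun z => (∑ n ∈ q.support, q.coeff n * f (S^[n] z)) - f (S^[M] z)) 2 m < ENNReal.ofReal ε) →
  ∀ σ : Measure UnitAddCircle, IsSpec m S f σ → σ ≪ volume → f =ᵐ[m] 0

/-- summable correlations on a dense subspace imply absolutely continuous spectrum -/
def S_AC : Prop := ∀ (E : Type) [NormedAddCommGroup E] [InnerProductSpace ℂ E] (U : E →ₗᵢ[ℂ] E)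
  (D : Submodule ℂ E),
  (∀ f ∈ D, ∀ f' ∈ D, Summable (fun n : ℕ => ‖inner ℂ ((⇑U)^[n] f) f'‖)) →
  ∀ f ∈ closure (D : Set E), ∃ σ : Measure UnitAddCircle, IsFiniteMeasure σ ∧ σ ≪ volume ∧
    ∀ n : ℕ, ∫ θ, fourier (n : ℤ) θ ∂σ = inner ℂ f ((⇑U)^[n] f)

/-! ### finite stages -/

/-- correlations of a permutation -/
noncomputable def cor {V : Type} [Fintype V] (σ : Equiv.Perm V) (f f' : V → ℂ) (n : ℕ) : ℂ :=
  (∑ x, f ((σ ^ n) x) * starRingEnd ℂ (f' x)) / (Fintype.card V : ℂ)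

/-- `σ'` is a next stage over `σ`: `p` the factor map, `t` the time in the current block, `Γ` the gauge,
`q` the trigonometric polynomial (shifted by `M`) -/
structure Nxt {V V' : Type} [Fintype V] [Fintype V'] (σ : Equiv.Perm V) (H : ℕ) (σ' : Equiv.Perm V') (H' : ℕ)
    (r : ℕ) (ε : ℝ) (p : V' → V) (t : V' → ℕ) (Γ : V' → Fin r → ZMod 2) (q : Polynomial ℂ) (M : ℕ) : Prop where
  fib : ∀ i, Nat.card {x : V' // p x = i} * Fintype.card V = Fintype.card V'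
  per : σ' ^ H' = 1
  time : H * Nat.card {x : V' // ¬ (t (σ' x) = t x + 1 ∧ Γ (σ' x) = Γ x ∧ p (σ' x) = σ (p x))} ≤
    Fintype.card V'
  corr : ∀ f f' : V → ℂ, ∑ x, f x = 0 → ∑ x, f' x = 0 → ∀ n : ℕ, n + H ≤ H' →
    cor σ' (fun x => f (p x)) (fun x => f' (p x)) n = (if n ≤ H then 1 - (n : ℂ) / H else 0) * cor σ f f' n
  q1 : ∑ n ∈ q.support, ‖q.coeff n‖ ^ 2 ≤ ε ^ 2
  q2 : (1 + ∑ n ∈ q.support, ‖q.coeff n‖) ^ 2 * (q.natDegree + M) ≤ ε ^ 2 * H'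
  q3 : ∀ F : V → (Fin r → ZMod 2) → ℂ, (∀ i v, ‖F i v‖ ≤ 1) → (∀ i, ∑ v, F i v = 0) →
    ∑ x : V', ∑ v : Fin r → ZMod 2, ‖(∑ n ∈ q.support, q.coeff n * F (p ((σ' ^ n) x)) (v + Γ ((σ' ^ n) x))) -
      F (p ((σ' ^ M) x)) (v + Γ ((σ' ^ M) x))‖ ^ 2 ≤ ε ^ 2 * (Fintype.card V' * 2 ^ r)
  q4 : ∀ (E : Type) [NormedAddCommGroup E] [InnerProductSpace ℂ E] (U : E ≃ₗᵢ[ℂ] E) (x : E),
    ‖(∑ n ∈ q.support, q.coeff n • (⇑U)^[n] x) - (⇑U)^[M] x‖ ≤ ‖x‖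

/-- the letter at the block with digits `κ` -/
def ltr {A : Type} [AddCommMonoid A] {d n : ℕ} (ω : Fin d → Fin n → A) (κ : Fin d → Fin n) : A :=
  ∑ i, ω i (κ i)

/-- letters are uniformly distributed and pairwise independent -/
def S_Let : Prop := ∀ (A : Type) [AddCommGroup A] [Fintype A] (d n : ℕ) (φ φ' : A → ℂ) (κ κ' : Fin d → Fin n),
  0 < d →
  ((Fintype.card A : ℂ) * ∑ ω : Fin d → Fin n → A, φ (ltr ω κ) = (Fintype.card A : ℂ) ^ (d * n) * ∑ a, φ a) ∧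
  (κ ≠ κ' → (Fintype.card A : ℂ) ^ 2 * ∑ ω : Fin d → Fin n → A, φ (ltr ω κ) * φ' (ltr ω κ') =
    (Fintype.card A : ℂ) ^ (d * n) * ((∑ a, φ a) * ∑ a, φ' a))

/-- pairing on `(ℤ/2)^m` -/
def pr2 {m : ℕ} (a b : Fin m → ZMod 2) : ZMod 2 := ∑ l, a l * b l

/-- the gauge at the block with digits `κ` -/
def gau {m r d n : ℕ} (lb : Fin d ≃ Fin r × (Fin m → ZMod 2)) (ω : Fin d → Fin n → (Fin m → ZMod 2))
    (κ : Fin d → Fin n) : Fin r → ZMod 2 :=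
  fun s => ∑ i, if (lb i).1 = s then pr2 (lb i).2 (ω i (κ i)) else 0

/-- gauged functions are sums of functions each independent of one digit -/
def S_Gau : Prop := ∀ (m r d n : ℕ) (lb : Fin d ≃ Fin r × (Fin m → ZMod 2))
  (F : (Fin m → ZMod 2) → (Fin r → ZMod 2) → ℂ), (∀ a v, ‖F a v‖ ≤ 1) → (∀ a, ∑ v, F a v = 0) →
  ∃ G : Fin d → (Fin d → Fin n → (Fin m → ZMod 2)) → (Fin d → Fin n) → (Fin r → ZMod 2) → ℂ,
    (∀ i ω κ κ' v, (∀ i', i' ≠ i → κ i' = κ' i') → G i ω κ v = G i ω κ' v) ∧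
    (∀ i ω κ v, ‖G i ω κ v‖ ≤ 2 ^ r) ∧
    ∀ ω κ v, F (ltr ω κ) (v + gau lb ω κ) = ∑ i, G i ω κ v

/-- the trigonometric polynomials (products of Fejer kernels, shifted by `M`) -/
def S_Pol : Prop := ∀ (d L : ℕ) (a : Fin d → ℕ), 0 < L → (∀ i, 0 < a i) → ∃ (q : Polynomial ℂ) (M : ℕ),
  ∑ n ∈ q.support, ‖q.coeff n‖ ≤ 2 ^ d ∧ ∑ n ∈ q.support, ‖q.coeff n‖ ^ 2 ≤ 4 ^ d / L ∧
  q.natDegree ≤ 2 * L * ∑ i, a i ∧ M ≤ L * ∑ i, a i ∧
  ∀ (E : Type) [NormedAddCommGroup E] [InnerProductSpace ℂ E] (U : E ≃ₗᵢ[ℂ] E),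
    (∀ x, ‖(∑ n ∈ q.support, q.coeff n • (⇑U)^[n] x) - (⇑U)^[M] x‖ ≤ ‖x‖) ∧
    ∀ (f : Fin d → E) (δ : ℝ), (∀ i, ‖(⇑U)^[a i] (f i) - f i‖ ≤ δ) →
    ‖(∑ n ∈ q.support, q.coeff n • (⇑U)^[n] (∑ i, f i)) - (⇑U)^[M] (∑ i, f i)‖ ≤ d * L * δ

/-- existence of a next stage -/
def S_NextA : Prop := ∀ (m h : ℕ) (V : Type) [Fintype V] (e : (Fin m → ZMod 2) ≃ V) (σ : Equiv.Perm V),
  σ ^ (2 ^ h) = 1 → ∀ (r N : ℕ) (ε : ℝ), 0 < r → 0 < ε →
  ∃ (V' : Type) (_ : Fintype V') (m' h' : ℕ) (σ' : Equiv.Perm V') (p : V' → V) (t : V' → ℕ)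
    (Γ : V' → Fin r → ZMod 2) (q : Polynomial ℂ) (M : ℕ),
    Fintype.card V' = 2 ^ m' ∧ m < m' ∧ N ≤ 2 ^ h' ∧ Nxt σ (2 ^ h) σ' (2 ^ h') r ε p t Γ q M

/-- existence of a next stage, with dyadic labels -/
def S_Next : Prop := ∀ (m h : ℕ) (σ : Equiv.Perm (Fin (2 ^ m))),
  σ ^ (2 ^ h) = 1 → ∀ (r N : ℕ) (ε : ℝ), 0 < r → 0 < ε →
  ∃ (m' h' : ℕ) (σ' : Equiv.Perm (Fin (2 ^ m'))) (p : Fin (2 ^ m') → Fin (2 ^ m)) (t : Fin (2 ^ m') → ℕ)
    (Γ : Fin (2 ^ m') → Fin r → ZMod 2) (q : Polynomial ℂ) (M : ℕ),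
    m < m' ∧ N ≤ 2 ^ h' ∧ (∀ x, (p x : ℕ) = (x : ℕ) / 2 ^ (m' - m)) ∧
    Nxt σ (2 ^ h) σ' (2 ^ h') r ε p t Γ q M

/-! ### the automorphism -/

/-- the tower of finite approximations of the map `T` -/
structure Tow {X : Type} [MeasurableSpace X] (μ : Measure X) (T : X → X) where
  K : ℕ → ℕ
  H : ℕ → ℕ
  P : ∀ j, X → Fin (K j)
  σ : ∀ j, Equiv.Perm (Fin (K j))
  p : ∀ j, Fin (K (j + 1)) → Fin (K j)
  t : ∀ j, Fin (K (j + 1)) → ℕ
  Γ : ∀ j, Fin (K (j + 1)) → Fin (j + 1) → ZMod 2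
  q : ℕ → Polynomial ℂ
  M : ℕ → ℕ
  K0 : K 0 = 2
  H0 : H 0 = 1
  s0 : σ 0 = 1
  meas : ∀ j, Measurable (P j)
  unif : ∀ j i, μ.real {x | P j x = i} = 1 / K j
  ref : ∀ j x, p j (P (j + 1) x) = P j x
  gen : ∀ B : Set X, MeasurableSet B → ∀ ε : ℝ, 0 < ε →
    ∃ j, ∃ s : Set (Fin (K j)), μ.real (B ∆ {x | P j x ∈ s}) < ε
  nxt : ∀ j, Nxt (σ j) (H j) (σ (j + 1)) (H (j + 1)) (j + 1) (1 / 2 ^ j) (p j) (t j) (Γ j) (q j) (M j)
  grow : ∀ j, 2 ^ (j + 2) * H j ^ 2 ≤ H (j + 1)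
  close : ∀ j, μ.real {x | P j (T x) ≠ σ j (P j x)} ≤ 2 / H j

/-- existence of the automorphism -/
def S_Tower : Prop := ∀ (X : Type) [MeasurableSpace X] [StandardBorelSpace X] (μ : Measure X)
  [IsProbabilityMeasure μ] [NullSingletonClass μ], ∃ T : AU μ, Nonempty (Tow μ T.1)

/-- its correlations -/
def S_Corr : Prop := ∀ (X : Type) [MeasurableSpace X] (μ : Measure X) [IsProbabilityMeasure μ] (T : AU μ)
  (W : Tow μ T.1),
  (∀ (j : ℕ) (f f' : Fin (W.K j) → ℂ), ∑ i, f i = 0 → ∑ i, f' i = 0 →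
    Summable (fun n : ℕ => ‖∫ x, f (W.P j ((T.1 : X → X)^[n] x)) * starRingEnd ℂ (f' (W.P j x)) ∂μ‖)) ∧
  ∀ f : Fin (W.K 0) → ℂ, ∑ i, f i = 0 → ∀ n : ℕ, 1 ≤ n →
    ∫ x, f (W.P 0 ((T.1 : X → X)^[n] x)) * starRingEnd ℂ (f (W.P 0 x)) ∂μ = 0

/-- Lebesgue spectrum -/
def S_Leb : Prop := ∀ (X : Type) [MeasurableSpace X] (μ : Measure X) [IsProbabilityMeasure μ] (T : AU μ)
  (W : Tow μ T.1), LebSpec μ T.1

/-! ### density -/

/-- dyadic structure of the fibre: labels and the action of `(ℤ/2)^r` -/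
structure YS {Y : Type} [MeasurableSpace Y] (ν : Measure Y) where
  v : ∀ r, Y → Fin r → ZMod 2
  act : ∀ r, (Fin r → ZMod 2) → AU ν
  meas : ∀ r (w : Fin r → ZMod 2), MeasurableSet {y | v r y = w}
  v_act : ∀ r w y, v r ((act r w).1 y) = v r y + w
  invol : ∀ r w y, (act r w).1 ((act r w).1 y) = y
  unif : ∀ r (w : Fin r → ZMod 2), ν.real {y | v r y = w} = 1 / 2 ^ r
  ref : ∀ r r', r ≤ r' → ∀ y y', v r' y = v r' y' → v r y = v r y'
  gen : ∀ B : Set Y, MeasurableSet B → ∀ ε : ℝ, 0 < ε →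
    ∃ r, ∃ s : Set (Fin r → ZMod 2), ν.real (B ∆ {y | v r y ∈ s}) < ε

def S_YStr : Prop := ∀ (Y : Type) [MeasurableSpace Y] [StandardBorelSpace Y] (ν : Measure Y)
  [IsProbabilityMeasure ν] [NullSingletonClass ν], Nonempty (YS ν)

/-- a cocycle is a coboundary along blocks -/
def S_Theta : Prop := ∀ (X Y : Type) [MeasurableSpace X] [StandardBorelSpace X] [MeasurableSpace Y]
  [StandardBorelSpace Y] (μ : Measure X) (ν : Measure Y) [IsProbabilityMeasure μ] [IsProbabilityMeasure ν]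
  (T : AU μ) (Φ : Coc X ν) (τ : X → ℕ), Measurable τ →
  ∃ θ : Coc X ν, ∀ x, τ (T.1 x) = τ x + 1 → ∀ y, (θ.1 (T.1 x)).1 y = (Φ.1 x).1 ((θ.1 x).1 y)

/-- the gauged coboundary -/
def S_Alpha : Prop := ∀ (X Y : Type) [MeasurableSpace X] [StandardBorelSpace X] [MeasurableSpace Y]
  [StandardBorelSpace Y] (μ : Measure X) (ν : Measure Y) [IsProbabilityMeasure μ] [IsProbabilityMeasure ν]
  (T : AU μ) (θ : Coc X ν) (D : YS ν) (r : ℕ) (Γ : X → Fin r → ZMod 2), (∀ w, MeasurableSet {x | Γ x = w}) →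
  ∃ α : Coc X ν, ∀ x y, (α.1 x).1 y =
    (θ.1 (T.1 x)).1 ((D.act r (Γ (T.1 x))).1.symm ((D.act r (Γ x)).1 ((θ.1 x).1.symm y)))

/-- approximation by step functions -/
def S_Approx : Prop := ∀ (X Y : Type) [MeasurableSpace X] [MeasurableSpace Y] (μ : Measure X) (ν : Measure Y)
  [IsProbabilityMeasure μ] [IsProbabilityMeasure ν] (T : X → X) (W : Tow μ T) (D : YS ν) (h : X × Y → ℂ),
  Measurable h → (∀ z, ‖h z‖ ≤ 1) → (∀ x, ∫ y, h (x, y) ∂ν = 0) → ∀ ε : ℝ, 0 < ε →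
  ∃ j₁ : ℕ, ∀ j ≥ j₁, ∃ F : Fin (W.K j) → (Fin (j + 1) → ZMod 2) → ℂ,
    (∀ i v, ‖F i v‖ ≤ 1) ∧ (∀ i, ∑ v, F i v = 0) ∧
    eLpNorm (fun z : X × Y => h z - F (W.P j z.1) (D.v (j + 1) z.2)) 2 (μ.prod ν) ≤ ENNReal.ofReal ε

/-- gauged step functions are nearly fixed by the trigonometric polynomial -/
def S_Gauge : Prop := ∀ (X Y : Type) [MeasurableSpace X] [MeasurableSpace Y] (μ : Measure X) (ν : Measure Y)
  [IsProbabilityMeasure μ] [IsProbabilityMeasure ν] (T : AU μ) (W : Tow μ T.1) (D : YS ν) (j : ℕ)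
  (F : Fin (W.K j) → (Fin (j + 1) → ZMod 2) → ℂ), (∀ i v, ‖F i v‖ ≤ 1) → (∀ i, ∑ v, F i v = 0) →
  eLpNorm (fun z : X × Y => (∑ n ∈ (W.q j).support, (W.q j).coeff n *
      F (W.P j ((T.1 : X → X)^[n] z.1)) (D.v (j + 1) z.2 + W.Γ j (W.P (j + 1) ((T.1 : X → X)^[n] z.1)))) -
    F (W.P j ((T.1 : X → X)^[W.M j] z.1)) (D.v (j + 1) z.2 + W.Γ j (W.P (j + 1) ((T.1 : X → X)^[W.M j] z.1)))) 2
    (μ.prod ν) ≤ ENNReal.ofReal (4 / 2 ^ j)

/-- density -/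
def S_Dens : Prop := ∀ (X Y : Type) [MeasurableSpace X] [StandardBorelSpace X] [MeasurableSpace Y]
  [StandardBorelSpace Y] (μ : Measure X) (ν : Measure Y) [IsProbabilityMeasure μ] [IsProbabilityMeasure ν]
  (T : AU μ) (W : Tow μ T.1) (D : YS ν) (Φ : Coc X ν) (g : Y → ℂ), Measurable g → (∀ y, ‖g y‖ ≤ 1) →
  ∫ y, g y ∂ν = 0 → ∀ δ ε : ℝ, 0 < δ → 0 < ε →
  ∃ α ∈ BE μ ν T.1 g ε, ∃ E : Set X, MeasurableSet E ∧ μ.real E < δ ∧ ∀ x, x ∉ E → α.1 x = Φ.1 x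

end Pool.Agent.W744.NG
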