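import Mathlib
import Pool.Agent.W744.NG.Stubs

set_option autoImplicit false
set_option linter.unusedSectionVars false
set_option linter.unusedVariables false

/-!
The space of cocycles is a Baire space.
-/

namespace Pool.Agent.W744.NG.Bair

open MeasureTheory Set Filter Topology
open scoped ENNReal symmDiff
open Pool.H359R3 Pool.H359R3.IX
open Pool.Agent.W744.NG

section
variable {X Y : Type} [MeasurableSpace X] [StandardBorelSpace X] [MeasurableSpace Y] [StandardBorelSpace Y]
  {μ : Measure X} {ν : Measure Y} [IsProbabilityMeasure μ] [IsProbabilityMeasure ν]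

/-- limits of vertical automorphisms are vertical -/
theorem vert_lim (F : DF (μ.prod ν)) (Φ : ℕ → Coc X ν) (S : AU (μ.prod ν))
    (h : Tendsto (fun n => skA (oneA : AU μ) (Φ n)) atTop (@nhds _ (un F).toTopologicalSpace S)) :
    ∀ᵐ z ∂(μ.prod ν), (S.1 z).1 = z.1 := by
  have h1 : ∀ A : Set X, MeasurableSet A → (μ.prod ν) ((S.1 ⁻¹' (Prod.fst ⁻¹' A)) ∆ (Prod.fst ⁻¹' A)) = 0 := by
    intro A hA
    have h2 := of_tendsto_un F atTop _ S h (Prod.fst ⁻¹' A) (measurable_fst hA) (measure_lt_top _ _)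
    have h3 : (fun n => (μ.prod ν) (((skA (oneA : AU μ) (Φ n)).1 ⁻¹' (Prod.fst ⁻¹' A)) ∆
        (S.1 ⁻¹' (Prod.fst ⁻¹' A)))) = fun _ => (μ.prod ν) ((Prod.fst ⁻¹' A) ∆ (S.1 ⁻¹' (Prod.fst ⁻¹' A))) := by
      funext n
      rfl
    rw [h3] at h2
    have h4 := tendsto_nhds_unique h2 tendsto_const_nhds
    rw [symmDiff_comm]
    exact h4.symm
  obtain ⟨f, hf, hinj⟩ := MeasurableSpace.measurable_injection_nat_bool_of_countablySeparated (α := X)
  have h2 : ∀ i : ℕ, ∀ᵐ z ∂(μ.prod ν), (f (S.1 z).1 i = true ↔ f z.1 i = true) := by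
    intro i
    have hA : MeasurableSet {x : X | f x i = true} := ((measurable_pi_apply i).comp hf) (measurableSet_singleton true)
    have h3 := h1 _ hA
    rw [measure_symmDiff_eq_zero_iff] at h3
    filter_upwards [h3] with z hz
    have : (z ∈ S.1 ⁻¹' (Prod.fst ⁻¹' {x : X | f x i = true})) = (z ∈ Prod.fst ⁻¹' {x : X | f x i = true}) := hz
    exact iff_of_eq this
  rw [← ae_all_iff] at h2
  filter_upwards [h2] with z hz
  apply hinj
  funext i
  exact Bool.eq_iff_iff.2 (hz i)

end

theorem main (hInd : S_Ind) (hVert : S_Vert) (hComp : S_Comp) : S_Baire := by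
  intro X Y _ _ _ _ μ ν _ _ _ _
  obtain ⟨F⟩ := exists_DF (μ.prod ν)
  have hC := hComp (X × Y) (μ.prod ν) F
  let uA : UniformSpace (AU (μ.prod ν)) := un F
  let κ : Coc X ν → AU (μ.prod ν) := fun Φ => skA (oneA : AU μ) Φ
  let uC : UniformSpace (Coc X ν) := UniformSpace.comap κ uA
  have htop : uC.toTopologicalSpace = tC μ ν := by
    rw [hInd X Y μ ν F]
    rfl
  have hcg : (uniformity (AU (μ.prod ν))).IsCountablyGenerated := un_cg F
  have hcg2 : (uniformity (Coc X ν)).IsCountablyGenerated := by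
    show (Filter.comap _ _).IsCountablyGenerated
    infer_instance
  have hcomp : CompleteSpace (Coc X ν) := by
    refine UniformSpace.complete_of_cauchySeq_tendsto fun Φ hΦ => ?_
    have huc : UniformContinuous κ := uniformContinuous_comap
    have h1 : CauchySeq (fun n => κ (Φ n)) := huc.comp_cauchySeq hΦ
    obtain ⟨S, hS⟩ := cauchySeq_tendsto_of_complete h1
    have h2 := vert_lim F Φ S hS
    obtain ⟨Ψ, hΨ⟩ := hVert X Y μ ν S h2
    refine ⟨Ψ, ?_⟩
    have h3 : Tendsto (fun n => κ (Φ n)) atTop (@nhds _ (un F).toTopologicalSpace (κ Ψ)) := by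
      apply tendsto_un F
      intro i
      have h4 := of_tendsto_un F atTop _ S hS (F.C i) (F.meas i) (F.fin i)
      refine h4.congr fun n => ?_
      apply measure_congr
      refine (ae_eq_refl _).symmDiff ?_
      filter_upwards [hΨ] with z hz
      apply propext
      show S.1 z ∈ F.C i ↔ (κ Ψ).1 z ∈ F.C i
      rw [hz]
      exact Iff.rfl
    rw [show 𝓝 Ψ = Filter.comap κ (@nhds _ (un F).toTopologicalSpace (κ Ψ)) from
      @nhds_induced _ _ (un F).toTopologicalSpace κ Ψ, Filter.tendsto_comap_iff]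
    exact h3
  rw [← htop]
  let _ : PseudoMetricSpace (Coc X ν) := UniformSpace.pseudoMetricSpace (Coc X ν)
  exact inferInstance

end Pool.Agent.W744.NG.Bair
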