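import Mathlib
import Pool.Agent.W744.NG.Stubs
import Pool.Agent.W744.SF.Top
import Pool.Agent.H359R3.MX10

set_option autoImplicit false
set_option linter.unusedSectionVars false
set_option linter.unusedVariables false

/-!
Completeness of the automorphism group of a nonatomic standard probability space.
-/

namespace Pool.Agent.W744.NG.Compl

open MeasureTheory Set Filter Topology
open scoped ENNReal symmDiff
open Pool.H359R3 Pool.H359R3.IX
open Pool.Agent.W744.NG

section
variable {Z : Type} [MeasurableSpace Z] {m : Measure Z} [IsProbabilityMeasure m]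

/-- conjugation to the line -/
def toL (e : Z ≃ᵐ ℝ) (he : MeasurePreserving e m lam) (T : AU m) : Aut :=
  ⟨e.symm.trans (T.1.trans e), (he.comp T.2).comp (he.symm e)⟩

/-- conjugation from the line -/
def frL (e : Z ≃ᵐ ℝ) (he : MeasurePreserving e m lam) (T : Aut) : AU m :=
  ⟨e.trans (T.1.trans e.symm), ((he.symm e).comp T.2).comp he⟩

theorem meas_e (e : Z ≃ᵐ ℝ) (he : MeasurePreserving e m lam) (s : Set Z) : lam (e.symm ⁻¹' s) = m s :=
  (he.symm e).measure_preimage_equiv s

end

attribute [local instance] Pool.Agent.W744.SF.us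

theorem main : S_Comp := by
  intro Z _ _ m _ _ F
  obtain ⟨e, he⟩ := Pool.H359R3.MX.exists_iso (ν := m)
  let uA : UniformSpace (AU m) := un F
  have hcg : (uniformity (AU m)).IsCountablyGenerated := un_cg F
  refine UniformSpace.complete_of_cauchySeq_tendsto fun T hT => ?_
  have hc : CauchySeq (fun n => io F (T n)) := by
    have : UniformContinuous (io F (μ := m)) := uniformContinuous_comap
    exact this.comp_cauchySeq hT
  have h1 : ∀ i, CauchySeq (fun n => (io F (T n) i).1) := by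
    intro i
    have : UniformContinuous (fun z : ℕ → MeasuredSets m × MeasuredSets m => (z i).1) :=
      uniformContinuous_fst.comp (Pi.uniformContinuous_proj _ i)
    exact this.comp_cauchySeq hc
  have h2 : ∀ i, CauchySeq (fun n => (io F (T n) i).2) := by
    intro i
    have : UniformContinuous (fun z : ℕ → MeasuredSets m × MeasuredSets m => (z i).2) :=
      uniformContinuous_snd.comp (Pi.uniformContinuous_proj _ i)
    exact this.comp_cauchySeq hc
  have L1 := lim_of_cauchy F (fun k => (T k).1) (fun k => (T k).2) (by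
    intro i ε hε
    obtain ⟨N, hN⟩ := EMetric.cauchySeq_iff.1 (h1 i) ε hε
    exact ⟨N, fun m hm n hn => hN m hm n hn⟩)
  have L2 := lim_of_cauchy F (fun k => (T k).1.symm) (fun k => mp_symm (T k)) (by
    intro i ε hε
    obtain ⟨N, hN⟩ := EMetric.cauchySeq_iff.1 (h2 i) ε hε
    exact ⟨N, fun m hm n hn => hN m hm n hn⟩)
  have aux : ∀ (s : Set Z) (g : ℕ → Z → Z) (B : Set Z), Tendsto (fun k => m ((g k ⁻¹' s) ∆ B)) atTop (𝓝 0) →
      ∀ ε : ℝ, 0 < ε → ∃ N, ∀ a ≥ N, ∀ b ≥ N, m.real ((g a ⁻¹' s) ∆ (g b ⁻¹' s)) < ε := by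
    intro s g B hB ε hε
    have h3 := ((ENNReal.tendsto_toReal ENNReal.zero_ne_top).comp hB).eventually
      (gt_mem_nhds (show (0 : ℝ≥0∞).toReal < ε / 2 by simpa using half_pos hε))
    obtain ⟨N, hN⟩ := eventually_atTop.1 h3
    refine ⟨N, fun a ha b hb => ?_⟩
    have h4 : m.real ((g a ⁻¹' s) ∆ (g b ⁻¹' s)) ≤ m.real ((g a ⁻¹' s) ∆ B) + m.real (B ∆ (g b ⁻¹' s)) := by
      refine le_trans (measureReal_mono ?_) (measureReal_union_le _ _)
      intro x hx
      simp only [Set.mem_symmDiff, mem_union] at hx ⊢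
      tauto
    rw [symmDiff_comm B] at h4
    have h5 : m.real ((g a ⁻¹' s) ∆ B) < ε / 2 := hN a ha
    have h6 : m.real ((g b ⁻¹' s) ∆ B) < ε / 2 := hN b hb
    linarith
  have tr : ∀ (A B : Set Z), lam.real ((e.symm ⁻¹' A) ∆ (e.symm ⁻¹' B)) = m.real (A ∆ B) := by
    intro A B
    rw [← preimage_symmDiff, measureReal_def, meas_e e he, ← measureReal_def]
  obtain ⟨S, hS⟩ := Pool.Agent.W744.SF.lim_exists (fun n => toL e he (T n)) (by
    intro s hs ε hε
    obtain ⟨B1, _, hB1⟩ := L1 (e ⁻¹' s) (e.measurable hs) (measure_lt_top _ _)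
    obtain ⟨B2, _, hB2⟩ := L2 (e ⁻¹' s) (e.measurable hs) (measure_lt_top _ _)
    obtain ⟨N1, hN1⟩ := aux _ _ B1 hB1 ε hε
    obtain ⟨N2, hN2⟩ := aux _ _ B2 hB2 ε hε
    refine ⟨max N1 N2, fun a ha b hb => ⟨?_, ?_⟩⟩
    · have := hN1 a ((le_max_left _ _).trans ha) b ((le_max_left _ _).trans hb)
      rw [← tr] at this
      exact this
    · have := hN2 a ((le_max_right _ _).trans ha) b ((le_max_right _ _).trans hb)
      rw [← tr] at this
      exact this)
  refine ⟨frL e he S, ?_⟩
  have h3 : Tendsto T atTop (@nhds _ (un F).toTopologicalSpace (frL e he S)) := by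
    apply tendsto_un F
    intro i
    have h4 := of_tendsto_un Pool.Agent.W744.SF.F0 atTop _ S hS (e.symm ⁻¹' (F.C i)) (e.symm.measurable (F.meas i))
      (measure_lt_top _ _)
    refine h4.congr fun n => ?_
    show lam (((toL e he (T n)).1 ⁻¹' (e.symm ⁻¹' (F.C i))) ∆ (S.1 ⁻¹' (e.symm ⁻¹' (F.C i)))) = _
    have h5 : (toL e he (T n)).1 ⁻¹' (e.symm ⁻¹' (F.C i)) = e.symm ⁻¹' ((T n).1 ⁻¹' (F.C i)) := by
      ext x
      simp [toL]
    have h6 : S.1 ⁻¹' (e.symm ⁻¹' (F.C i)) = e.symm ⁻¹' ((frL e he S).1 ⁻¹' (F.C i)) := by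
      ext x
      simp [frL]
    rw [h5, h6, ← preimage_symmDiff, meas_e e he]
  exact h3

end Pool.Agent.W744.NG.Compl
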