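import Mathlib
import Pool.Agent.W744.NG.Stubs

set_option autoImplicit false
set_option linter.unusedSectionVars false
set_option linter.unusedVariables false

/-!
Density: every cocycle is close to one for which the vertical function is nearly fixed by a
trigonometric polynomial of small norm.
-/

namespace Pool.Agent.W744.NG.Dens

open MeasureTheory Set Filter Topology
open scoped ENNReal symmDiff
open Pool.H359R3 Pool.H359R3.IX
open Pool.Agent.W744.NG

/-! ### functions of finite labels -/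

theorem meas_fin {Z α β : Type} [MeasurableSpace Z] [MeasurableSpace β] [Finite α] (a : Z → α)
    (ha : ∀ i, MeasurableSet {z | a z = i}) (φ : α → β) : Measurable (fun z => φ (a z)) := by
  intro B hB
  have h1 : (fun z => φ (a z)) ⁻¹' B = ⋃ i ∈ {i | φ i ∈ B}, {z | a z = i} := by
    ext z
    simp
  rw [h1]
  exact MeasurableSet.biUnion (Set.toFinite _).countable (fun i _ => ha i)

section tower

variable {X : Type} [MeasurableSpace X] {μ : Measure X} [IsProbabilityMeasure μ] {T : AU μ} (W : Tow μ T.1)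

theorem Kpos (j : ℕ) : 0 < W.K j := by
  have : Nonempty X := by
    by_contra h
    rw [not_nonempty_iff] at h
    have h1 : μ univ = 0 := by
      rw [Set.eq_empty_of_isEmpty (univ : Set X), measure_empty]
    rw [measure_univ] at h1
    exact one_ne_zero h1
  obtain ⟨x⟩ := this
  exact lt_of_le_of_lt (Nat.zero_le _) (W.P j x).2

theorem Hpow (j : ℕ) : 2 ^ j ≤ W.H j := by
  induction j with
  | zero => rw [W.H0]; norm_num
  | succ j ih =>
    refine le_trans ?_ (W.grow j)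
    have h1 : 1 ≤ W.H j := le_trans Nat.one_le_two_pow ih
    calc 2 ^ (j + 1) ≤ 2 ^ (j + 2) := Nat.pow_le_pow_right (by norm_num) (by omega)
      _ ≤ 2 ^ (j + 2) * W.H j ^ 2 := Nat.le_mul_of_pos_right _ (by positivity)

theorem Hpos (j : ℕ) : (0 : ℝ) < W.H j := by
  have := Hpow W j
  have h1 : 0 < W.H j := lt_of_lt_of_le (by positivity) this
  exact_mod_cast h1

theorem lev (j : ℕ) (i : Fin (W.K j)) : MeasurableSet {x | W.P j x = i} :=
  W.meas j (measurableSet_singleton i)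

theorem lab_meas (j : ℕ) (Q : Fin (W.K j) → Prop) :
    μ.real {x | Q (W.P j x)} = (Nat.card {i // Q i} : ℝ) / W.K j := by
  classical
  have h1 : {x | Q (W.P j x)} = ⋃ i ∈ Finset.univ.filter Q, {x | W.P j x = i} := by
    ext x
    simp
  rw [h1, measureReal_biUnion_finset]
  · rw [Finset.sum_congr rfl (fun i _ => W.unif j i), Finset.sum_const, Nat.card_eq_fintype_card,
      Fintype.card_subtype, nsmul_eq_mul]
    ring
  · intro i _ i' _ hii
    rw [Function.onFun, Set.disjoint_left]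
    intro x h2 h3
    exact hii (h2.symm.trans h3)
  · intro i _
    exact lev W j i

/-- exceptional set -/
def Ex (j : ℕ) : Set X :=
  {x | ¬ (W.t j (W.P (j + 1) (T.1 x)) = W.t j (W.P (j + 1) x) + 1 ∧
    W.Γ j (W.P (j + 1) (T.1 x)) = W.Γ j (W.P (j + 1) x))}

theorem Ex_meas (j : ℕ) : MeasurableSet (Ex W j) := by
  have h1 : Measurable (fun x => (W.P (j + 1) (T.1 x), W.P (j + 1) x)) :=
    ((W.meas (j + 1)).comp T.1.measurable).prodMk (W.meas (j + 1))
  exact h1 (MeasurableSet.of_discrete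
    (s := {u : Fin (W.K (j + 1)) × Fin (W.K (j + 1)) | ¬ (W.t j u.1 = W.t j u.2 + 1 ∧ W.Γ j u.1 = W.Γ j u.2)}))

theorem Ex_le (j : ℕ) : μ.real (Ex W j) ≤ 3 / W.H j := by
  have h1 : Ex W j ⊆ {x | W.P (j + 1) (T.1 x) ≠ W.σ (j + 1) (W.P (j + 1) x)} ∪
      {x | (fun z => ¬ (W.t j (W.σ (j + 1) z) = W.t j z + 1 ∧ W.Γ j (W.σ (j + 1) z) = W.Γ j z ∧
        W.p j (W.σ (j + 1) z) = W.σ j (W.p j z))) (W.P (j + 1) x)} := by
    intro x hx
    by_cases h : W.P (j + 1) (T.1 x) = W.σ (j + 1) (W.P (j + 1) x)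
    · right
      intro h2
      apply hx
      rw [h]
      exact ⟨h2.1, h2.2.1⟩
    · left
      exact h
  have h2 := (measureReal_mono h1).trans (measureReal_union_le (μ := μ) _ _)
  rw [lab_meas W (j + 1) (fun z => ¬ (W.t j (W.σ (j + 1) z) = W.t j z + 1 ∧ W.Γ j (W.σ (j + 1) z) = W.Γ j z ∧
        W.p j (W.σ (j + 1) z) = W.σ j (W.p j z)))] at h2
  have h3 := W.close (j + 1)
  have h4 := (W.nxt j).time
  rw [Fintype.card_fin] at h4
  have h5 : (W.H j : ℝ) * (Nat.card {x : Fin (W.K (j + 1)) // ¬ (W.t j (W.σ (j + 1) x) = W.t j x + 1 ∧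
      W.Γ j (W.σ (j + 1) x) = W.Γ j x ∧ W.p j (W.σ (j + 1) x) = W.σ j (W.p j x))} : ℝ) ≤ W.K (j + 1) := by
    exact_mod_cast h4
  have hK : (0 : ℝ) < W.K (j + 1) := by exact_mod_cast Kpos W (j + 1)
  have hH := Hpos W j
  have hH' := Hpos W (j + 1)
  have h6 : (Nat.card {x : Fin (W.K (j + 1)) // ¬ (W.t j (W.σ (j + 1) x) = W.t j x + 1 ∧
      W.Γ j (W.σ (j + 1) x) = W.Γ j x ∧ W.p j (W.σ (j + 1) x) = W.σ j (W.p j x))} : ℝ) / W.K (j + 1) ≤ 1 / W.H j := by
    rw [div_le_div_iff₀ hK hH]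
    linarith
  have h7 : (2 : ℝ) / W.H (j + 1) ≤ 2 / W.H j := by
    apply div_le_div_of_nonneg_left (by norm_num) hH
    have h8 : W.H j ≤ W.H (j + 1) := by
      refine le_trans ?_ (W.grow j)
      have h1 : 1 ≤ W.H j := le_trans Nat.one_le_two_pow (Hpow W j)
      have h2 : 1 ≤ 2 ^ (j + 2) := Nat.one_le_two_pow
      nlinarith
    exact_mod_cast h8
  have h8 : (3 : ℝ) / W.H j = 1 / W.H j + 2 / W.H j := by ring
  linarith

theorem exists_small (a : ℝ) (ha : 0 < a) : ∃ j0 : ℕ, ∀ j ≥ j0, 3 / (W.H j : ℝ) < a ∧ 4 / (2 : ℝ) ^ j < a ∧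
    (1 / (2 : ℝ) ^ j) ^ 2 < a := by
  obtain ⟨j0, hj0⟩ := exists_nat_gt (4 / a)
  refine ⟨j0, fun j hj => ?_⟩
  have h1 : (j : ℝ) < 2 ^ j := by exact_mod_cast Nat.lt_two_pow_self
  have h2 : (j0 : ℝ) ≤ j := by exact_mod_cast hj
  have h3 : (2 : ℝ) ^ j ≤ W.H j := by exact_mod_cast Hpow W j
  have h4 : 4 / a < 2 ^ j := by linarith
  rw [div_lt_iff₀ ha] at h4
  have hp : (0 : ℝ) < 2 ^ j := by positivity
  have h5 : 4 / (2 : ℝ) ^ j < a := by
    rw [div_lt_iff₀ hp]
    linarith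
  refine ⟨?_, h5, ?_⟩
  · rw [div_lt_iff₀ (Hpos W j)]
    nlinarith
  · have h6 : 1 / (2 : ℝ) ^ j ≤ 1 := by
      rw [div_le_one hp]
      exact one_le_pow₀ (by norm_num)
    have h7 : (0 : ℝ) ≤ 1 / (2 : ℝ) ^ j := by positivity
    have h8 : 1 / (2 : ℝ) ^ j ≤ 4 / (2 : ℝ) ^ j := by
      gcongr
      norm_num
    nlinarith

end tower

/-! ### Koopman operator -/

section koop

variable {Z : Type} [MeasurableSpace Z] {m : Measure Z} [IsProbabilityMeasure m]

noncomputable def U0 (S : AU m) : Lp ℂ 2 m →ₗᵢ[ℂ] Lp ℂ 2 m :=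
  Lp.compMeasurePreservingₗᵢ ℂ (⇑S.1) S.2

theorem U0_surj (S : AU m) : Function.Surjective (U0 S) := by
  intro g
  refine ⟨U0 (invA S) g, ?_⟩
  show Lp.compMeasurePreserving (⇑S.1) S.2 (Lp.compMeasurePreserving (⇑(invA S).1) (invA S).2 g) = g
  apply Lp.ext
  have h1 := Lp.coeFn_compMeasurePreserving (Lp.compMeasurePreserving (⇑(invA S).1) (invA S).2 g) S.2
  have h2 := Lp.coeFn_compMeasurePreserving g (invA S).2
  have h3 := S.2.quasiMeasurePreserving.ae_eq_comp h2
  refine h1.trans (h3.trans ?_)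
  refine Eventually.of_forall fun z => ?_
  show g ((invA S).1 (S.1 z)) = g z
  congr 1
  exact S.1.symm_apply_apply z

noncomputable def U1 (S : AU m) : Lp ℂ 2 m ≃ₗᵢ[ℂ] Lp ℂ 2 m :=
  LinearIsometryEquiv.ofSurjective (U0 S) (U0_surj S)

theorem U1_apply (S : AU m) (g : Lp ℂ 2 m) : U1 S g = Lp.compMeasurePreserving (⇑S.1) S.2 g := rfl

theorem U1_iter (S : AU m) (k : Z → ℂ) (hk : MemLp k 2 m) (n : ℕ) :
    ((⇑(U1 S))^[n] (hk.toLp k) : Z → ℂ) =ᵐ[m] fun z => k ((S.1 : Z → Z)^[n] z) := by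
  induction n with
  | zero => exact hk.coeFn_toLp
  | succ n ih =>
    rw [Function.iterate_succ_apply']
    have h1 := Lp.coeFn_compMeasurePreserving ((⇑(U1 S))^[n] (hk.toLp k)) S.2
    have h2 := S.2.quasiMeasurePreserving.ae_eq_comp ih
    refine h1.trans (h2.trans ?_)
    refine Eventually.of_forall fun z => ?_
    show k ((S.1 : Z → Z)^[n] (S.1 z)) = k ((S.1 : Z → Z)^[n + 1] z)
    rw [Function.iterate_succ_apply]

theorem contr (S : AU m) (q : Polynomial ℂ) (M : ℕ)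
    (hq : ∀ (E : Type) [NormedAddCommGroup E] [InnerProductSpace ℂ E] (U : E ≃ₗᵢ[ℂ] E) (x : E),
      ‖(∑ n ∈ q.support, q.coeff n • (⇑U)^[n] x) - (⇑U)^[M] x‖ ≤ ‖x‖) (k : Z → ℂ) (hk : MemLp k 2 m) :
    eLpNorm (fun z => (∑ n ∈ q.support, q.coeff n * k ((S.1 : Z → Z)^[n] z)) - k ((S.1 : Z → Z)^[M] z)) 2 m ≤
      eLpNorm k 2 m := by
  have h1 := hq (Lp ℂ 2 m) (U1 S) (hk.toLp k)
  have h2 : ((((∑ n ∈ q.support, q.coeff n • (⇑(U1 S))^[n] (hk.toLp k)) -
      (⇑(U1 S))^[M] (hk.toLp k)) : Lp ℂ 2 m) : Z → ℂ) =ᵐ[m]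
      fun z => (∑ n ∈ q.support, q.coeff n * k ((S.1 : Z → Z)^[n] z)) - k ((S.1 : Z → Z)^[M] z) := by
    have h3 := Lp.coeFn_sub (∑ n ∈ q.support, q.coeff n • (⇑(U1 S))^[n] (hk.toLp k)) ((⇑(U1 S))^[M] (hk.toLp k))
    have h4 : ((∑ n ∈ q.support, q.coeff n • (⇑(U1 S))^[n] (hk.toLp k) : Lp ℂ 2 m) : Z → ℂ) =ᵐ[m]
        fun z => ∑ n ∈ q.support, q.coeff n * k ((S.1 : Z → Z)^[n] z) := by
      have h5 := Lp.coeFn_finsetSum q.support (fun n => q.coeff n • (⇑(U1 S))^[n] (hk.toLp k))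
      have h6 : ∀ n ∈ q.support, ((q.coeff n • (⇑(U1 S))^[n] (hk.toLp k) : Lp ℂ 2 m) : Z → ℂ) =ᵐ[m]
          fun z => q.coeff n * k ((S.1 : Z → Z)^[n] z) := by
        intro n _
        have h7 := Lp.coeFn_smul (q.coeff n) ((⇑(U1 S))^[n] (hk.toLp k))
        filter_upwards [h7, U1_iter S k hk n] with z hz1 hz2
        rw [hz1, Pi.smul_apply, hz2, smul_eq_mul]
      have h8 : ∀ᵐ z ∂m, ∀ n ∈ q.support, ((q.coeff n • (⇑(U1 S))^[n] (hk.toLp k) : Lp ℂ 2 m) : Z → ℂ) z =
          q.coeff n * k ((S.1 : Z → Z)^[n] z) := by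
        exact (Filter.eventually_all_finset _).2 h6
      filter_upwards [h5, h8] with z hz1 hz2
      rw [hz1, Finset.sum_apply]
      exact Finset.sum_congr rfl hz2
    filter_upwards [h3, h4, U1_iter S k hk M] with z hz1 hz2 hz3
    rw [hz1, Pi.sub_apply, hz2, hz3]
  rw [← eLpNorm_congr_ae h2, ← eLpNorm_congr_ae hk.coeFn_toLp]
  rw [Lp.norm_def, Lp.norm_def] at h1
  exact (ENNReal.toReal_le_toReal (Lp.eLpNorm_ne_top _) (Lp.eLpNorm_ne_top _)).1 h1

end koop

/-! ### the conjugacy -/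

section conj

variable {X Y : Type} [MeasurableSpace X] [StandardBorelSpace X] [MeasurableSpace Y] [StandardBorelSpace Y]
  {μ : Measure X} {ν : Measure Y} [IsProbabilityMeasure μ] [IsProbabilityMeasure ν]

theorem inv_meas (θ : Coc X ν) : Measurable (fun z : X × Y => (θ.1 z.1).1.symm z.2) := by
  have h1 : Measurable (fun z : X × Y => ((skE (oneA : AU (0 : Measure X)) θ).symm z).2) :=
    measurable_snd.comp (skE (oneA : AU (0 : Measure X)) θ).symm.measurable
  have h2 : ∀ z : X × Y, (skE (oneA : AU (0 : Measure X)) θ).symm z = (z.1, (θ.1 z.1).1.symm z.2) := by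
    rintro ⟨x, y⟩
    rw [MeasurableEquiv.symm_apply_eq]
    show (x, y) = sk _ θ (x, (θ.1 x).1.symm y)
    unfold sk
    simp [oneA]
  have h3 : (fun z : X × Y => ((skE (oneA : AU (0 : Measure X)) θ).symm z).2) =
      fun z => (θ.1 z.1).1.symm z.2 := funext fun z => by rw [h2 z]
  rw [h3] at h1
  exact h1

variable (D : YS ν) {r : ℕ} (Γ : X → Fin r → ZMod 2) (hΓ : ∀ w, MeasurableSet {x | Γ x = w})

include hΓ in
theorem act_meas (b : X × Y → Y) (hb : Measurable b) (f : (Fin r → ZMod 2) → Y → Y) (hf : ∀ w, Measurable (f w)) :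
    Measurable (fun z : X × Y => f (Γ z.1) (b z)) := by
  intro B hB
  have h1 : (fun z : X × Y => f (Γ z.1) (b z)) ⁻¹' B =
      ⋃ w : Fin r → ZMod 2, ({z : X × Y | Γ z.1 = w} ∩ b ⁻¹' (f w ⁻¹' B)) := by
    ext z
    simp
  rw [h1]
  refine MeasurableSet.iUnion fun w => ?_
  exact (measurable_fst (hΓ w)).inter (hb (hf w hB))

/-- fibre map of the conjugacy -/
def PsiF (θ : Coc X ν) (z : X × Y) : X × Y := (z.1, (D.act r (Γ z.1)).1 ((θ.1 z.1).1.symm z.2))

/-- the gauge transformation -/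
def XiF (z : X × Y) : X × Y := (z.1, (D.act r (Γ z.1)).1.symm z.2)

include hΓ in
theorem PsiF_mp (θ : Coc X ν) : MeasurePreserving (PsiF D Γ θ) (μ.prod ν) (μ.prod ν) := by
  have h1 : Measurable (fun z : X × Y => (D.act r (Γ z.1)).1 ((θ.1 z.1).1.symm z.2)) :=
    act_meas Γ hΓ (fun z => (θ.1 z.1).1.symm z.2) (inv_meas θ) (fun w => (D.act r w).1)
      (fun w => (D.act r w).1.measurable)
  have := MeasurePreserving.skew_product (μc := ν) (μd := ν) (MeasurePreserving.id μ)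
    (g := fun x y => (D.act r (Γ x)).1 ((θ.1 x).1.symm y)) h1
    (Eventually.of_forall fun x => ((D.act r (Γ x)).2.comp (mp_symm (θ.1 x))).map_eq)
  exact this

include hΓ in
theorem XiF_mp : MeasurePreserving (XiF D Γ) (μ.prod ν) (μ.prod ν) := by
  have h1 : Measurable (fun z : X × Y => (D.act r (Γ z.1)).1.symm z.2) :=
    act_meas Γ hΓ (fun z => z.2) measurable_snd (fun w => (D.act r w).1.symm)
      (fun w => (D.act r w).1.symm.measurable)
  have := MeasurePreserving.skew_product (μc := ν) (μd := ν) (MeasurePreserving.id μ)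
    (g := fun x y => (D.act r (Γ x)).1.symm y) h1
    (Eventually.of_forall fun x => (mp_symm (D.act r (Γ x))).map_eq)
  exact this

theorem conj_step (T : AU μ) (θ α : Coc X ν) (hα : ∀ x y, (α.1 x).1 y =
    (θ.1 (T.1 x)).1 ((D.act r (Γ (T.1 x))).1.symm ((D.act r (Γ x)).1 ((θ.1 x).1.symm y)))) (z : X × Y) :
    PsiF D Γ θ (sk (T.1 : X → X) α z) = (T.1 z.1, (PsiF D Γ θ z).2) := by
  unfold PsiF sk
  simp only [hα]
  simp

theorem conj_iter (T : AU μ) (θ α : Coc X ν) (hα : ∀ x y, (α.1 x).1 y =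
    (θ.1 (T.1 x)).1 ((D.act r (Γ (T.1 x))).1.symm ((D.act r (Γ x)).1 ((θ.1 x).1.symm y)))) (n : ℕ) (z : X × Y) :
    PsiF D Γ θ ((sk (T.1 : X → X) α)^[n] z) = ((T.1 : X → X)^[n] z.1, (PsiF D Γ θ z).2) := by
  induction n with
  | zero => rfl
  | succ n ih =>
    rw [Function.iterate_succ_apply', conj_step D Γ T θ α hα, ih, Function.iterate_succ_apply']
    congr 1
    have h1 : ((sk (T.1 : X → X) α)^[n] z).1 = (T.1 : X → X)^[n] z.1 := congrArg Prod.fst ih
    show T.1 ((sk (T.1 : X → X) α)^[n] z).1 = _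
    rw [h1]

theorem g_iter (T : AU μ) (θ α : Coc X ν) (g : Y → ℂ) (hα : ∀ x y, (α.1 x).1 y =
    (θ.1 (T.1 x)).1 ((D.act r (Γ (T.1 x))).1.symm ((D.act r (Γ x)).1 ((θ.1 x).1.symm y)))) (n : ℕ) (z : X × Y) :
    g (((sk (T.1 : X → X) α)^[n] z).2) =
      (fun u : X × Y => g ((θ.1 u.1).1 u.2)) (XiF D Γ ((T.1 : X → X)^[n] (PsiF D Γ θ z).1, (PsiF D Γ θ z).2)) := by
  have h1 := conj_iter D Γ T θ α hα n z
  set z' := (sk (T.1 : X → X) α)^[n] z with hz'
  have h2 : z'.1 = (T.1 : X → X)^[n] z.1 := congrArg Prod.fst h1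
  have h3 : (D.act r (Γ z'.1)).1 ((θ.1 z'.1).1.symm z'.2) = (PsiF D Γ θ z).2 := congrArg Prod.snd h1
  show g z'.2 = g ((θ.1 ((T.1 : X → X)^[n] z.1)).1 ((D.act r (Γ ((T.1 : X → X)^[n] z.1))).1.symm (PsiF D Γ θ z).2))
  rw [← h3, ← h2]
  simp

end conj

theorem main (hθ : S_Theta) (hα : S_Alpha) (hA : S_Approx) (hG : S_Gauge) : S_Dens := by
  intro X Y _ _ _ _ μ ν _ _ T W D Φ g hg hg1 hg0 δ ε hδ hε
  classical
  obtain ⟨j0, hj0⟩ := exists_small W (δ / 2) (by positivity)
  obtain ⟨j2, hj2⟩ := exists_small W (min ε 1 / 8) (by positivity)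
  obtain ⟨θ, hθ'⟩ := hθ X Y μ ν T Φ (fun x => W.t j0 (W.P (j0 + 1) x))
    ((measurable_of_countable (W.t j0)).comp (W.meas (j0 + 1)))
  set h : X × Y → ℂ := fun z => g ((θ.1 z.1).1 z.2) with hh
  have hm : Measurable h := hg.comp θ.2
  have h0 : ∀ x, ∫ y, h (x, y) ∂ν = 0 := by
    intro x
    show ∫ y, g ((θ.1 x).1 y) ∂ν = 0
    rw [(θ.1 x).2.integral_comp' (g := g)]
    exact hg0
  obtain ⟨j1, hj1⟩ := hA X Y μ ν T.1 W D h hm (fun z => hg1 _) h0 (ε / 4) (by positivity)
  obtain ⟨j, hja, hjb, hjc⟩ : ∃ j, j0 ≤ j ∧ j1 ≤ j ∧ j2 ≤ j :=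
    ⟨max j0 (max j1 j2), le_max_left _ _, (le_max_left _ _).trans (le_max_right _ _),
      (le_max_right _ _).trans (le_max_right _ _)⟩
  obtain ⟨F, F1, F0, hF⟩ := hj1 j hjb
  set Γ : X → Fin (j + 1) → ZMod 2 := fun x => W.Γ j (W.P (j + 1) x) with hΓdef
  have hΓ : ∀ w, MeasurableSet {x | Γ x = w} := by
    intro w
    exact (W.meas (j + 1)) (MeasurableSet.of_discrete (s := {z | W.Γ j z = w}))
  obtain ⟨α, hα'⟩ := hα X Y μ ν T θ D (j + 1) Γ hΓ
  refine ⟨α, ?_, Ex W j0 ∪ Ex W j, (Ex_meas W j0).union (Ex_meas W j), ?_, ?_⟩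
  · refine ⟨W.q j, W.M j, ?_, ?_⟩
    · refine lt_of_le_of_lt (W.nxt j).q1 ?_
      have h1 := (hj2 j hjc).2.2
      have h2 : min ε 1 ≤ ε := min_le_left _ _
      have h3 : 0 < min ε 1 := by positivity
      linarith
    · -- the functions
      set G0 : X × Y → ℂ := fun u => h (XiF D Γ u) with hG0
      set Ft : X × Y → ℂ := fun z => F (W.P j z.1) (D.v (j + 1) z.2) with hFt
      set Fh : X × Y → ℂ := fun z => F (W.P j z.1) (D.v (j + 1) z.2 + Γ z.1) with hFh
      have hXi := XiF_mp (μ := μ) D Γ hΓ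
      have hPsi := PsiF_mp (μ := μ) D Γ hΓ θ
      have hFtm : Measurable Ft := by
        have := meas_fin (fun z : X × Y => (W.P j z.1, D.v (j + 1) z.2)) (by
          rintro ⟨i, w⟩
          have e : {z : X × Y | (W.P j z.1, D.v (j + 1) z.2) = (i, w)} =
              {x | W.P j x = i} ×ˢ {y | D.v (j + 1) y = w} := by
            ext z
            simp
          rw [e]
          exact (lev W j i).prod (D.meas _ w)) (fun u => F u.1 u.2)
        exact this
      have hvs : ∀ (w : Fin (j + 1) → ZMod 2) (y : Y), D.v (j + 1) ((D.act (j + 1) w).1.symm y) =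
          D.v (j + 1) y + w := by
        intro w y
        have e1 := D.v_act (j + 1) w ((D.act (j + 1) w).1.symm y)
        rw [MeasurableEquiv.apply_symm_apply] at e1
        rw [e1, add_assoc]
        have e2 : w + w = 0 := by
          funext i
          show w i + w i = 0
          generalize w i = c
          revert c
          decide
        rw [e2, add_zero]
      have hFh' : Fh = fun z => Ft (XiF D Γ z) := by
        funext z
        show F (W.P j z.1) (D.v (j + 1) z.2 + Γ z.1) =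
          F (W.P j z.1) (D.v (j + 1) ((D.act (j + 1) (Γ z.1)).1.symm z.2))
        rw [hvs]
      have hG0m : Measurable G0 := hm.comp hXi.measurable
      have hFhm : Measurable Fh := by
        rw [hFh']
        exact hFtm.comp hXi.measurable
      set k : X × Y → ℂ := fun z => G0 z - Fh z with hk
      have hkm : Measurable k := hG0m.sub hFhm
      have hkn : eLpNorm k 2 (μ.prod ν) ≤ ENNReal.ofReal (ε / 4) := by
        have e1 : k = (fun z => h z - Ft z) ∘ (XiF D Γ) := by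
          funext z
          show h (XiF D Γ z) - Fh z = h (XiF D Γ z) - Ft (XiF D Γ z)
          rw [hFh']
        have hsub : Measurable (fun z => h z - Ft z) := hm.sub hFtm
        rw [e1, eLpNorm_comp_measurePreserving hsub.aestronglyMeasurable hXi]
        exact hF
      have hkL : MemLp k 2 (μ.prod ν) := ⟨hkm.aestronglyMeasurable, lt_of_le_of_lt hkn ENNReal.ofReal_lt_top⟩
      -- the vertical product
      set one : Coc X ν := ⟨fun _ => oneA, measurable_snd⟩ with hone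
      set S : AU (μ.prod ν) := skA T one with hS
      have hSi : ∀ (n : ℕ) (z : X × Y), (S.1 : X × Y → X × Y)^[n] z = ((T.1 : X → X)^[n] z.1, z.2) := by
        intro n z
        induction n with
        | zero => rfl
        | succ n ih =>
          rw [Function.iterate_succ_apply', ih, Function.iterate_succ_apply']
          rfl
      have hR3 := contr S (W.q j) (W.M j) (W.nxt j).q4 k hkL
      have hR2 := hG X Y μ ν T W D j F F1 F0
      -- the decomposition
      have hdec : (fun z : X × Y => (∑ n ∈ (W.q j).support, (W.q j).coeff n *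
          g (((sk (T.1 : X → X) α)^[n] z).2)) - g (((sk (T.1 : X → X) α)^[W.M j] z).2)) =
          ((fun z : X × Y => (∑ n ∈ (W.q j).support, (W.q j).coeff n *
            F (W.P j ((T.1 : X → X)^[n] z.1)) (D.v (j + 1) z.2 + W.Γ j (W.P (j + 1) ((T.1 : X → X)^[n] z.1)))) -
            F (W.P j ((T.1 : X → X)^[W.M j] z.1))
              (D.v (j + 1) z.2 + W.Γ j (W.P (j + 1) ((T.1 : X → X)^[W.M j] z.1)))) +
          (fun z => (∑ n ∈ (W.q j).support, (W.q j).coeff n * k ((S.1 : X × Y → X × Y)^[n] z)) -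
            k ((S.1 : X × Y → X × Y)^[W.M j] z))) ∘ (PsiF D Γ θ) := by
        funext z
        have e1 : ∀ n : ℕ, g (((sk (T.1 : X → X) α)^[n] z).2) =
            F (W.P j ((T.1 : X → X)^[n] (PsiF D Γ θ z).1)) (D.v (j + 1) (PsiF D Γ θ z).2 +
              W.Γ j (W.P (j + 1) ((T.1 : X → X)^[n] (PsiF D Γ θ z).1))) +
            k ((S.1 : X × Y → X × Y)^[n] (PsiF D Γ θ z)) := by
          intro n
          rw [g_iter D Γ T θ α g hα' n z, hSi]
          show h (XiF D Γ ((T.1 : X → X)^[n] (PsiF D Γ θ z).1, (PsiF D Γ θ z).2)) =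
            Fh ((T.1 : X → X)^[n] (PsiF D Γ θ z).1, (PsiF D Γ θ z).2) +
            (h (XiF D Γ ((T.1 : X → X)^[n] (PsiF D Γ θ z).1, (PsiF D Γ θ z).2)) -
              Fh ((T.1 : X → X)^[n] (PsiF D Γ θ z).1, (PsiF D Γ θ z).2))
          ring
        simp only [e1, Function.comp, Pi.add_apply, mul_add, Finset.sum_add_distrib]
        ring
      have hfin : ∀ n : ℕ, Measurable (fun z : X × Y => Fh ((S.1 : X × Y → X × Y)^[n] z)) := fun n =>
        hFhm.comp (S.1.measurable.iterate n)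
      have hm2 : Measurable (fun z : X × Y => (∑ n ∈ (W.q j).support, (W.q j).coeff n *
            F (W.P j ((T.1 : X → X)^[n] z.1)) (D.v (j + 1) z.2 + W.Γ j (W.P (j + 1) ((T.1 : X → X)^[n] z.1)))) -
            F (W.P j ((T.1 : X → X)^[W.M j] z.1))
              (D.v (j + 1) z.2 + W.Γ j (W.P (j + 1) ((T.1 : X → X)^[W.M j] z.1)))) := by
        have e2 : ∀ n : ℕ, Measurable (fun z : X × Y => F (W.P j ((T.1 : X → X)^[n] z.1))
            (D.v (j + 1) z.2 + W.Γ j (W.P (j + 1) ((T.1 : X → X)^[n] z.1)))) := by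
          intro n
          have e3 : (fun z : X × Y => F (W.P j ((T.1 : X → X)^[n] z.1))
            (D.v (j + 1) z.2 + W.Γ j (W.P (j + 1) ((T.1 : X → X)^[n] z.1)))) =
            fun z : X × Y => Fh ((S.1 : X × Y → X × Y)^[n] z) := by
            funext z
            rw [hSi]
          rw [e3]
          exact hfin n
        exact (Finset.measurable_sum _ fun n _ => (e2 n).const_mul _).sub (e2 _)
      have hm3 : Measurable (fun z => (∑ n ∈ (W.q j).support, (W.q j).coeff n * k ((S.1 : X × Y → X × Y)^[n] z)) -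
            k ((S.1 : X × Y → X × Y)^[W.M j] z)) :=
        (Finset.measurable_sum _ fun n _ => (hkm.comp (S.1.measurable.iterate n)).const_mul _).sub
          (hkm.comp (S.1.measurable.iterate _))
      rw [hdec, eLpNorm_comp_measurePreserving (hm2.add hm3).aestronglyMeasurable hPsi]
      refine lt_of_le_of_lt (eLpNorm_add_le hm2.aestronglyMeasurable hm3.aestronglyMeasurable (by norm_num)) ?_
      refine lt_of_le_of_lt (add_le_add hR2 (hR3.trans hkn)) ?_
      rw [← ENNReal.ofReal_add (by positivity) (by positivity)]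
      apply (ENNReal.ofReal_lt_ofReal_iff hε).2
      have h1 := (hj2 j hjc).2.1
      have h2 : min ε 1 ≤ ε := min_le_left _ _
      linarith
  · have h1 := Ex_le W j0
    have h2 := Ex_le W j
    have h3 := (hj0 j0 le_rfl).1
    have h4 := (hj0 j hja).1
    have h5 := measureReal_union_le (μ := μ) (Ex W j0) (Ex W j)
    linarith
  · intro x hx
    rw [mem_union, not_or] at hx
    have h1 : W.t j0 (W.P (j0 + 1) (T.1 x)) = W.t j0 (W.P (j0 + 1) x) + 1 := by
      by_contra hne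
      exact hx.1 (fun h2 => hne h2.1)
    have h2 : Γ (T.1 x) = Γ x := by
      by_contra hne
      exact hx.2 (fun h2 => hne h2.2)
    apply Subtype.ext
    apply MeasurableEquiv.ext
    funext y
    rw [hα' x y, h2]
    have h3 := hθ' x h1
    rw [h3]
    simp

end Pool.Agent.W744.NG.Dens
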