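import Mathlib
import Pool.Agent.W744.NG.Stubs
import Pool.Agent.H359R3.MX12

set_option autoImplicit false
set_option linter.unusedSectionVars false
set_option linter.unusedVariables false

/-!
Final assembly: the generic extension does not have Lebesgue spectrum.
-/

namespace Pool.Agent.W744.NG.Final

open MeasureTheory Set Filter Topology
open scoped ENNReal symmDiff
open Pool.H359R3 Pool.H359R3.IX
open Pool.Agent.W744.NG

/-! ### category transfer -/

theorem res_iff {E F : Type*} [TopologicalSpace E] [TopologicalSpace F] (π : E → F) (hπ : IsInducing π)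
    (hs : Function.Surjective π) (s : Set F) : s ∈ residual F ↔ π ⁻¹' s ∈ residual E := by
  have hopen : IsOpenMap π := by
    intro U hU
    obtain ⟨V, hV, rfl⟩ := hπ.isOpen_iff.1 hU
    rw [image_preimage_eq V hs]
    exact hV
  constructor
  · intro h
    exact tendsto_residual_of_isOpenMap hπ.continuous hopen h
  · intro h
    rw [mem_residual_iff] at h ⊢
    obtain ⟨T, hT, hTd, hTc, hTs⟩ := h
    have h1 : ∀ u : Set E, ∃ V : Set F, u ∈ T → IsOpen V ∧ π ⁻¹' V = u := by
      intro u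
      by_cases hu : u ∈ T
      · obtain ⟨V, hV, hV2⟩ := hπ.isOpen_iff.1 (hT u hu)
        exact ⟨V, fun _ => ⟨hV, hV2⟩⟩
      · exact ⟨∅, fun h => absurd h hu⟩
    choose V hV using h1
    refine ⟨V '' T, ?_, ?_, hTc.image V, ?_⟩
    · rintro _ ⟨u, hu, rfl⟩
      exact (hV u hu).1
    · rintro _ ⟨u, hu, rfl⟩
      rw [dense_iff_inter_open]
      intro O hO hne
      obtain ⟨y, hy⟩ := hne
      obtain ⟨x, rfl⟩ := hs y
      obtain ⟨z, hz1, hz2⟩ := dense_iff_inter_open.1 (hTd u hu) (π ⁻¹' O) (hO.preimage hπ.continuous) ⟨x, hy⟩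
      rw [← (hV u hu).2] at hz2
      exact ⟨π z, hz1, hz2⟩
    · intro y hy
      obtain ⟨x, rfl⟩ := hs y
      apply hTs
      intro u hu
      rw [← (hV u hu).2]
      exact hy (V u) ⟨u, hu, rfl⟩

/-! ### invariance of the spectral type -/

theorem isSpec_congr {Z : Type} [MeasurableSpace Z] {m : Measure Z} {S S' : Z → Z}
    (hS : MeasurePreserving S m m) (hS' : MeasurePreserving S' m m) (h : ∀ᵐ z ∂m, S z = S' z)
    (f : Z → ℂ) (σ : Measure UnitAddCircle) (h1 : IsSpec m S f σ) : IsSpec m S' f σ := by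
  refine ⟨h1.1, fun n => ?_⟩
  rw [h1.2 n]
  apply integral_congr_ae
  have h2 : ∀ᵐ z ∂m, S^[n] z = S'^[n] z := by
    induction n with
    | zero => exact Eventually.of_forall fun z => rfl
    | succ n ih =>
      have h3 := hS.quasiMeasurePreserving.ae ih
      filter_upwards [h3, h] with z hz1 hz2
      rw [Function.iterate_succ_apply, Function.iterate_succ_apply, hz1, hz2]
  filter_upwards [h2] with z hz
  rw [hz]

theorem leb_congr {Z : Type} [MeasurableSpace Z] {m : Measure Z} {S S' : Z → Z}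
    (hS : MeasurePreserving S m m) (hS' : MeasurePreserving S' m m) (h : ∀ᵐ z ∂m, S z = S' z)
    (h1 : LebSpec m S) : LebSpec m S' := by
  refine ⟨fun f hf hf0 => ?_, ?_⟩
  · obtain ⟨σ, h2, h3⟩ := h1.1 f hf hf0
    exact ⟨σ, isSpec_congr hS hS' h f σ h2, h3⟩
  · obtain ⟨f, hf, hf0, σ, h2, h3⟩ := h1.2
    exact ⟨f, hf, hf0, σ, isSpec_congr hS hS' h f σ h2, h3⟩

/-! ### the generic cocycle -/

section
variable {X Y : Type} [MeasurableSpace X] [StandardBorelSpace X] [MeasurableSpace Y] [StandardBorelSpace Y]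
  {μ : Measure X} {ν : Measure Y} [IsProbabilityMeasure μ] [IsProbabilityMeasure ν]

theorem tend_of_agree (hInd : S_Ind) (Φ : Coc X ν) (α : ℕ → Coc X ν) (E : ℕ → Set X)
    (hE : ∀ k, MeasurableSet (E k)) (hE2 : Tendsto (fun k => μ.real (E k)) atTop (𝓝 0))
    (hag : ∀ k x, x ∉ E k → (α k).1 x = Φ.1 x) :
    Tendsto α atTop (@nhds (Coc X ν) (tC μ ν) Φ) := by
  obtain ⟨F⟩ := exists_DF (μ.prod ν)
  rw [hInd X Y μ ν F]
  rw [show @nhds (Coc X ν) (TopologicalSpace.induced (fun Φ : Coc X ν => skA (oneA : AU μ) Φ)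
    (un F).toTopologicalSpace) Φ = Filter.comap (fun Φ : Coc X ν => skA (oneA : AU μ) Φ)
      (@nhds _ (un F).toTopologicalSpace (skA (oneA : AU μ) Φ)) from
    @nhds_induced _ _ (un F).toTopologicalSpace (fun Φ : Coc X ν => skA (oneA : AU μ) Φ) Φ,
    Filter.tendsto_comap_iff]
  apply tendsto_un F
  intro i
  have h1 : Tendsto (fun k => μ (E k)) atTop (𝓝 0) := by
    have := ENNReal.tendsto_ofReal hE2
    rw [ENNReal.ofReal_zero] at this
    refine this.congr fun k => ?_
    exact ENNReal.ofReal_toReal (measure_ne_top _ _)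
  refine tendsto_of_tendsto_of_tendsto_of_le_of_le tendsto_const_nhds h1 (fun _ => zero_le) (fun k => ?_)
  have h2 : ((((fun Φ : Coc X ν => skA (oneA : AU μ) Φ) ∘ α) k).1 ⁻¹' F.C i) ∆ ((skA (oneA : AU μ) Φ).1 ⁻¹' F.C i) ⊆
      E k ×ˢ (univ : Set Y) := by
    rintro ⟨x, y⟩ hz
    refine ⟨?_, mem_univ _⟩
    by_contra hx
    have h3 : (skA (oneA : AU μ) (α k)).1 (x, y) = (skA (oneA : AU μ) Φ).1 (x, y) := by
      show sk _ (α k) (x, y) = sk _ Φ (x, y)
      unfold sk
      rw [hag k x hx]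
    rw [Set.mem_symmDiff] at hz
    have h4 : (((fun Φ : Coc X ν => skA (oneA : AU μ) Φ) ∘ α) k).1 (x, y) = (skA (oneA : AU μ) Φ).1 (x, y) := h3
    rcases hz with ⟨h5, h6⟩ | ⟨h5, h6⟩
    · apply h6
      show (skA (oneA : AU μ) Φ).1 (x, y) ∈ F.C i
      rw [← h4]
      exact h5
    · apply h6
      show (((fun Φ : Coc X ν => skA (oneA : AU μ) Φ) ∘ α) k).1 (x, y) ∈ F.C i
      rw [h4]
      exact h5
  refine (measure_mono h2).trans (le_of_eq ?_)
  rw [Measure.prod_prod, measure_univ, mul_one]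

theorem BE_mono (T : X → X) (g : Y → ℂ) (ε ε' : ℝ) (h : ε ≤ ε') : BE μ ν T g ε ⊆ BE μ ν T g ε' := by
  rintro Φ ⟨q, M, h1, h2⟩
  exact ⟨q, M, lt_of_lt_of_le h1 h, lt_of_lt_of_le h2 (ENNReal.ofReal_le_ofReal h)⟩

/-- the test function -/
noncomputable def gt (D : YS ν) (y : Y) : ℂ := if D.v 1 y = 0 then 1 else -1

theorem gt_norm (D : YS ν) (y : Y) : ‖gt D y‖ = 1 := by
  unfold gt
  split_ifs <;> simp

theorem gt_meas (D : YS ν) : Measurable (gt D) := by
  unfold gt
  exact Measurable.ite (D.meas 1 0) measurable_const measurable_const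

theorem gt_int (D : YS ν) : ∫ y, gt D y ∂ν = 0 := by
  have h0 : ν.real {y | D.v 1 y = 0} = 1 / 2 := by
    rw [D.unif 1 0]
    norm_num
  have h1 : gt D = fun y => (2 : ℂ) * ({y | D.v 1 y = 0}.indicator (fun _ => (1 : ℂ)) y) - 1 := by
    funext y
    unfold gt
    by_cases h : D.v 1 y = 0
    · rw [if_pos h, Set.indicator_of_mem (show y ∈ {y | D.v 1 y = 0} from h)]
      norm_num
    · rw [if_neg h, Set.indicator_of_notMem (show y ∉ {y | D.v 1 y = 0} from h)]
      norm_num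
  rw [h1, integral_sub, integral_const_mul, integral_indicator_const _ (D.meas 1 0), h0]
  · simp
  · exact ((integrable_const (1 : ℂ)).indicator (D.meas 1 0)).const_mul 2
  · exact integrable_const _

theorem generic (hInd : S_Ind) (hOpen : S_Open) (hSing : S_Sing) (hDens : S_Dens) (T : AU μ) (W : Tow μ T.1)
    (D : YS ν) : {Φ : Coc X ν | ¬ LebSpec (μ.prod ν) (sk T.1 Φ)} ∈ @residual (Coc X ν) (tC μ ν) := by
  let _ : TopologicalSpace (Coc X ν) := tC μ ν
  have hgL : MemLp (gt D) 2 ν := by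
    refine MemLp.of_bound (gt_meas D).aestronglyMeasurable 1 (Eventually.of_forall fun y => ?_)
    rw [gt_norm]
  have h1 : (⋂ n : ℕ, BE μ ν T.1 (gt D) (1 / ((n : ℝ) + 1))) ∈ residual (Coc X ν) := by
    rw [countable_iInter_mem]
    intro n
    have hε : (0 : ℝ) < 1 / ((n : ℝ) + 1) := by positivity
    refine residual_of_dense_open (hOpen X Y μ ν T (gt D) _ hgL) ?_
    rw [dense_iff_inter_open]
    intro O hO hne
    obtain ⟨Φ, hΦ⟩ := hne
    have h2 : ∀ k : ℕ, ∃ α ∈ BE μ ν T.1 (gt D) (1 / ((n : ℝ) + 1)), ∃ E : Set X, MeasurableSet E ∧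
        μ.real E < 1 / ((k : ℝ) + 1) ∧ ∀ x, x ∉ E → α.1 x = Φ.1 x := fun k =>
      hDens X Y μ ν T W D Φ (gt D) (gt_meas D) (fun y => (gt_norm D y).le) (gt_int D) _ _
        (by positivity) hε
    choose α hα E hE1 hE2 hE3 using h2
    have h3 : Tendsto (fun k => μ.real (E k)) atTop (𝓝 0) :=
      squeeze_zero (fun k => measureReal_nonneg) (fun k => (hE2 k).le) tendsto_one_div_add_atTop_nhds_zero_nat
    have h4 := tend_of_agree (μ := μ) hInd Φ α E hE1 h3 hE3
    obtain ⟨k, hk⟩ := (h4.eventually (hO.mem_nhds hΦ)).exists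
    exact ⟨α k, hk, hα k⟩
  refine Filter.mem_of_superset h1 ?_
  intro Φ hΦ hL
  rw [mem_iInter] at hΦ
  have hSk := sk_mp T Φ
  obtain ⟨σ, h2, h3⟩ := hL.1 (fun z => gt D z.2)
    (hgL.comp_measurePreserving measurePreserving_snd) (by
      have := integral_fun_snd (μ := μ) (ν := ν) (f := gt D)
      rw [this]
      simp [gt_int])
  have h4 := hSing (X × Y) (μ.prod ν) (sk T.1 Φ) (fun z => gt D z.2) hSk
    (hgL.comp_measurePreserving measurePreserving_snd) (by
      intro ε hε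
      obtain ⟨n, hn⟩ := exists_nat_one_div_lt hε
      exact BE_mono T.1 (gt D) _ _ hn.le (hΦ n)) σ h2 h3
  have h5 : ∀ᵐ z ∂(μ.prod ν), False := by
    filter_upwards [h4] with z hz
    have h6 := gt_norm D z.2
    have h7 : gt D z.2 = 0 := hz
    rw [h7, norm_zero] at h6
    exact zero_ne_one h6
  rw [Filter.eventually_false_iff_eq_bot, ae_eq_bot] at h5
  have h6 : (μ.prod ν) univ = 1 := measure_univ
  rw [h5] at h6
  simp at h6

end

end Pool.Agent.W744.NG.Final
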