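import Mathlib
import Pool.Agent.W744.NG.Dens

set_option autoImplicit false
set_option linter.unusedSectionVars false
set_option linter.unusedVariables false

/-!
Convergence in measure is the weak topology of the skew products.
-/

namespace Pool.Agent.W744.NG.Ind

open MeasureTheory Set Filter Topology
open scoped ENNReal symmDiff
open Pool.H359R3 Pool.H359R3.IX
open Pool.Agent.W744.NG Pool.Agent.W744.NG.Dens

section gen
variable {Z : Type} [MeasurableSpace Z] {m : Measure Z} [IsProbabilityMeasure m]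

theorem sdu {s t s' t' : Set Z} : m.real ((s ∪ t) ∆ (s' ∪ t')) ≤ m.real (s ∆ s') + m.real (t ∆ t') := by
  refine le_trans (measureReal_mono ?_) (measureReal_union_le _ _)
  intro x hx
  simp only [Set.mem_symmDiff, mem_union] at hx ⊢
  tauto

theorem sdt (s t u : Set Z) : m.real (s ∆ u) ≤ m.real (s ∆ t) + m.real (t ∆ u) := by
  refine le_trans (measureReal_mono ?_) (measureReal_union_le _ _)
  intro x hx
  simp only [Set.mem_symmDiff, mem_union] at hx ⊢
  tauto

theorem mpr {f : Z → Z} (hf : MeasurePreserving f m m) {s : Set Z} (hs : MeasurableSet s) :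
    m.real (f ⁻¹' s) = m.real s := by
  rw [measureReal_def, hf.measure_preimage hs.nullMeasurableSet, ← measureReal_def]

/-- convergence of preimages on generators implies convergence on all measurable sets -/
theorem tend_gen {β : Type} (l : Filter β) (f : β → Z → Z) (g : Z → Z)
    (hf : ∀ b, MeasurePreserving (f b) m m) (hg : MeasurePreserving g m m)
    (C : Set (Set Z)) (hgen : (inferInstance : MeasurableSpace Z) = MeasurableSpace.generateFrom C)
    (h : ∀ s ∈ C, Tendsto (fun b => m.real ((f b ⁻¹' s) ∆ (g ⁻¹' s))) l (𝓝 0)) :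
    ∀ s, MeasurableSet s → Tendsto (fun b => m.real ((f b ⁻¹' s) ∆ (g ⁻¹' s))) l (𝓝 0) := by
  refine approx_induction m C hgen _ h ?_ ?_ ?_ ?_
  · simpa using tendsto_const_nhds
  · intro s _ hs
    refine hs.congr fun b => ?_
    congr 1
    ext x
    simp only [Set.mem_symmDiff, mem_preimage, mem_compl_iff]
    tauto
  · intro s t _ _ hs ht
    refine squeeze0 (fun b => measureReal_nonneg) (fun b => ?_) (add_tend hs ht)
    simp only [preimage_union]
    exact sdu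
  · intro s hs hap
    rw [Metric.tendsto_nhds]
    intro ε hε
    obtain ⟨t, ht, hPt, hst⟩ := hap (ε / 3) (by positivity)
    rw [Metric.tendsto_nhds] at hPt
    filter_upwards [hPt (ε/3) (by positivity)] with b hb
    rw [Real.dist_eq, sub_zero, abs_of_nonneg measureReal_nonneg] at hb ⊢
    have h1 : m.real ((f b ⁻¹' s) ∆ (f b ⁻¹' t)) = m.real (s ∆ t) := by
      rw [← preimage_symmDiff, mpr (hf b) (hs.symmDiff ht)]
    have h2 : m.real ((g ⁻¹' t) ∆ (g ⁻¹' s)) = m.real (s ∆ t) := by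
      rw [← preimage_symmDiff, mpr hg (ht.symmDiff hs), symmDiff_comm]
    have h3 := sdt (m := m) (f b ⁻¹' s) (f b ⁻¹' t) (g ⁻¹' s)
    have h4 := sdt (m := m) (f b ⁻¹' t) (g ⁻¹' t) (g ⁻¹' s)
    rw [h1] at h3
    rw [h2] at h4
    linarith

end gen

section
variable {X Y : Type} [MeasurableSpace X] [StandardBorelSpace X] [MeasurableSpace Y] [StandardBorelSpace Y]
  {μ : Measure X} {ν : Measure Y} [IsProbabilityMeasure μ] [IsProbabilityMeasure ν]

/-- the image of `X × B` -/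
def EB (Φ : Coc X ν) (B : Set Y) : Set (X × Y) := (fun z : X × Y => (Φ.1 z.1).1.symm z.2) ⁻¹' B

theorem EB_meas (Φ : Coc X ν) (B : Set Y) (hB : MeasurableSet B) : MeasurableSet (EB Φ B) := inv_meas Φ hB

theorem EB_sec (Φ : Coc X ν) (B : Set Y) (x : X) : Prod.mk x ⁻¹' (EB Φ B) = (Φ.1 x).1 '' B := by
  rw [MeasurableEquiv.image_eq_preimage_symm]
  rfl

theorem sec_sd (Φ Ψ : Coc X ν) (B : Set Y) (x : X) :
    Prod.mk x ⁻¹' ((EB Φ B) ∆ (EB Ψ B)) = ((Φ.1 x).1 '' B) ∆ ((Ψ.1 x).1 '' B) := by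
  rw [preimage_symmDiff, EB_sec, EB_sec]

/-- the distance in the fibre -/
noncomputable def dd (Φ Ψ : Coc X ν) (B : Set Y) (x : X) : ℝ := ν.real (((Φ.1 x).1 '' B) ∆ ((Ψ.1 x).1 '' B))

theorem dd_meas (Φ Ψ : Coc X ν) (B : Set Y) (hB : MeasurableSet B) : Measurable (dd Φ Ψ B) := by
  have h1 := measurable_measure_prodMk_left (ν := ν) ((EB_meas Φ B hB).symmDiff (EB_meas Ψ B hB))
  have h2 : dd Φ Ψ B = fun x => (ν (Prod.mk x ⁻¹' ((EB Φ B) ∆ (EB Ψ B)))).toReal := by
    funext x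
    rw [sec_sd]
    rfl
  rw [h2]
  exact h1.ennreal_toReal

theorem dd_nonneg (Φ Ψ : Coc X ν) (B : Set Y) (x : X) : 0 ≤ dd Φ Ψ B x := measureReal_nonneg

theorem dd_le_one (Φ Ψ : Coc X ν) (B : Set Y) (x : X) : dd Φ Ψ B x ≤ 1 := by
  have h1 : ν.real (univ : Set Y) = 1 := by simp
  rw [← h1]
  exact measureReal_mono (subset_univ _)

theorem dd_int (Φ Ψ : Coc X ν) (B : Set Y) (hB : MeasurableSet B) :
    (μ.prod ν).real ((EB Φ B) ∆ (EB Ψ B)) = ∫ x, dd Φ Ψ B x ∂μ := by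
  have hm := (EB_meas Φ B hB).symmDiff (EB_meas Ψ B hB)
  rw [measureReal_def, Measure.prod_apply hm, ← integral_toReal]
  · apply integral_congr_ae
    refine Eventually.of_forall fun x => ?_
    show (ν (Prod.mk x ⁻¹' ((EB Φ B) ∆ (EB Ψ B)))).toReal = dd Φ Ψ B x
    rw [sec_sd]
    rfl
  · exact (measurable_measure_prodMk_left hm).aemeasurable
  · exact Eventually.of_forall fun x => measure_lt_top _ _

theorem dd_intble (Φ Ψ : Coc X ν) (B : Set Y) (hB : MeasurableSet B) : Integrable (dd Φ Ψ B) μ := by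
  refine Integrable.of_bound (dd_meas Φ Ψ B hB).aestronglyMeasurable 1 (Eventually.of_forall fun x => ?_)
  rw [Real.norm_eq_abs, abs_of_nonneg (dd_nonneg _ _ _ _)]
  exact dd_le_one _ _ _ _

theorem dd_tri (Φ Ψ Ξ : Coc X ν) (B : Set Y) (x : X) : dd Φ Ξ B x ≤ dd Φ Ψ B x + dd Ψ Ξ B x := sdt _ _ _

theorem dd_comm (Φ Ψ : Coc X ν) (B : Set Y) (x : X) : dd Φ Ψ B x = dd Ψ Φ B x := by
  unfold dd
  rw [symmDiff_comm]

/-- membership in a basic neighbourhood bounds the integral -/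
theorem int_le (Φ Ψ : Coc X ν) (B : Set Y) (hB : MeasurableSet B) (ε : ℝ) (hε : 0 < ε)
    (h : Ψ ∈ NB μ Φ B ε) : ∫ x, dd Φ Ψ B x ∂μ ≤ 2 * ε := by
  have hm : MeasurableSet {x | ε ≤ dd Φ Ψ B x} := measurableSet_le measurable_const (dd_meas Φ Ψ B hB)
  have h1 : ∫ x, dd Φ Ψ B x ∂μ ≤ ∫ x, (ε + {x | ε ≤ dd Φ Ψ B x}.indicator (fun _ => (1 : ℝ)) x) ∂μ := by
    apply integral_mono (dd_intble Φ Ψ B hB)
    · exact (integrable_const _).add ((integrable_const _).indicator hm)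
    · intro x
      show dd Φ Ψ B x ≤ ε + {x | ε ≤ dd Φ Ψ B x}.indicator (fun _ => (1 : ℝ)) x
      by_cases hx : ε ≤ dd Φ Ψ B x
      · rw [indicator_of_mem (show x ∈ {x | ε ≤ dd Φ Ψ B x} from hx)]
        have := dd_le_one Φ Ψ B x
        linarith
      · rw [indicator_of_notMem (show x ∉ {x | ε ≤ dd Φ Ψ B x} from hx)]
        linarith [not_le.1 hx]
  rw [integral_add (integrable_const _) ((integrable_const _).indicator hm), integral_indicator_const _ hm] at h1
  have h2 : μ.real {x | ε ≤ dd Φ Ψ B x} < ε := h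
  simp only [integral_const, smul_eq_mul, mul_one, one_mul, probReal_univ] at h1
  linarith

theorem markov (Φ Ψ : Coc X ν) (B : Set Y) (hB : MeasurableSet B) (δ : ℝ) (hδ : 0 < δ)
    (h : (μ.prod ν).real ((EB Φ B) ∆ (EB Ψ B)) < δ ^ 2) : μ.real {x | δ ≤ dd Φ Ψ B x} < δ := by
  rw [dd_int Φ Ψ B hB] at h
  have h1 := mul_meas_ge_le_integral_of_nonneg (Eventually.of_forall (fun x => dd_nonneg Φ Ψ B x))
    (dd_intble (μ := μ) Φ Ψ B hB) δ
  have h2 : δ * μ.real {x | δ ≤ dd Φ Ψ B x} < δ * δ := by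
    rw [← sq]
    exact lt_of_le_of_lt h1 h
  exact lt_of_mul_lt_mul_left h2 hδ.le

theorem inv_pre (Φ : Coc X ν) (A : Set X) (B : Set Y) :
    (invA (skA (oneA : AU μ) Φ)).1 ⁻¹' (A ×ˢ B) = (Prod.fst ⁻¹' A) ∩ EB Φ B := by
  ext ⟨x, y⟩
  have h2 : (invA (skA (oneA : AU μ) Φ)).1 (x, y) = (x, (Φ.1 x).1.symm y) := by
    show (skE (oneA : AU μ) Φ).symm (x, y) = _
    rw [MeasurableEquiv.symm_apply_eq]
    show (x, y) = sk _ Φ (x, (Φ.1 x).1.symm y)
    unfold sk
    simp [oneA]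
  rw [mem_preimage, h2]
  rfl

theorem cont (F : DF (μ.prod ν)) : @Continuous (Coc X ν) (AU (μ.prod ν)) (tC μ ν) (un F).toTopologicalSpace
    (fun Φ => skA (oneA : AU μ) Φ) := by
  rw [@continuous_iff_continuousAt _ _ (tC μ ν) (un F).toTopologicalSpace]
  intro Φ
  have h1 : Tendsto (fun Ψ : Coc X ν => invA (skA (oneA : AU μ) Ψ)) (@nhds (Coc X ν) (tC μ ν) Φ)
      (@nhds _ (un F).toTopologicalSpace (invA (skA (oneA : AU μ) Φ))) := by
    have hgen : (inferInstance : MeasurableSpace (X × Y)) = MeasurableSpace.generateFrom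
        (image2 (· ×ˢ ·) {s : Set X | MeasurableSet s} {t : Set Y | MeasurableSet t}) := generateFrom_prod.symm
    have h2 := tend_gen (m := μ.prod ν) (@nhds (Coc X ν) (tC μ ν) Φ)
      (fun Ψ : Coc X ν => ((invA (skA (oneA : AU μ) Ψ)).1 : X × Y → X × Y)) (invA (skA (oneA : AU μ) Φ)).1
      (fun Ψ => (invA (skA (oneA : AU μ) Ψ)).2) (invA (skA (oneA : AU μ) Φ)).2 _ hgen (by
        rintro _ ⟨A, hA, B, hB, rfl⟩
        rw [Metric.tendsto_nhds]
        intro ε hε
        have h3 : NB μ Φ B (ε / 3) ∈ @nhds (Coc X ν) (tC μ ν) Φ := by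
          let _ : TopologicalSpace (Coc X ν) := tC μ ν
          apply IsOpen.mem_nhds
          · exact TopologicalSpace.isOpen_generateFrom_of_mem ⟨Φ, B, ε / 3, hB, by positivity, rfl⟩
          · show μ.real {x | ε / 3 ≤ ν.real (((Φ.1 x).1 '' B) ∆ ((Φ.1 x).1 '' B))} < ε / 3
            have : {x | ε / 3 ≤ ν.real (((Φ.1 x).1 '' B) ∆ ((Φ.1 x).1 '' B))} = (∅ : Set X) := by
              ext x
              simp only [symmDiff_self, Set.bot_eq_empty, measureReal_empty, mem_ofPred_eq, mem_empty_iff_false,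
                iff_false, not_le]
              positivity
            rw [this, measureReal_empty]
            positivity
        filter_upwards [h3] with Ψ hΨ
        rw [Real.dist_eq, sub_zero, abs_of_nonneg measureReal_nonneg]
        have h4 := int_le Φ Ψ B hB (ε / 3) (by positivity) hΨ
        rw [← dd_int Φ Ψ B hB] at h4
        refine lt_of_le_of_lt (measureReal_mono ?_ : _ ≤ (μ.prod ν).real ((EB Φ B) ∆ (EB Ψ B))) (by linarith)
        rw [inv_pre, inv_pre]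
        intro z hz
        simp only [Set.mem_symmDiff, mem_inter_iff] at hz ⊢
        tauto)
    apply tendsto_un F
    intro i
    have h3 := h2 (F.C i) (F.meas i)
    have h4 := ENNReal.tendsto_ofReal h3
    rw [ENNReal.ofReal_zero] at h4
    refine h4.congr fun Ψ => ?_
    exact ENNReal.ofReal_toReal (measure_ne_top _ _)
  exact tend_inv F _ _ _ h1

theorem nb_open (F : DF (μ.prod ν)) (Φ : Coc X ν) (B : Set Y) (hB : MeasurableSet B) (ε : ℝ) (hε : 0 < ε) :
    @IsOpen (Coc X ν) (TopologicalSpace.induced (fun Φ : Coc X ν => skA (oneA : AU μ) Φ) (un F).toTopologicalSpace)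
      (NB μ Φ B ε) := by
  let tI : TopologicalSpace (Coc X ν) :=
    TopologicalSpace.induced (fun Φ : Coc X ν => skA (oneA : AU μ) Φ) (un F).toTopologicalSpace
  show @IsOpen (Coc X ν) tI (NB μ Φ B ε)
  rw [isOpen_iff_mem_nhds]
  intro Ψ0 hΨ0
  have hΨ0' : μ.real {x | ε ≤ dd Φ Ψ0 B x} < ε := hΨ0
  obtain ⟨n, hn⟩ : ∃ n : ℕ, μ.real {x | ε - 1 / ((n : ℝ) + 1) ≤ dd Φ Ψ0 B x} + 1 / ((n : ℝ) + 1) < ε := by
    have h1 : Tendsto (fun n : ℕ => μ {x | ε - 1 / ((n : ℝ) + 1) ≤ dd Φ Ψ0 B x}) atTop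
        (𝓝 (μ (⋂ n : ℕ, {x | ε - 1 / ((n : ℝ) + 1) ≤ dd Φ Ψ0 B x}))) := by
      apply tendsto_measure_iInter_atTop
      · intro n
        exact (measurableSet_le measurable_const (dd_meas Φ Ψ0 B hB)).nullMeasurableSet
      · intro a b hab x hx
        have hx' : ε - 1 / ((b : ℝ) + 1) ≤ dd Φ Ψ0 B x := hx
        show ε - 1 / ((a : ℝ) + 1) ≤ dd Φ Ψ0 B x
        have : 1 / ((b : ℝ) + 1) ≤ 1 / ((a : ℝ) + 1) := by
          apply one_div_le_one_div_of_le (by positivity)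
          have : (a : ℝ) ≤ b := by exact_mod_cast hab
          linarith
        linarith
      · exact ⟨0, measure_ne_top _ _⟩
    have h2 : (⋂ n : ℕ, {x | ε - 1 / ((n : ℝ) + 1) ≤ dd Φ Ψ0 B x}) = {x | ε ≤ dd Φ Ψ0 B x} := by
      ext x
      simp only [mem_iInter, mem_ofPred_eq]
      constructor
      · intro h
        apply le_of_forall_pos_le_add
        intro η hη
        obtain ⟨n, hn⟩ := exists_nat_one_div_lt hη
        linarith [h n]
      · intro h n
        have : (0 : ℝ) < 1 / ((n : ℝ) + 1) := by positivity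
        linarith
    rw [h2] at h1
    have h3 : Tendsto (fun n : ℕ => μ.real {x | ε - 1 / ((n : ℝ) + 1) ≤ dd Φ Ψ0 B x} + 1 / ((n : ℝ) + 1)) atTop
        (𝓝 (μ.real {x | ε ≤ dd Φ Ψ0 B x} + 0)) :=
      ((ENNReal.tendsto_toReal (measure_ne_top _ _)).comp h1).add tendsto_one_div_add_atTop_nhds_zero_nat
    rw [add_zero] at h3
    exact (h3.eventually (gt_mem_nhds hΨ0')).exists
  set δ := 1 / ((n : ℝ) + 1) with hδ
  have hδ0 : 0 < δ := by rw [hδ]; positivity
  have hT : Tendsto (fun Ψ : Coc X ν => skA (oneA : AU μ) Ψ) (𝓝 Ψ0)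
      (@nhds _ (un F).toTopologicalSpace (skA (oneA : AU μ) Ψ0)) := by
    have : @Continuous _ _ tI (un F).toTopologicalSpace (fun Ψ : Coc X ν => skA (oneA : AU μ) Ψ) :=
      @continuous_induced_dom _ _ _ (un F).toTopologicalSpace
    exact @Continuous.tendsto _ _ tI (un F).toTopologicalSpace _ this Ψ0
  have hT2 := tend_inv F _ _ _ hT
  have h3 := of_tendsto_un F _ _ _ hT2 ((univ : Set X) ×ˢ B) (MeasurableSet.univ.prod hB) (measure_lt_top _ _)
  have h4 : ∀ᶠ Ψ in 𝓝 Ψ0, (μ.prod ν) ((EB Ψ B) ∆ (EB Ψ0 B)) < ENNReal.ofReal (δ ^ 2) := by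
    have h5 := h3.eventually (gt_mem_nhds (show (0 : ℝ≥0∞) < ENNReal.ofReal (δ ^ 2) by
      rw [ENNReal.ofReal_pos]; positivity))
    filter_upwards [h5] with Ψ hΨ
    rw [inv_pre, inv_pre, preimage_univ, univ_inter, univ_inter] at hΨ
    exact hΨ
  filter_upwards [h4] with Ψ hΨ
  have h5 : (μ.prod ν).real ((EB Ψ B) ∆ (EB Ψ0 B)) < δ ^ 2 :=
    ENNReal.toReal_lt_of_lt_ofReal hΨ
  have h6 := markov Ψ Ψ0 B hB δ hδ0 h5
  show μ.real {x | ε ≤ dd Φ Ψ B x} < ε
  refine lt_of_le_of_lt (measureReal_mono ?_ : _ ≤ μ.real ({x | ε - δ ≤ dd Φ Ψ0 B x} ∪ {x | δ ≤ dd Ψ Ψ0 B x})) ?_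
  · intro x hx
    have hx' : ε ≤ dd Φ Ψ B x := hx
    by_contra hcon
    rw [mem_union, not_or] at hcon
    have h7 : dd Φ Ψ0 B x < ε - δ := not_le.1 hcon.1
    have h8 : dd Ψ Ψ0 B x < δ := not_le.1 hcon.2
    have h9 := dd_tri Φ Ψ0 Ψ B x
    rw [dd_comm Ψ0 Ψ] at h9
    linarith
  · have := measureReal_union_le (μ := μ) {x | ε - δ ≤ dd Φ Ψ0 B x} {x | δ ≤ dd Ψ Ψ0 B x}
    linarith

end

theorem main : S_Ind := by
  intro X Y _ _ _ _ μ ν _ _ F
  apply le_antisymm
  · exact continuous_iff_le_induced.1 (cont F)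
  · apply le_generateFrom
    rintro _ ⟨Φ, B, ε, hB, hε, rfl⟩
    exact nb_open F Φ B hB ε hε

end Pool.Agent.W744.NG.Ind
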