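import Mathlib
import Pool.Agent.W744.NG.Stubs

set_option autoImplicit false
set_option linter.unusedSectionVars false
set_option linter.unusedVariables false

/-!
Openness of the sets `BE`.
-/

namespace Pool.Agent.W744.NG.Open

open MeasureTheory Set Filter Topology
open scoped ENNReal symmDiff
open Pool.H359R3 Pool.H359R3.IX
open Pool.Agent.W744.NG

section
variable {X Y : Type} [MeasurableSpace X] [StandardBorelSpace X] [MeasurableSpace Y] [StandardBorelSpace Y]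
  {μ : Measure X} {ν : Measure Y} [IsProbabilityMeasure μ] [IsProbabilityMeasure ν]

theorem skA_split (T : AU μ) (Ψ : Coc X ν) :
    skA T Ψ = mulA (skA T (⟨fun _ => oneA, measurable_snd⟩ : Coc X ν)) (skA (oneA : AU μ) Ψ) := by
  apply Subtype.ext
  apply MeasurableEquiv.ext
  funext z
  rfl

theorem skA_cont (hInd : S_Ind) (F : DF (μ.prod ν)) (T : AU μ) :
    @Continuous (Coc X ν) (AU (μ.prod ν)) (tC μ ν) (un F).toTopologicalSpace (fun Ψ => skA T Ψ) := by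
  rw [@continuous_iff_continuousAt _ _ (tC μ ν) (un F).toTopologicalSpace]
  intro Ψ0
  have h1 : @Continuous (Coc X ν) (AU (μ.prod ν)) (tC μ ν) (un F).toTopologicalSpace
      (fun Ψ => skA (oneA : AU μ) Ψ) := by
    rw [hInd X Y μ ν F]
    exact @continuous_induced_dom _ _ _ (un F).toTopologicalSpace
  have h2 := (@continuous_iff_continuousAt _ _ (tC μ ν) (un F).toTopologicalSpace _).1 h1 Ψ0
  have h0 : Tendsto (fun _ : Coc X ν => skA T (⟨fun _ => oneA, measurable_snd⟩ : Coc X ν))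
      (@nhds (Coc X ν) (tC μ ν) Ψ0)
      (@nhds _ (un F).toTopologicalSpace (skA T (⟨fun _ => oneA, measurable_snd⟩ : Coc X ν))) := by
    let _ : TopologicalSpace (AU (μ.prod ν)) := (un F).toTopologicalSpace
    exact tendsto_const_nhds
  have h3 := tend_mul F (@nhds (Coc X ν) (tC μ ν) Ψ0)
    (fun _ => skA T (⟨fun _ => oneA, measurable_snd⟩ : Coc X ν)) (fun Ψ => skA (oneA : AU μ) Ψ)
    (skA T (⟨fun _ => oneA, measurable_snd⟩ : Coc X ν)) (skA (oneA : AU μ) Ψ0) h0 h2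
  have h4 : (fun Ψ => skA T Ψ) = fun Ψ : Coc X ν =>
      mulA (skA T (⟨fun _ => oneA, measurable_snd⟩ : Coc X ν)) (skA (oneA : AU μ) Ψ) :=
    funext fun Ψ => skA_split T Ψ
  show Tendsto (fun Ψ => skA T Ψ) (@nhds (Coc X ν) (tC μ ν) Ψ0) (@nhds _ (un F).toTopologicalSpace (skA T Ψ0))
  rw [h4, skA_split T Ψ0]
  exact h3

/-- the vectors -/
noncomputable def V (T : AU μ) (G : Lp ℂ 2 (μ.prod ν)) (n : ℕ) (Ψ : Coc X ν) : Lp ℂ 2 (μ.prod ν) :=
  Lp.compMeasurePreserving (⇑(powA (skA T Ψ) n).1) (powA (skA T Ψ) n).2 G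

theorem V_cont (hInd : S_Ind) (hKoop : S_Koop) (T : AU μ) (G : Lp ℂ 2 (μ.prod ν)) (n : ℕ) :
    @Continuous (Coc X ν) (Lp ℂ 2 (μ.prod ν)) (tC μ ν) _ (V T G n) := by
  obtain ⟨F⟩ := exists_DF (μ.prod ν)
  have h1 := skA_cont (μ := μ) (ν := ν) hInd F T
  have h2 := cont_pow F n
  have h3 := hKoop (X × Y) (μ.prod ν) F G
  exact @Continuous.comp _ _ _ (tC μ ν) (un F).toTopologicalSpace _ _ _ h3
    (@Continuous.comp _ _ _ (tC μ ν) (un F).toTopologicalSpace (un F).toTopologicalSpace _ _ h2 h1)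

/-- the error vector -/
noncomputable def R (T : AU μ) (G : Lp ℂ 2 (μ.prod ν)) (q : Polynomial ℂ) (M : ℕ) (Ψ : Coc X ν) :
    Lp ℂ 2 (μ.prod ν) :=
  (∑ n ∈ q.support, q.coeff n • V T G n Ψ) - V T G M Ψ

theorem R_cont (hInd : S_Ind) (hKoop : S_Koop) (T : AU μ) (G : Lp ℂ 2 (μ.prod ν)) (q : Polynomial ℂ) (M : ℕ) :
    @Continuous (Coc X ν) (Lp ℂ 2 (μ.prod ν)) (tC μ ν) _ (R T G q M) := by
  let _ : TopologicalSpace (Coc X ν) := tC μ ν
  have h : ∀ n, Continuous (V (ν := ν) T G n) := fun n => V_cont hInd hKoop T G n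
  unfold R
  exact (continuous_finsetSum _ fun n _ => (h n).const_smul (q.coeff n)).sub (h M)

theorem V_ae (T : AU μ) (g : Y → ℂ) (hg : MemLp (fun z : X × Y => g z.2) 2 (μ.prod ν)) (n : ℕ) (Ψ : Coc X ν) :
    (V T (hg.toLp _) n Ψ : X × Y → ℂ) =ᵐ[μ.prod ν] fun z => g (((sk (T.1 : X → X) Ψ)^[n] z).2) := by
  have h1 := Lp.coeFn_compMeasurePreserving (hg.toLp _) (powA (skA T Ψ) n).2
  have h2 := (powA (skA T Ψ) n).2.quasiMeasurePreserving.ae_eq_comp hg.coeFn_toLp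
  refine h1.trans (h2.trans ?_)
  refine Eventually.of_forall fun z => ?_
  show g ((powA (skA T Ψ) n).1 z).2 = _
  rw [powA_apply]
  rfl

theorem R_ae (T : AU μ) (g : Y → ℂ) (hg : MemLp (fun z : X × Y => g z.2) 2 (μ.prod ν)) (q : Polynomial ℂ) (M : ℕ)
    (Ψ : Coc X ν) :
    (R T (hg.toLp _) q M Ψ : X × Y → ℂ) =ᵐ[μ.prod ν] fun z =>
      (∑ n ∈ q.support, q.coeff n * g (((sk (T.1 : X → X) Ψ)^[n] z).2)) - g (((sk (T.1 : X → X) Ψ)^[M] z).2) := by
  have h3 := Lp.coeFn_sub (∑ n ∈ q.support, q.coeff n • V T (hg.toLp _) n Ψ) (V T (hg.toLp _) M Ψ)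
  have h5 := Lp.coeFn_finsetSum q.support (fun n => q.coeff n • V T (hg.toLp _) n Ψ)
  have h6 : ∀ n ∈ q.support, ∀ᵐ z ∂(μ.prod ν), ((q.coeff n • V T (hg.toLp _) n Ψ : Lp ℂ 2 (μ.prod ν)) : X × Y → ℂ) z =
      q.coeff n * g (((sk (T.1 : X → X) Ψ)^[n] z).2) := by
    intro n _
    have h7 := Lp.coeFn_smul (q.coeff n) (V T (hg.toLp _) n Ψ)
    filter_upwards [h7, V_ae T g hg n Ψ] with z hz1 hz2
    rw [hz1, Pi.smul_apply, hz2, smul_eq_mul]
  have h8 := (Filter.eventually_all_finset _).2 h6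
  filter_upwards [h3, h5, h8, V_ae T g hg M Ψ] with z hz1 hz2 hz3 hz4
  show ((R T (hg.toLp _) q M Ψ : Lp ℂ 2 (μ.prod ν)) : X × Y → ℂ) z = _
  unfold R
  rw [hz1, Pi.sub_apply, hz2, Finset.sum_apply, hz4, Finset.sum_congr rfl hz3]

end

theorem main (hInd : S_Ind) (hKoop : S_Koop) : S_Open := by
  intro X Y _ _ _ _ μ ν _ _ T g ε hg
  let _ : TopologicalSpace (Coc X ν) := tC μ ν
  have hgL : MemLp (fun z : X × Y => g z.2) 2 (μ.prod ν) := hg.comp_measurePreserving measurePreserving_snd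
  rcases le_or_gt ε 0 with hε | hε
  · have : BE μ ν T.1 g ε = ∅ := by
      apply Set.eq_empty_of_forall_notMem
      rintro Ψ ⟨q, M, h1, h2⟩
      rw [ENNReal.ofReal_of_nonpos hε] at h2
      exact absurd h2 not_lt_zero
    rw [this]
    exact isOpen_empty
  · have h1 : BE μ ν T.1 g ε = ⋃ p : Polynomial ℂ × ℕ, ⋃ _ : ∑ n ∈ p.1.support, ‖p.1.coeff n‖ ^ 2 < ε,
        (fun Ψ => ‖R (μ := μ) (ν := ν) T (hgL.toLp _) p.1 p.2 Ψ‖) ⁻¹' Iio ε := by
      ext Ψ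
      simp only [mem_iUnion, mem_preimage, mem_Iio, exists_prop]
      have key : ∀ (q : Polynomial ℂ) (M : ℕ), eLpNorm (fun z : X × Y => (∑ n ∈ q.support, q.coeff n *
          g (((sk (T.1 : X → X) Ψ)^[n] z).2)) - g (((sk (T.1 : X → X) Ψ)^[M] z).2)) 2 (μ.prod ν) < ENNReal.ofReal ε ↔
          ‖R (μ := μ) (ν := ν) T (hgL.toLp _) q M Ψ‖ < ε := by
        intro q M
        rw [Lp.norm_def, ← eLpNorm_congr_ae (R_ae T g hgL q M Ψ)]
        exact ENNReal.lt_ofReal_iff_toReal_lt (Lp.eLpNorm_ne_top _)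
      constructor
      · rintro ⟨q, M, h2, h3⟩
        exact ⟨(q, M), h2, (key q M).1 h3⟩
      · rintro ⟨⟨q, M⟩, h2, h3⟩
        exact ⟨q, M, h2, (key q M).2 h3⟩
    rw [h1]
    refine isOpen_iUnion fun p => isOpen_iUnion fun _ => ?_
    exact isOpen_Iio.preimage (continuous_norm.comp (R_cont hInd hKoop T _ p.1 p.2))

end Pool.Agent.W744.NG.Open
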