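import Mathlib
import Pool.Agent.W744.NG.Stubs

set_option autoImplicit false

namespace Pool.Agent.W744.NG.Pol

open Pool.Agent.W744.NG Polynomial

/-- `ℓ¹` norm of the first coefficients -/
noncomputable def n1 (N : ℕ) (p : ℂ[X]) : ℝ := ∑ i ∈ Finset.range N, ‖p.coeff i‖

/-- `ℓ²` norm of the first coefficients -/
noncomputable def n2 (N : ℕ) (p : ℂ[X]) : ℝ :=
  ‖(WithLp.toLp 2 (fun i : Fin N => p.coeff (i : ℕ)) : EuclideanSpace ℂ (Fin N))‖

lemma n2_sq (N : ℕ) (p : ℂ[X]) : n2 N p ^ 2 = ∑ i ∈ Finset.range N, ‖p.coeff i‖ ^ 2 := by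
  unfold n2
  rw [EuclideanSpace.norm_sq_eq, ← Fin.sum_univ_eq_sum_range (fun i => ‖p.coeff i‖ ^ 2) N]

/-- properties shared by the two norms -/
structure Nm (ν : ℂ[X] → ℝ) : Prop where
  nn : ∀ p, 0 ≤ ν p
  add : ∀ p q, ν (p + q) ≤ ν p + ν q
  smul : ∀ (c : ℂ) p, ν (C c * p) ≤ ‖c‖ * ν p
  mX : ∀ p, ν (X * p) ≤ ν p
  neg : ∀ p, ν (-p) ≤ ν p
  zero : ν 0 ≤ 0

lemma nm1 (N : ℕ) : Nm (n1 N) where
  nn p := Finset.sum_nonneg (fun i _ => norm_nonneg _)
  add p q := by
    unfold n1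
    rw [← Finset.sum_add_distrib]
    apply Finset.sum_le_sum
    intro i _
    rw [coeff_add]
    exact norm_add_le _ _
  smul c p := by
    unfold n1
    rw [Finset.mul_sum]
    apply Finset.sum_le_sum
    intro i _
    rw [coeff_C_mul, norm_mul]
  mX p := by
    unfold n1
    cases N with
    | zero => simp
    | succ M =>
      rw [Finset.sum_range_succ', Finset.sum_range_succ]
      simp only [coeff_X_mul, coeff_X_mul_zero, norm_zero, add_zero]
      linarith [norm_nonneg (p.coeff M)]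
  neg p := by
    unfold n1
    simp
  zero := by
    unfold n1
    simp

lemma nm2 (N : ℕ) : Nm (n2 N) where
  nn p := norm_nonneg _
  add p q := by
    unfold n2
    have : (WithLp.toLp 2 (fun i : Fin N => (p + q).coeff (i : ℕ)) : EuclideanSpace ℂ (Fin N)) =
        WithLp.toLp 2 (fun i : Fin N => p.coeff (i : ℕ)) +
        WithLp.toLp 2 (fun i : Fin N => q.coeff (i : ℕ)) := by
      ext i
      simp
    rw [this]
    exact norm_add_le _ _
  smul c p := by
    unfold n2
    have : (WithLp.toLp 2 (fun i : Fin N => (C c * p).coeff (i : ℕ)) : EuclideanSpace ℂ (Fin N)) =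
        c • WithLp.toLp 2 (fun i : Fin N => p.coeff (i : ℕ)) := by
      ext i
      simp
    rw [this, norm_smul]
  mX p := by
    apply le_of_sq_le_sq _ (norm_nonneg _)
    have h1 := n2_sq N (X * p)
    have h2 := n2_sq N p
    show n2 N (X * p) ^ 2 ≤ n2 N p ^ 2
    rw [h1, h2]
    cases N with
    | zero => simp
    | succ M =>
      rw [Finset.sum_range_succ', Finset.sum_range_succ]
      simp only [coeff_X_mul, coeff_X_mul_zero, norm_zero]
      nlinarith [sq_nonneg ‖p.coeff M‖]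
  neg p := by
    unfold n2
    have : (WithLp.toLp 2 (fun i : Fin N => (-p).coeff (i : ℕ)) : EuclideanSpace ℂ (Fin N)) =
        -WithLp.toLp 2 (fun i : Fin N => p.coeff (i : ℕ)) := by
      ext i
      simp
    rw [this, norm_neg]
  zero := by
    unfold n2
    have : (WithLp.toLp 2 (fun i : Fin N => (0 : ℂ[X]).coeff (i : ℕ)) :
        EuclideanSpace ℂ (Fin N)) = 0 := by
      ext i
      simp
    rw [this, norm_zero]

/-- the average of `X^(l a)`, `l < L` -/
noncomputable def avg (L a : ℕ) : ℂ[X] := ∑ l ∈ Finset.range L, C ((L : ℂ)⁻¹) * X ^ (l * a)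

lemma Nm.Xpow {ν : ℂ[X] → ℝ} (h : Nm ν) (k : ℕ) (p : ℂ[X]) : ν (X ^ k * p) ≤ ν p := by
  induction k with
  | zero => simp
  | succ k ih =>
    rw [pow_succ', mul_assoc]
    exact (h.mX _).trans ih

lemma Nm.sum {ν : ℂ[X] → ℝ} (h : Nm ν) (s : Finset ℕ) (f : ℕ → ℂ[X]) :
    ν (∑ l ∈ s, f l) ≤ ∑ l ∈ s, ν (f l) := by
  classical
  induction s using Finset.induction_on with
  | empty => simpa using h.zero
  | insert a s ha ih =>
    rw [Finset.sum_insert ha, Finset.sum_insert ha]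
    exact (h.add _ _).trans (by linarith)

lemma Nm.avg {ν : ℂ[X] → ℝ} (h : Nm ν) {L : ℕ} (hL : 0 < L) (a : ℕ) (p : ℂ[X]) :
    ν (avg L a * p) ≤ ν p := by
  unfold Pol.avg
  rw [Finset.sum_mul]
  refine (h.sum _ _).trans ?_
  have h1 : ∀ l ∈ Finset.range L, ν (C ((L : ℂ)⁻¹) * X ^ (l * a) * p) ≤ (L : ℝ)⁻¹ * ν p := by
    intro l _
    rw [mul_assoc]
    refine (h.smul _ _).trans ?_
    rw [norm_inv, Complex.norm_natCast]
    exact mul_le_mul_of_nonneg_left (h.Xpow _ _) (by positivity)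
  refine (Finset.sum_le_sum h1).trans (le_of_eq ?_)
  rw [Finset.sum_const, Finset.card_range, nsmul_eq_mul]
  have : (L : ℝ) ≠ 0 := by positivity
  field_simp

lemma n1_one (N : ℕ) : n1 N 1 ≤ 1 := by
  unfold n1
  cases N with
  | zero => simp
  | succ M =>
    rw [Finset.sum_range_succ']
    simp [coeff_one]

lemma n1_avg (N : ℕ) {L : ℕ} (hL : 0 < L) (a : ℕ) : n1 N (avg L a) ≤ 1 := by
  have := (nm1 N).avg hL a 1
  rw [mul_one] at this
  exact this.trans (n1_one N)

lemma coeff_avg {L a : ℕ} (hL : 0 < L) (ha : 0 < a) (i : ℕ) : ‖(avg L a).coeff i‖ ≤ (L : ℝ)⁻¹ := by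
  unfold avg
  rw [finsetSum_coeff]
  have h1 : ∀ l ∈ Finset.range L, (C ((L : ℂ)⁻¹) * X ^ (l * a) : ℂ[X]).coeff i =
      if i = l * a then (L : ℂ)⁻¹ else 0 := by
    intro l _
    rw [coeff_C_mul, coeff_X_pow]
    split_ifs <;> simp
  rw [Finset.sum_congr rfl h1]
  by_cases h : ∃ l ∈ Finset.range L, i = l * a
  · obtain ⟨l, hl, hi⟩ := h
    rw [Finset.sum_eq_single l]
    · rw [if_pos hi, norm_inv, Complex.norm_natCast]
    · intro l' _ hne
      rw [if_neg]
      intro h2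
      exact hne (Nat.eq_of_mul_eq_mul_right ha (by rw [← h2, hi]))
    · intro h2
      exact absurd hl h2
  · push Not at h
    rw [Finset.sum_eq_zero]
    · rw [norm_zero]; positivity
    · intro l hl
      rw [if_neg (h l hl)]

lemma n2_avg (N : ℕ) {L a : ℕ} (hL : 0 < L) (ha : 0 < a) :
    n2 N (avg L a) ≤ 1 / Real.sqrt L := by
  have hL' : (0 : ℝ) < L := by exact_mod_cast hL
  apply le_of_sq_le_sq _ (by positivity)
  rw [n2_sq, div_pow, one_pow, Real.sq_sqrt hL'.le]
  calc ∑ i ∈ Finset.range N, ‖(avg L a).coeff i‖ ^ 2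
      ≤ ∑ i ∈ Finset.range N, (L : ℝ)⁻¹ * ‖(avg L a).coeff i‖ := by
        apply Finset.sum_le_sum
        intro i _
        rw [sq]
        exact mul_le_mul_of_nonneg_right (coeff_avg hL ha i) (norm_nonneg _)
    _ = (L : ℝ)⁻¹ * n1 N (avg L a) := by rw [← Finset.mul_sum]; rfl
    _ ≤ (L : ℝ)⁻¹ * 1 := mul_le_mul_of_nonneg_left (n1_avg N hL a) (by positivity)
    _ = 1 / L := by ring

lemma natDegree_avg (L a : ℕ) : (avg L a).natDegree ≤ L * a := by
  unfold avg
  apply natDegree_sum_le_of_forall_le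
  intro l hl
  refine (natDegree_C_mul_X_pow_le _ _).trans ?_
  exact Nat.mul_le_mul_right a (Finset.mem_range.1 hl).le

section op
variable {E : Type} [NormedAddCommGroup E] [InnerProductSpace ℂ E] (U : E ≃ₗᵢ[ℂ] E)

/-- as an endomorphism -/
noncomputable def ul : E →ₗ[ℂ] E := U.toLinearEquiv.toLinearMap

lemma ul_pow (k : ℕ) (x : E) : (ul U ^ k) x = (⇑U)^[k] x := by
  induction k with
  | zero => rfl
  | succ k ih =>
    rw [pow_succ', Module.End.mul_apply, ih, Function.iterate_succ_apply']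
    rfl

lemma it_norm (k : ℕ) (x : E) : ‖(ul U ^ k) x‖ = ‖x‖ := by
  induction k with
  | zero => rfl
  | succ k ih =>
    rw [pow_succ', Module.End.mul_apply]
    show ‖U ((ul U ^ k) x)‖ = ‖x‖
    rw [U.norm_map, ih]

lemma it_inner (k : ℕ) (x y : E) : inner ℂ ((ul U ^ k) x) ((ul U ^ k) y) = inner ℂ x y := by
  induction k with
  | zero => rfl
  | succ k ih =>
    rw [pow_succ', Module.End.mul_apply, Module.End.mul_apply]
    show inner ℂ (U ((ul U ^ k) x)) (U ((ul U ^ k) y)) = inner ℂ x y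
    rw [U.inner_map_map, ih]

lemma aeval_avg (L a : ℕ) (x : E) :
    aeval (ul U) (avg L a) x = (L : ℂ)⁻¹ • ∑ l ∈ Finset.range L, (ul U ^ (l * a)) x := by
  unfold avg
  rw [map_sum, LinearMap.sum_apply, Finset.smul_sum]
  apply Finset.sum_congr rfl
  intro l _
  rw [map_mul, aeval_C, map_pow, aeval_X, Module.End.mul_apply]
  rfl

lemma avg_le {L : ℕ} (hL : 0 < L) (a : ℕ) (x : E) : ‖aeval (ul U) (avg L a) x‖ ≤ ‖x‖ := by
  have hL' : (L : ℝ) ≠ 0 := by positivity
  rw [aeval_avg, norm_smul, norm_inv, Complex.norm_natCast]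
  have h2 : ‖∑ l ∈ Finset.range L, (ul U ^ (l * a)) x‖ ≤ L * ‖x‖ := by
    refine (norm_sum_le _ _).trans ?_
    refine (Finset.sum_le_sum (fun l _ => (it_norm U (l * a) x).le)).trans (le_of_eq ?_)
    rw [Finset.sum_const, Finset.card_range, nsmul_eq_mul]
  calc (L : ℝ)⁻¹ * _ ≤ (L : ℝ)⁻¹ * (L * ‖x‖) := mul_le_mul_of_nonneg_left h2 (by positivity)
    _ = ‖x‖ := by field_simp

/-- the factor -/
noncomputable def bb (L a : ℕ) : ℂ[X] := X ^ ((L - 1) * a) - avg L a * avg L a

lemma aeval_bb (L a : ℕ) (x : E) : aeval (ul U) (bb L a) x =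
    (ul U ^ ((L - 1) * a)) x - aeval (ul U) (avg L a) (aeval (ul U) (avg L a) x) := by
  unfold bb
  rw [map_sub, LinearMap.sub_apply, map_pow, aeval_X, map_mul, Module.End.mul_apply]

lemma bb_contr {L : ℕ} (hL : 0 < L) (a : ℕ) (x : E) : ‖aeval (ul U) (bb L a) x‖ ≤ ‖x‖ := by
  rw [aeval_bb]
  set y := aeval (ul U) (avg L a) x with hy
  have h1 : inner ℂ ((ul U ^ ((L - 1) * a)) x) (aeval (ul U) (avg L a) y) = inner ℂ y y := by
    rw [aeval_avg U L a y, inner_smul_right, inner_sum]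
    have h2 : ∀ l ∈ Finset.range L, inner ℂ ((ul U ^ ((L - 1) * a)) x) ((ul U ^ (l * a)) y) =
        inner ℂ ((ul U ^ ((L - 1 - l) * a)) x) y := by
      intro l hl
      have h3 : (L - 1) * a = l * a + (L - 1 - l) * a := by
        rw [← add_mul]
        congr 1
        have := Finset.mem_range.1 hl
        omega
      rw [h3, pow_add, Module.End.mul_apply, it_inner]
    rw [Finset.sum_congr rfl h2, Finset.sum_range_reflect (fun l => inner ℂ ((ul U ^ (l * a)) x) y) L]
    have h3 : y = (L : ℂ)⁻¹ • ∑ l ∈ Finset.range L, (ul U ^ (l * a)) x := aeval_avg U L a x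
    calc (L : ℂ)⁻¹ * ∑ l ∈ Finset.range L, inner ℂ ((ul U ^ (l * a)) x) y
        = inner ℂ ((L : ℂ)⁻¹ • ∑ l ∈ Finset.range L, (ul U ^ (l * a)) x) y := by
          rw [inner_smul_left, sum_inner, map_inv₀, Complex.conj_natCast]
      _ = inner ℂ y y := by rw [← h3]
  have h2 : ‖aeval (ul U) (avg L a) y‖ ≤ ‖y‖ := avg_le U hL a y
  have h3 := norm_sub_sq (𝕜 := ℂ) ((ul U ^ ((L - 1) * a)) x) (aeval (ul U) (avg L a) y)
  rw [h1, it_norm, inner_self_eq_norm_sq] at h3
  have h4 : ‖(ul U ^ ((L - 1) * a)) x - aeval (ul U) (avg L a) y‖ ^ 2 ≤ ‖x‖ ^ 2 := by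
    have h5 : ‖aeval (ul U) (avg L a) y‖ ^ 2 ≤ ‖y‖ ^ 2 := pow_le_pow_left₀ (norm_nonneg _) h2 2
    have h6 := sq_nonneg ‖y‖
    linarith
  exact le_of_sq_le_sq h4 (norm_nonneg _)

lemma close_aux (a : ℕ) (x : E) (δ : ℝ) (h : ‖(ul U ^ a) x - x‖ ≤ δ) (k : ℕ) :
    ‖(ul U ^ (k * a)) x - x‖ ≤ k * δ := by
  induction k with
  | zero => simp
  | succ l ih =>
    have e : (ul U ^ ((l + 1) * a)) x - x = (ul U ^ a) ((ul U ^ (l * a)) x - x) + ((ul U ^ a) x - x) := by
      rw [map_sub, add_mul, one_mul, add_comm (l * a) a, pow_add, Module.End.mul_apply]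
      abel
    rw [e]
    refine (norm_add_le _ _).trans ?_
    have h2 := (it_norm U a ((ul U ^ (l * a)) x - x)).le
    push_cast
    linarith

lemma close_two (a : ℕ) (x : E) (δ : ℝ) (hδ : 0 ≤ δ) (h : ‖(ul U ^ a) x - x‖ ≤ δ) (L k k' : ℕ) (hk : k ≤ L)
    (hk' : k' ≤ L) : ‖(ul U ^ (k * a)) x - (ul U ^ (k' * a)) x‖ ≤ L * δ := by
  have key : ∀ k k' : ℕ, k' ≤ k → k ≤ L → ‖(ul U ^ (k * a)) x - (ul U ^ (k' * a)) x‖ ≤ L * δ := by
    intro k k' h1 h2
    have e : (ul U ^ (k * a)) x - (ul U ^ (k' * a)) x = (ul U ^ (k' * a)) ((ul U ^ ((k - k') * a)) x - x) := by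
      rw [map_sub, ← Module.End.mul_apply, ← pow_add, ← add_mul]
      congr 4
      omega
    rw [e, it_norm]
    refine (close_aux U a x δ h (k - k')).trans ?_
    apply mul_le_mul_of_nonneg_right _ hδ
    have : k - k' ≤ L := (Nat.sub_le _ _).trans h2
    exact_mod_cast this
  rcases le_total k' k with h1 | h1
  · exact key k k' h1 hk
  · rw [norm_sub_rev]
    exact key k' k h1 hk'

lemma bb_small {L : ℕ} (hL : 0 < L) (a : ℕ) (x : E) (δ : ℝ) (h : ‖(ul U ^ a) x - x‖ ≤ δ) :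
    ‖aeval (ul U) (bb L a) x‖ ≤ L * δ := by
  have hL' : (L : ℝ) ≠ 0 := by positivity
  have hL'' : (L : ℂ) ≠ 0 := by exact_mod_cast hL.ne'
  have hδ : 0 ≤ δ := (norm_nonneg _).trans h
  have havg : ∀ (z : E) (g : ℕ → E) (c : ℝ), (∀ l ∈ Finset.range L, ‖z - g l‖ ≤ c) →
      ‖z - (L : ℂ)⁻¹ • ∑ l ∈ Finset.range L, g l‖ ≤ c := by
    intro z g c hg
    have e : z - (L : ℂ)⁻¹ • ∑ l ∈ Finset.range L, g l = (L : ℂ)⁻¹ • ∑ l ∈ Finset.range L, (z - g l) := by
      rw [Finset.sum_sub_distrib, Finset.sum_const, Finset.card_range, smul_sub,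
        ← Nat.cast_smul_eq_nsmul ℂ, smul_smul, inv_mul_cancel₀ hL'', one_smul]
    rw [e, norm_smul, norm_inv, Complex.norm_natCast]
    have h2 : ‖∑ l ∈ Finset.range L, (z - g l)‖ ≤ L * c := by
      refine (norm_sum_le _ _).trans ?_
      refine (Finset.sum_le_sum hg).trans (le_of_eq ?_)
      rw [Finset.sum_const, Finset.card_range, nsmul_eq_mul]
    calc (L : ℝ)⁻¹ * _ ≤ (L : ℝ)⁻¹ * (L * c) := mul_le_mul_of_nonneg_left h2 (by positivity)
      _ = c := by field_simp
  rw [aeval_bb, aeval_avg U L a (aeval (ul U) (avg L a) x)]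
  apply havg
  intro l hl
  have hl' := Finset.mem_range.1 hl
  have h3 : (ul U ^ ((L - 1) * a)) x = (ul U ^ (l * a)) ((ul U ^ ((L - 1 - l) * a)) x) := by
    rw [← Module.End.mul_apply, ← pow_add, ← add_mul]
    congr 3
    omega
  rw [h3, ← map_sub, it_norm, aeval_avg]
  apply havg
  intro l' hl2
  exact close_two U a x δ hδ h L _ _ (by omega) (Finset.mem_range.1 hl2).le

end op

lemma pol_aux (L : ℕ) (hL : 0 < L) : ∀ (d : ℕ) (a : Fin d → ℕ), (∀ i, 0 < a i) →
    ∃ (q : ℂ[X]) (M : ℕ), (∀ N, n1 N q ≤ 2 ^ d - 1) ∧ (∀ N, n2 N q ≤ (2 ^ d - 1) * (1 / Real.sqrt L)) ∧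
      natDegree q ≤ 2 * L * ∑ i, a i ∧ M ≤ L * ∑ i, a i ∧
      ∀ (E : Type) [NormedAddCommGroup E] [InnerProductSpace ℂ E] (U : E ≃ₗᵢ[ℂ] E),
        (∀ x, ‖aeval (ul U) (X ^ M - q) x‖ ≤ ‖x‖) ∧
        ∀ (i : Fin d) (x : E) (δ : ℝ), ‖(ul U ^ a i) x - x‖ ≤ δ →
          ‖aeval (ul U) (X ^ M - q) x‖ ≤ L * δ := by
  intro d
  induction d with
  | zero =>
    intro a _
    refine ⟨0, 0, ?_, ?_, ?_, ?_, ?_⟩
    · intro N
      simpa using (nm1 N).zero
    · intro N
      simpa using (nm2 N).zero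
    · simp
    · simp
    · intro E _ _ U
      refine ⟨fun x => by simp, fun i => i.elim0⟩
  | succ d ih =>
    intro a ha
    obtain ⟨q, M, h1, h2, h3, h3', h4⟩ := ih (fun i => a i.castSucc) (fun i => ha _)
    set b : ℂ[X] := avg L (a (Fin.last d)) with hb
    set c : ℕ := (L - 1) * a (Fin.last d) with hc
    have hcL : c ≤ L * a (Fin.last d) := Nat.mul_le_mul_right _ (Nat.sub_le _ _)
    have hone : X ^ (M + c) - (X ^ M * (b * (b * 1)) + X ^ c * q - b * (b * q)) =
        (X ^ c - b * b) * (X ^ M - q) := by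
      rw [pow_add]
      ring
    refine ⟨X ^ M * (b * (b * 1)) + X ^ c * q - b * (b * q), M + c, ?_, ?_, ?_, ?_, ?_⟩
    · intro N
      have e1 := (nm1 N).add (X ^ M * (b * (b * 1)) + X ^ c * q) (-(b * (b * q)))
      have e2 := (nm1 N).neg (b * (b * q))
      have e3 := ((nm1 N).avg hL (a (Fin.last d)) (b * q)).trans ((nm1 N).avg hL (a (Fin.last d)) q)
      have e4 := (nm1 N).add (X ^ M * (b * (b * 1))) (X ^ c * q)
      have e5 := (((nm1 N).Xpow M (b * (b * 1))).trans ((nm1 N).avg hL (a (Fin.last d)) (b * 1))).trans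
        ((nm1 N).avg hL (a (Fin.last d)) 1)
      have e6 := h1 N
      have e7 := (nm1 N).Xpow c q
      have e8 := n1_one N
      rw [sub_eq_add_neg, pow_succ]
      linarith
    · intro N
      have e1 := (nm2 N).add (X ^ M * (b * (b * 1)) + X ^ c * q) (-(b * (b * q)))
      have e2 := (nm2 N).neg (b * (b * q))
      have e3 := ((nm2 N).avg hL (a (Fin.last d)) (b * q)).trans ((nm2 N).avg hL (a (Fin.last d)) q)
      have e4 := (nm2 N).add (X ^ M * (b * (b * 1))) (X ^ c * q)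
      have e5 := ((nm2 N).Xpow M (b * (b * 1))).trans ((nm2 N).avg hL (a (Fin.last d)) (b * 1))
      rw [mul_one] at e5
      have e5' := n2_avg N hL (ha (Fin.last d))
      have e6 := h2 N
      have e7 := (nm2 N).Xpow c q
      rw [mul_one] at e4 e1 ⊢
      rw [sub_eq_add_neg, pow_succ]
      linarith
    · rw [Fin.sum_univ_castSucc, mul_add]
      have d1 := natDegree_avg L (a (Fin.last d))
      have d2 : natDegree (b * b) ≤ 2 * L * a (Fin.last d) := by
        refine natDegree_mul_le.trans ?_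
        have : natDegree b ≤ L * a (Fin.last d) := d1
        nlinarith
      rw [mul_one, ← mul_assoc b b q]
      refine (natDegree_sub_le _ _).trans (max_le ((natDegree_add_le _ _).trans (max_le ?_ ?_)) ?_)
      · refine natDegree_mul_le.trans ?_
        rw [natDegree_X_pow]
        have : L * ∑ i, a (Fin.castSucc i) ≤ 2 * L * ∑ i, a (Fin.castSucc i) := by
          apply Nat.mul_le_mul_right
          omega
        omega
      · refine natDegree_mul_le.trans ?_
        rw [natDegree_X_pow]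
        have : L * a (Fin.last d) ≤ 2 * L * a (Fin.last d) := by
          apply Nat.mul_le_mul_right
          omega
        omega
      · refine natDegree_mul_le.trans ?_
        omega
    · rw [Fin.sum_univ_castSucc, mul_add]
      omega
    · intro E _ _ U
      obtain ⟨h5, h6⟩ := h4 E U
      have hbb : X ^ c - b * b = bb L (a (Fin.last d)) := rfl
      constructor
      · intro x
        rw [hone, hbb, map_mul, Module.End.mul_apply]
        exact (bb_contr U hL _ _).trans (h5 x)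
      · intro i x δ hx
        refine Fin.lastCases ?_ (fun j => ?_) i (motive := fun i => ‖(ul U ^ a i) x - x‖ ≤ δ →
          ‖aeval (ul U) (X ^ (M + c) - (X ^ M * (b * (b * 1)) + X ^ c * q - b * (b * q))) x‖ ≤ L * δ) hx
        · intro hx
          rw [hone, hbb, mul_comm, map_mul, Module.End.mul_apply]
          exact (h5 _).trans (bb_small U hL _ x δ hx)
        · intro hx
          rw [hone, hbb, map_mul, Module.End.mul_apply]
          exact (bb_contr U hL _ _).trans (h6 j x δ hx)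

theorem pol : S_Pol := by
  intro d L a hL ha
  obtain ⟨q, M, h1, h2, h3, h3', h4⟩ := pol_aux L hL d a ha
  have hL' : (0 : ℝ) < L := by exact_mod_cast hL
  have hsub : q.support ⊆ Finset.range (q.natDegree + 1) := by
    intro n hn
    exact Finset.mem_range.2 (Nat.lt_succ_of_le (le_natDegree_of_mem_supp n hn))
  have hone : (1 : ℝ) ≤ 2 ^ d := one_le_pow₀ (by norm_num)
  refine ⟨q, M, ?_, ?_, h3, h3', ?_⟩
  · have e : ∑ n ∈ q.support, ‖q.coeff n‖ = n1 (q.natDegree + 1) q := by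
      unfold n1
      apply Finset.sum_subset hsub
      intro n _ hn
      rw [notMem_support_iff.1 hn, norm_zero]
    rw [e]
    linarith [h1 (q.natDegree + 1)]
  · have e : ∑ n ∈ q.support, ‖q.coeff n‖ ^ 2 = n2 (q.natDegree + 1) q ^ 2 := by
      rw [n2_sq]
      apply Finset.sum_subset hsub
      intro n _ hn
      rw [notMem_support_iff.1 hn, norm_zero]
      norm_num
    rw [e]
    have h5 := h2 (q.natDegree + 1)
    have h6 : n2 (q.natDegree + 1) q ≤ 2 ^ d * (1 / Real.sqrt L) := by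
      refine h5.trans (mul_le_mul_of_nonneg_right (by linarith) (by positivity))
    calc n2 (q.natDegree + 1) q ^ 2 ≤ (2 ^ d * (1 / Real.sqrt L)) ^ 2 :=
          pow_le_pow_left₀ ((nm2 _).nn q) h6 2
      _ = 4 ^ d / L := by
          rw [mul_pow, div_pow, one_pow, Real.sq_sqrt hL'.le, ← pow_mul, mul_comm d 2, pow_mul]
          norm_num
          ring
  · intro E _ _ U
    obtain ⟨h5, h6⟩ := h4 E U
    have key : ∀ x : E, (∑ n ∈ q.support, q.coeff n • (⇑U)^[n] x) - (⇑U)^[M] x =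
        -aeval (ul U) (X ^ M - q) x := by
      intro x
      have e1 : ∑ n ∈ q.support, q.coeff n • (⇑U)^[n] x = aeval (ul U) q x := by
        rw [aeval_endomorphism]
        apply Finset.sum_congr rfl
        intro n _
        show q.coeff n • (⇑U)^[n] x = q.coeff n • (ul U ^ n) x
        rw [ul_pow]
      rw [e1, map_sub, LinearMap.sub_apply, map_pow, aeval_X, ul_pow]
      abel
    refine ⟨fun x => ?_, fun f δ hf => ?_⟩
    · rw [key, norm_neg]
      exact h5 x
    · rw [key, norm_neg, map_sum]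
      refine (norm_sum_le _ _).trans ?_
      refine (Finset.sum_le_sum (fun i _ => h6 i (f i) δ (by rw [ul_pow]; exact hf i))).trans (le_of_eq ?_)
      rw [Finset.sum_const, Finset.card_univ, Fintype.card_fin, nsmul_eq_mul]
      ring

end Pool.Agent.W744.NG.Pol
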