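import Mathlib
import Pool.Agent.W744.NG.Stubs

set_option autoImplicit false

namespace Pool.Agent.W744.NG.Sing

open Pool.Agent.W744.NG MeasureTheory Filter Topology
open scoped ENNReal ComplexConjugate

/-- expansion of the square norm of a combination -/
lemma quad {Z : Type*} [MeasurableSpace Z] (μ : Measure Z) (N : ℕ) (b : ℕ → ℂ) (u : ℕ → Z → ℂ)
    (hu : ∀ n, MemLp (u n) 2 μ) :
    ((∫ z, ‖∑ n ∈ Finset.range N, b n * u n z‖ ^ 2 ∂μ : ℝ) : ℂ) =
      ∑ n ∈ Finset.range N, ∑ k ∈ Finset.range N, b n * conj (b k) *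
        ∫ z, u n z * conj (u k z) ∂μ := by
  have hint : ∀ n k, Integrable (fun z => u n z * conj (u k z)) μ := by
    intro n k
    have h1 : MemLp (fun z => conj (u k z)) 2 μ := (hu k).star
    exact (hu n).integrable_mul h1
  rw [← integral_complex_ofReal]
  have h1 : ∀ z, ((‖∑ n ∈ Finset.range N, b n * u n z‖ ^ 2 : ℝ) : ℂ) =
      ∑ n ∈ Finset.range N, ∑ k ∈ Finset.range N, b n * conj (b k) * (u n z * conj (u k z)) := by
    intro z
    push_cast
    rw [← Complex.mul_conj', map_sum, Finset.sum_mul_sum]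
    apply Finset.sum_congr rfl
    intro n _
    apply Finset.sum_congr rfl
    intro k _
    rw [map_mul]
    ring
  rw [integral_congr_ae (Eventually.of_forall h1), integral_finsetSum]
  · apply Finset.sum_congr rfl
    intro n _
    rw [integral_finsetSum]
    · apply Finset.sum_congr rfl
      intro k _
      rw [integral_const_mul]
    · intro k _
      exact (hint n k).const_mul _
  · intro n _
    apply integrable_finsetSum
    intro k _
    exact (hint n k).const_mul _

lemma memLp_fourier (σ : Measure UnitAddCircle) [IsFiniteMeasure σ] (n : ℕ) :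
    MemLp (fun θ : UnitAddCircle => fourier (n : ℤ) θ) 2 σ := by
  apply MemLp.of_bound (C := 1)
  · exact (map_continuous (fourier (n : ℤ))).aestronglyMeasurable
  · apply Eventually.of_forall
    intro θ
    rw [fourier_apply]
    exact (Circle.norm_coe _).le

/-- the correlations of the iterates -/
lemma spec_cor {Z : Type} [MeasurableSpace Z] (m : Measure Z) [IsProbabilityMeasure m] (S : Z → Z)
    (f : Z → ℂ) (hS : MeasurePreserving S m m) (hf : MemLp f 2 m) (σ : Measure UnitAddCircle)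
    (h : IsSpec m S f σ) (n k : ℕ) :
    ∫ z, f (S^[n] z) * conj (f (S^[k] z)) ∂m = ∫ θ, fourier (n : ℤ) θ * conj (fourier (k : ℤ) θ) ∂σ := by
  have hSf : ∀ n, MemLp (fun z => f (S^[n] z)) 2 m := fun n =>
    hf.comp_measurePreserving (hS.iterate n)
  have key : ∀ n k : ℕ, k ≤ n →
      ∫ z, f (S^[n] z) * conj (f (S^[k] z)) ∂m =
        ∫ θ, fourier (n : ℤ) θ * conj (fourier (k : ℤ) θ) ∂σ := by
    intro n k hkn
    have h1 : ∫ z, f (S^[n] z) * conj (f (S^[k] z)) ∂m =
        ∫ z, f (S^[n - k] z) * conj (f z) ∂m := by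
      have h2 : ∀ z, f (S^[n] z) * conj (f (S^[k] z)) =
          (fun w => f (S^[n - k] w) * conj (f w)) (S^[k] z) := by
        intro z
        simp only []
        rw [← Function.iterate_add_apply, Nat.sub_add_cancel hkn]
      rw [integral_congr_ae (Eventually.of_forall h2)]
      have h3 := integral_map (hS.iterate k).measurable.aemeasurable
        (f := fun w => f (S^[n - k] w) * conj (f w)) (by
          rw [(hS.iterate k).map_eq]
          exact (hSf (n - k)).1.mul (Complex.continuous_conj.comp_aestronglyMeasurable hf.1))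
      rw [(hS.iterate k).map_eq] at h3
      exact h3.symm
    rw [h1, ← h.2 (n - k)]
    apply integral_congr_ae
    apply Eventually.of_forall
    intro θ
    simp only []
    rw [← fourier_neg, ← fourier_add]
    congr 1
    push_cast [hkn]
    ring
  rcases le_total k n with hkn | hkn
  · exact key n k hkn
  · have h1 := key k n hkn
    have h2 : ∫ z, f (S^[n] z) * conj (f (S^[k] z)) ∂m =
        conj (∫ z, f (S^[k] z) * conj (f (S^[n] z)) ∂m) := by
      rw [← integral_conj]
      apply integral_congr_ae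
      apply Eventually.of_forall
      intro z
      simp only [map_mul, Complex.conj_conj]
      ring
    rw [h2, h1, ← integral_conj]
    apply integral_congr_ae
    apply Eventually.of_forall
    intro z
    simp only [map_mul, Complex.conj_conj]
    ring

lemma sum_sub_M {Z : Type*} (q : Polynomial ℂ) (M : ℕ) (u : ℕ → Z → ℂ) (z : Z) :
    (∑ n ∈ q.support, q.coeff n * u n z) - u M z =
      ∑ n ∈ Finset.range (q.natDegree + M + 1), (q - Polynomial.X ^ M).coeff n * u n z := by
  have hsub : q.support ⊆ Finset.range (q.natDegree + M + 1) := by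
    intro n hn
    have := Polynomial.le_natDegree_of_mem_supp n hn
    exact Finset.mem_range.2 (by omega)
  have h1 : ∑ n ∈ q.support, q.coeff n * u n z =
      ∑ n ∈ Finset.range (q.natDegree + M + 1), q.coeff n * u n z := by
    apply Finset.sum_subset hsub
    intro n _ hn
    rw [Polynomial.notMem_support_iff.1 hn, zero_mul]
  have h2 : u M z = ∑ n ∈ Finset.range (q.natDegree + M + 1), (Polynomial.X ^ M : Polynomial ℂ).coeff n * u n z := by
    rw [Finset.sum_eq_single M]
    · simp
    · intro n _ hn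
      rw [Polynomial.coeff_X_pow, if_neg hn, zero_mul]
    · intro h
      exact absurd (Finset.mem_range.2 (by omega)) h
  conv_lhs => rw [h1, h2]
  rw [← Finset.sum_sub_distrib]
  apply Finset.sum_congr rfl
  intro n _
  rw [Polynomial.coeff_sub, sub_mul]

/-- integral of the square of a polynomial on the circle -/
lemma sq_circle (q : Polynomial ℂ) :
    ∫ θ : UnitAddCircle, ‖∑ n ∈ Finset.range (q.natDegree + 1), q.coeff n * fourier (n : ℤ) θ‖ ^ 2 =
      ∑ n ∈ q.support, ‖q.coeff n‖ ^ 2 := by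
  have h1 := quad (volume : Measure UnitAddCircle) (q.natDegree + 1) (fun n => q.coeff n)
    (fun n θ => fourier (n : ℤ) θ) (fun n => memLp_fourier _ n)
  have hvol : (volume : Measure UnitAddCircle) = AddCircle.haarAddCircle := by
    rw [AddCircle.volume_eq_smul_haarAddCircle]
    simp
  have h2 : ∀ n k : ℕ, ∫ θ : UnitAddCircle, fourier (n : ℤ) θ * conj (fourier (k : ℤ) θ) =
      if n = k then 1 else 0 := by
    intro n k
    have h3 := orthonormal_iff_ite.1 (orthonormal_fourier (T := (1 : ℝ))) (k : ℤ) (n : ℤ)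
    rw [ContinuousMap.inner_toLp] at h3
    rw [hvol]
    have h4 : ((k : ℤ) = (n : ℤ)) ↔ n = k := by
      constructor
      · intro h; exact_mod_cast h.symm
      · intro h; rw [h]
    simp only [h4] at h3
    rw [← h3]
  have h5 : ((∑ n ∈ q.support, ‖q.coeff n‖ ^ 2 : ℝ) : ℂ) =
      ∑ n ∈ Finset.range (q.natDegree + 1), ∑ k ∈ Finset.range (q.natDegree + 1),
        q.coeff n * conj (q.coeff k) * ∫ θ : UnitAddCircle,
          fourier (n : ℤ) θ * conj (fourier (k : ℤ) θ) := by
    have hsub : q.support ⊆ Finset.range (q.natDegree + 1) := by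
      intro n hn
      exact Finset.mem_range.2 (Nat.lt_succ_of_le (Polynomial.le_natDegree_of_mem_supp n hn))
    rw [Finset.sum_subset hsub (fun n _ hn => by
      rw [Polynomial.notMem_support_iff.1 hn]; simp)]
    push_cast
    apply Finset.sum_congr rfl
    intro n hn
    rw [Finset.sum_eq_single n]
    · rw [h2, if_pos rfl, mul_one, Complex.mul_conj']
    · intro k _ hk
      rw [h2, if_neg hk.symm, mul_zero]
    · intro h
      exact absurd hn h
  rw [← h5] at h1
  exact_mod_cast h1

theorem sing : S_Sing := by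
  intro Z _ m _ S f hS hf hq σ hσ hac
  have hfin : IsFiniteMeasure σ := hσ.1
  have hSf : ∀ n, MemLp (fun z => f (S^[n] z)) 2 m := fun n =>
    hf.comp_measurePreserving (hS.iterate n)
  -- the key identity
  have key : ∀ (q : Polynomial ℂ) (M : ℕ),
      ∫ θ, ‖(∑ n ∈ q.support, q.coeff n * fourier (n : ℤ) θ) - fourier ((M : ℕ) : ℤ) θ‖ ^ 2 ∂σ =
      ∫ z, ‖(∑ n ∈ q.support, q.coeff n * f (S^[n] z)) - f (S^[M] z)‖ ^ 2 ∂m := by
    intro q M
    have h1 := quad σ (q.natDegree + M + 1) (fun n => (q - Polynomial.X ^ M).coeff n)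
      (fun n θ => fourier (n : ℤ) θ) (fun n => memLp_fourier _ n)
    have h2 := quad m (q.natDegree + M + 1) (fun n => (q - Polynomial.X ^ M).coeff n)
      (fun n z => f (S^[n] z)) hSf
    have h3 : ((∫ θ, ‖∑ n ∈ Finset.range (q.natDegree + M + 1), (q - Polynomial.X ^ M).coeff n *
        (fourier (n : ℤ) θ : ℂ)‖ ^ 2 ∂σ : ℝ) : ℂ) = ((∫ z, ‖∑ n ∈ Finset.range (q.natDegree + M + 1),
        (q - Polynomial.X ^ M).coeff n * f (S^[n] z)‖ ^ 2 ∂m : ℝ) : ℂ) := by
      rw [h1, h2]
      apply Finset.sum_congr rfl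
      intro n _
      apply Finset.sum_congr rfl
      intro k _
      rw [spec_cor m S f hS hf σ hσ n k]
    have h4 := Complex.ofReal_injective h3
    have e1 : ∀ θ : UnitAddCircle, (∑ n ∈ q.support, q.coeff n * fourier (n : ℤ) θ) -
        fourier ((M : ℕ) : ℤ) θ = ∑ n ∈ Finset.range (q.natDegree + M + 1), (q - Polynomial.X ^ M).coeff n *
        (fourier (n : ℤ) θ : ℂ) := fun θ =>
      sum_sub_M q M (fun n θ => (fourier (n : ℤ) θ : ℂ)) θ
    have e2 : ∀ z : Z, (∑ n ∈ q.support, q.coeff n * f (S^[n] z)) - f (S^[M] z) =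
        ∑ n ∈ Finset.range (q.natDegree + M + 1), (q - Polynomial.X ^ M).coeff n * f (S^[n] z) := fun z =>
      sum_sub_M q M (fun n z => f (S^[n] z)) z
    simp only [e1, e2]
    exact h4
  have hpos : ∀ k : ℕ, (0 : ℝ) < (1 / 4) ^ k := fun k => by positivity
  choose q M hq1 hq2 using fun k : ℕ => hq ((1 / 4) ^ k) (hpos k)
  set A : ℕ → Set UnitAddCircle := fun k => {θ | 1 / 4 ≤
    ‖∑ n ∈ Finset.range ((q k).natDegree + 1), (q k).coeff n * (fourier (n : ℤ) θ : ℂ)‖ ^ 2} with hA
  set B : ℕ → Set UnitAddCircle := fun k => {θ | 1 / 4 ≤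
    ‖(∑ n ∈ (q k).support, (q k).coeff n * (fourier (n : ℤ) θ : ℂ)) -
      fourier ((M k : ℕ) : ℤ) θ‖ ^ 2} with hB
  have hcont : ∀ (s : Finset ℕ) (b : ℕ → ℂ), Continuous (fun θ : UnitAddCircle =>
      ∑ n ∈ s, b n * (fourier (n : ℤ) θ : ℂ)) := by
    intro s b
    apply continuous_finsetSum
    intro n _
    exact continuous_const.mul (map_continuous (fourier (n : ℤ)))
  have hsum : Summable (fun k : ℕ => (4 : ℝ) * (1 / 4) ^ k) :=
    (summable_geometric_of_lt_one (by norm_num) (by norm_num)).mul_left 4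
  have hAv : ∀ k, (volume : Measure UnitAddCircle) (A k) ≤ ENNReal.ofReal (4 * (1 / 4) ^ k) := by
    intro k
    have hint : Integrable (fun θ : UnitAddCircle => ‖∑ n ∈ Finset.range ((q k).natDegree + 1),
        (q k).coeff n * (fourier (n : ℤ) θ : ℂ)‖ ^ 2) := by
      have : Continuous (fun θ : UnitAddCircle => ‖∑ n ∈ Finset.range ((q k).natDegree + 1),
        (q k).coeff n * (fourier (n : ℤ) θ : ℂ)‖ ^ 2) := (hcont _ _).norm.pow 2
      exact this.integrable_of_hasCompactSupport (HasCompactSupport.of_compactSpace _)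
    have h1 := mul_meas_ge_le_integral_of_nonneg (Eventually.of_forall (fun θ => by positivity))
      hint (1 / 4)
    rw [sq_circle] at h1
    have h2 := hq1 k
    have h3 : (volume : Measure UnitAddCircle).real (A k) ≤ 4 * (1 / 4) ^ k := by
      have : (1 / 4 : ℝ) * (volume : Measure UnitAddCircle).real (A k) ≤ (1 / 4) ^ k := h1.trans h2.le
      linarith
    rw [← ofReal_measureReal]
    exact ENNReal.ofReal_le_ofReal h3
  have hBv : ∀ k, σ (B k) ≤ ENNReal.ofReal (4 * (1 / 4) ^ k) := by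
    intro k
    have hint : Integrable (fun θ : UnitAddCircle => ‖(∑ n ∈ (q k).support, (q k).coeff n *
        (fourier (n : ℤ) θ : ℂ)) - fourier ((M k : ℕ) : ℤ) θ‖ ^ 2) σ := by
      have : Continuous (fun θ : UnitAddCircle => ‖(∑ n ∈ (q k).support, (q k).coeff n *
        (fourier (n : ℤ) θ : ℂ)) - fourier ((M k : ℕ) : ℤ) θ‖ ^ 2) :=
        ((hcont _ _).sub (map_continuous (fourier ((M k : ℕ) : ℤ)))).norm.pow 2
      exact this.integrable_of_hasCompactSupport (HasCompactSupport.of_compactSpace _)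
    have h1 := mul_meas_ge_le_integral_of_nonneg (μ := σ)
      (Eventually.of_forall (fun θ => by positivity)) hint (1 / 4)
    rw [key] at h1
    have h2 := hq2 k
    have hm : MemLp (fun z => (∑ n ∈ (q k).support, (q k).coeff n * f (S^[n] z)) - f (S^[M k] z)) 2 m := by
      apply MemLp.sub _ (hSf (M k))
      apply memLp_finsetSum
      intro n _
      exact (hSf n).const_mul _
    have h3 : ∫ z, ‖(∑ n ∈ (q k).support, (q k).coeff n * f (S^[n] z)) - f (S^[M k] z)‖ ^ 2 ∂m ≤
        (1 / 4) ^ k := by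
      have h4 : eLpNorm (fun z => (∑ n ∈ (q k).support, (q k).coeff n * f (S^[n] z)) -
          f (S^[M k] z)) 2 m < ENNReal.ofReal ((1 / 4) ^ k) := h2
      have h5 := hm.eLpNorm_eq_integral_rpow_norm (by norm_num) (by norm_num)
      rw [h5, ENNReal.ofReal_lt_ofReal_iff (hpos k)] at h4
      have h6 : ∀ z, ‖(∑ n ∈ (q k).support, (q k).coeff n * f (S^[n] z)) - f (S^[M k] z)‖ ^
          (2 : ℝ≥0∞).toReal = ‖(∑ n ∈ (q k).support, (q k).coeff n * f (S^[n] z)) -
          f (S^[M k] z)‖ ^ 2 := by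
        intro z
        simp
      simp only [h6] at h4
      set I : ℝ := ∫ z, ‖(∑ n ∈ (q k).support, (q k).coeff n * f (S^[n] z)) - f (S^[M k] z)‖ ^ 2 ∂m
        with hI
      have hI0 : 0 ≤ I := integral_nonneg (fun z => by positivity)
      have h7 : I = (I ^ ((2 : ℝ≥0∞).toReal)⁻¹) ^ 2 := by
        rw [← Real.rpow_natCast, ← Real.rpow_mul hI0]
        simp
      rw [h7]
      have h8 : (0 : ℝ) ≤ I ^ ((2 : ℝ≥0∞).toReal)⁻¹ := by positivity
      have h9 : ((1 / 4 : ℝ) ^ k) ≤ 1 := pow_le_one₀ (by norm_num) (by norm_num)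
      calc (I ^ ((2 : ℝ≥0∞).toReal)⁻¹) ^ 2 ≤ ((1 / 4 : ℝ) ^ k) ^ 2 := pow_le_pow_left₀ h8 h4.le 2
        _ ≤ (1 / 4) ^ k * 1 := by
          rw [sq]
          exact mul_le_mul_of_nonneg_left h9 (hpos k).le
        _ = (1 / 4) ^ k := mul_one _
    have h4 : σ.real (B k) ≤ 4 * (1 / 4) ^ k := by
      have : (1 / 4 : ℝ) * σ.real (B k) ≤ (1 / 4) ^ k := h1.trans h3
      linarith
    rw [← ofReal_measureReal]
    exact ENNReal.ofReal_le_ofReal h4
  have hA0 : ∀ᵐ θ ∂(volume : Measure UnitAddCircle), ∀ᶠ k in atTop, θ ∉ A k :=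
    ae_eventually_notMem (ne_top_of_le_ne_top hsum.tsum_ofReal_ne_top (ENNReal.tsum_le_tsum hAv))
  have hB0 : ∀ᵐ θ ∂σ, ∀ᶠ k in atTop, θ ∉ B k :=
    ae_eventually_notMem (ne_top_of_le_ne_top hsum.tsum_ofReal_ne_top (ENNReal.tsum_le_tsum hBv))
  have hfalse : ∀ᵐ θ ∂σ, False := by
    filter_upwards [hac.ae_le hA0, hB0] with θ h1 h2
    obtain ⟨k, hk1, hk2⟩ := (h1.and h2).exists
    simp only [hA, hB, Set.mem_ofPred_eq, not_le] at hk1 hk2
    have e1 : ∑ n ∈ (q k).support, (q k).coeff n * (fourier (n : ℤ) θ : ℂ) =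
        ∑ n ∈ Finset.range ((q k).natDegree + 1), (q k).coeff n * (fourier (n : ℤ) θ : ℂ) := by
      have hsub : (q k).support ⊆ Finset.range ((q k).natDegree + 1) := by
        intro n hn
        exact Finset.mem_range.2 (Nat.lt_succ_of_le (Polynomial.le_natDegree_of_mem_supp n hn))
      apply Finset.sum_subset hsub
      intro n _ hn
      rw [Polynomial.notMem_support_iff.1 hn, zero_mul]
    rw [e1] at hk2
    set w : ℂ := ∑ n ∈ Finset.range ((q k).natDegree + 1), (q k).coeff n * (fourier (n : ℤ) θ : ℂ)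
    have e2 : ‖(fourier ((M k : ℕ) : ℤ) θ : ℂ)‖ = 1 := by
      rw [fourier_apply]
      exact Circle.norm_coe _
    have h3 : ‖w‖ < 1 / 2 := by
      by_contra hcon
      push Not at hcon
      nlinarith
    have h4 : ‖w - (fourier ((M k : ℕ) : ℤ) θ : ℂ)‖ < 1 / 2 := by
      by_contra hcon
      push Not at hcon
      nlinarith
    have h5 : (1 : ℝ) ≤ ‖w‖ + ‖w - (fourier ((M k : ℕ) : ℤ) θ : ℂ)‖ := by
      calc (1 : ℝ) = ‖w - (w - (fourier ((M k : ℕ) : ℤ) θ : ℂ))‖ := by rw [sub_sub_cancel, e2]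
        _ ≤ _ := norm_sub_le _ _
    linarith
  have hσ0 : σ = 0 := by
    have : σ Set.univ = 0 := by
      have h1 := ae_iff.1 hfalse
      simpa using h1
    exact Measure.measure_univ_eq_zero.1 this
  have h0 := hσ.2 0
  rw [hσ0, integral_zero_measure] at h0
  have h1 : ∫ z, ‖f z‖ ^ 2 ∂m = 0 := by
    have h2 : ((∫ z, ‖f z‖ ^ 2 ∂m : ℝ) : ℂ) = 0 := by
      rw [← integral_complex_ofReal, h0]
      apply integral_congr_ae
      apply Eventually.of_forall
      intro z
      simp only [Function.iterate_zero, id_eq]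
      rw [Complex.mul_conj']
      push_cast
      rfl
    exact_mod_cast h2
  have hfi : Integrable (fun z => ‖f z‖ ^ 2) m := hf.norm.integrable_sq
  have h2 := (integral_eq_zero_iff_of_nonneg (fun z => by positivity) hfi).1 h1
  filter_upwards [h2] with z hz
  have h3 : ‖f z‖ ^ 2 = 0 := hz
  rw [Pi.zero_apply]
  exact norm_eq_zero.1 (pow_eq_zero_iff (two_ne_zero) |>.1 h3)

end Pool.Agent.W744.NG.Sing
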