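import Mathlib
import Pool.Agent.W744.NG.Dens

set_option autoImplicit false
set_option linter.unusedSectionVars false
set_option linter.unusedVariables false

/-!
Algebra of cocycles.
-/

namespace Pool.Agent.W744.NG.Theta

open MeasureTheory Set Filter Topology
open scoped ENNReal symmDiff
open Pool.H359R3 Pool.H359R3.IX
open Pool.Agent.W744.NG Pool.Agent.W744.NG.Dens

section
variable {X Y : Type} [MeasurableSpace X] [StandardBorelSpace X] [MeasurableSpace Y] [StandardBorelSpace Y]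
  {μ : Measure X} {ν : Measure Y} [IsProbabilityMeasure μ] [IsProbabilityMeasure ν]

/-- composition -/
def mulC (Φ Ψ : Coc X ν) : Coc X ν := ⟨fun x => mulA (Φ.1 x) (Ψ.1 x), by
  have h1 : Measurable (fun z : X × Y => (z.1, (Ψ.1 z.1).1 z.2)) := measurable_fst.prodMk Ψ.2
  exact Φ.2.comp h1⟩

/-- inverse -/
def invC (Φ : Coc X ν) : Coc X ν := ⟨fun x => invA (Φ.1 x), inv_meas Φ⟩

/-- shift -/
def shC (T : AU μ) (Φ : Coc X ν) : Coc X ν := ⟨fun x => Φ.1 (T.1 x), by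
  have h1 : Measurable (fun z : X × Y => (T.1 z.1, z.2)) := (T.1.measurable.comp measurable_fst).prodMk measurable_snd
  exact Φ.2.comp h1⟩

/-- gluing -/
def glue (τ : X → ℕ) (hτ : Measurable τ) (Φ : ℕ → Coc X ν) : Coc X ν := ⟨fun x => (Φ (τ x)).1 x, by
  intro B hB
  have h1 : (fun z : X × Y => ((Φ (τ z.1)).1 z.1).1 z.2) ⁻¹' B =
      ⋃ k : ℕ, ({z : X × Y | τ z.1 = k} ∩ (fun z : X × Y => ((Φ k).1 z.1).1 z.2) ⁻¹' B) := by
    ext z
    simp
  rw [h1]
  refine MeasurableSet.iUnion fun k => MeasurableSet.inter ?_ ((Φ k).2 hB)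
  exact (hτ.comp measurable_fst) (measurableSet_singleton k)⟩

/-- the iterated cocycles -/
def itC (T : AU μ) (Φ : Coc X ν) : ℕ → Coc X ν
  | 0 => ⟨fun _ => oneA, measurable_snd⟩
  | (k + 1) => mulC (shC (invA T) Φ) (shC (invA T) (itC T Φ k))

end

theorem theta : S_Theta := by
  intro X Y _ _ _ _ μ ν _ _ T Φ τ hτ
  refine ⟨glue τ hτ (itC T Φ), fun x hx y => ?_⟩
  show ((itC T Φ (τ (T.1 x))).1 (T.1 x)).1 y = (Φ.1 x).1 (((itC T Φ (τ x)).1 x).1 y)
  rw [hx]
  show (Φ.1 ((invA T).1 (T.1 x))).1 (((itC T Φ (τ x)).1 ((invA T).1 (T.1 x))).1 y) = _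
  have h : (invA T).1 (T.1 x) = x := T.1.symm_apply_apply x
  rw [h]

theorem alpha : S_Alpha := by
  intro X Y _ _ _ _ μ ν _ _ T θ D r Γ hΓ
  let G : Coc X ν := ⟨fun x => D.act r (Γ x), act_meas Γ hΓ (fun z => z.2) measurable_snd
    (fun w => (D.act r w).1) (fun w => (D.act r w).1.measurable)⟩
  exact ⟨mulC (mulC (shC T θ) (invC (shC T G))) (mulC G (invC θ)), fun x y => rfl⟩

end Pool.Agent.W744.NG.Theta
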