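import Mathlib
import Pool.Agent.W744.NG.Stubs
import Pool.Agent.W744.SF.Cell
import Pool.Agent.H359R3.MX10

set_option autoImplicit false
set_option linter.unusedSectionVars false
set_option linter.unusedVariables false

/-!
Construction of the automorphism from the finite stages.
-/

namespace Pool.Agent.W744.NG.Tower

open MeasureTheory Set Filter Topology
open scoped ENNReal symmDiff
open Pool.H359R3 Pool.H359R3.IX Pool.H359R3.WH
open Pool.Agent.W744.NG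

attribute [local instance] Pool.Agent.W744.SF.us

theorem apxAll (s : Set ℝ) (hs : MeasurableSet s) : ∀ η : ℝ, 0 < η →
    ∃ N : ℕ, ∀ K : ℕ, N ≤ K → ∃ B : Set ℕ, lam.real (s ∆ {x | fl K x ∈ B}) < η := by
  refine approx_induction lam (range Iio) (by rw [← borel_eq_generateFrom_Iio]; exact BorelSpace.measurable_eq)
    (fun s => ∀ η : ℝ, 0 < η →
      ∃ N : ℕ, ∀ K : ℕ, N ≤ K → ∃ B : Set ℕ, lam.real (s ∆ {x | fl K x ∈ B}) < η) ?_ ?_ ?_ ?_ ?_ s hs
  · rintro _ ⟨a, rfl⟩ η hη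
    obtain ⟨m, hm⟩ := exists_nat_gt (1 / η)
    have hm0 : 0 < m := by
      rcases Nat.eq_zero_or_pos m with h | h
      · rw [h] at hm
        have : 0 < 1 / η := by positivity
        push_cast at hm
        linarith
      · exact h
    refine ⟨m, fun K hK => ⟨{k | k < ⌊a * (K : ℝ)⌋₊}, ?_⟩⟩
    have hK0 : 0 < K := lt_of_lt_of_le hm0 hK
    have : NeZero K := ⟨hK0.ne'⟩
    have hn0 : (0 : ℝ) < (K : ℝ) := by exact_mod_cast hK0
    have h1 : lam.real (Iio a ∆ {x | fl K x ∈ {k | k < ⌊a * (K : ℝ)⌋₊}}) ≤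
        lam.real {x | ((flf K x : Fin K) : ℕ) = ⌊a * (K : ℝ)⌋₊} := by
      apply ENNReal.toReal_mono (measure_ne_top _ _)
      apply measure_mono_ae
      filter_upwards [ae_Ico] with x hx hmem
      show ((flf K x : Fin K) : ℕ) = ⌊a * (K : ℝ)⌋₊
      rw [flf_val _ x hx]
      have hmem' : x ∈ Iio a ∆ {x | fl K x < ⌊a * (K : ℝ)⌋₊} := hmem
      rw [Set.mem_symmDiff] at hmem'
      rcases hmem' with ⟨h2, h3⟩ | ⟨h2, h3⟩
      · have h2' : x < a := h2
        have h3' : ¬ (fl K x < ⌊a * (K : ℝ)⌋₊) := h3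
        apply le_antisymm
        · unfold fl
          apply Nat.floor_mono
          nlinarith
        · exact not_lt.1 h3'
      · have h3' : ¬ (x < a) := h3
        have h2' : fl K x < ⌊a * (K : ℝ)⌋₊ := h2
        exfalso
        have : ⌊a * (K : ℝ)⌋₊ ≤ fl K x := by
          unfold fl
          apply Nat.floor_mono
          nlinarith [not_lt.1 h3']
        omega
    refine lt_of_le_of_lt h1 ?_
    rw [lam_lab K (fun k => (k : ℕ) = ⌊a * (K : ℝ)⌋₊)]
    have h2 : nc (fun k : Fin K => (k : ℕ) = ⌊a * (K : ℝ)⌋₊) ≤ 1 := by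
      rw [← nc_eq]
      have : (Finset.univ.filter (fun k : Fin K => (k : ℕ) = ⌊a * (K : ℝ)⌋₊)).card ≤ 1 := by
        rw [Finset.card_le_one]
        intro i hi j hj
        rw [Finset.mem_filter] at hi hj
        exact Fin.ext (hi.2.trans hj.2.symm)
      exact_mod_cast this
    rw [div_lt_iff₀ hn0]
    have h3 : (m : ℝ) ≤ (K : ℝ) := by exact_mod_cast hK
    rw [div_lt_iff₀ hη] at hm
    nlinarith
  · intro η hη
    refine ⟨0, fun K _ => ⟨∅, ?_⟩⟩
    simpa using hη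
  · intro s _ hP η hη
    obtain ⟨N, hN⟩ := hP η hη
    refine ⟨N, fun K hK => ?_⟩
    obtain ⟨B, hB⟩ := hN K hK
    refine ⟨Bᶜ, ?_⟩
    have : sᶜ ∆ {x | fl K x ∈ Bᶜ} = s ∆ {x | fl K x ∈ B} := by
      ext x
      simp only [Set.mem_symmDiff, mem_compl_iff, mem_ofPred_eq]
      tauto
    rw [this]
    exact hB
  · intro s t _ _ hP hQ η hη
    obtain ⟨N, hN⟩ := hP (η / 2) (by positivity)
    obtain ⟨N', hN'⟩ := hQ (η / 2) (by positivity)
    refine ⟨max N N', fun K hK => ?_⟩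
    obtain ⟨B, hB⟩ := hN K ((le_max_left _ _).trans hK)
    obtain ⟨B', hB'⟩ := hN' K ((le_max_right _ _).trans hK)
    refine ⟨B ∪ B', ?_⟩
    have h1 : {x | fl K x ∈ B ∪ B'} = {x | fl K x ∈ B} ∪ {x | fl K x ∈ B'} := by
      ext x
      simp only [mem_union, mem_ofPred_eq]
    rw [h1]
    refine lt_of_le_of_lt real_symmDiff_union ?_
    linarith
  · intro s hs hap η hη
    obtain ⟨t, ht, hPt, hst⟩ := hap (η / 2) (by positivity)
    obtain ⟨N, hN⟩ := hPt (η / 2) (by positivity)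
    refine ⟨N, fun K hK => ?_⟩
    obtain ⟨B, hB⟩ := hN K hK
    refine ⟨B, ?_⟩
    refine lt_of_le_of_lt (real_symmDiff_tri s t _) ?_
    linarith

/-- a stage -/
structure St where
  m : ℕ
  h : ℕ
  σ : Equiv.Perm (Fin (2 ^ m))
  per : σ ^ (2 ^ h) = 1

/-- two consecutive stages -/
structure Link (j : ℕ) (a b : St) where
  p : Fin (2 ^ b.m) → Fin (2 ^ a.m)
  t : Fin (2 ^ b.m) → ℕ
  Γ : Fin (2 ^ b.m) → Fin (j + 1) → ZMod 2
  q : Polynomial ℂ
  M : ℕ
  hm : a.m < b.m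
  hp : ∀ x, (p x : ℕ) = (x : ℕ) / 2 ^ (b.m - a.m)
  gr : 2 ^ (j + 2) * (2 ^ a.h) ^ 2 ≤ 2 ^ b.h
  nxt : Nxt a.σ (2 ^ a.h) b.σ (2 ^ b.h) (j + 1) (1 / 2 ^ j) p t Γ q M

theorem step (hN : S_Next) (j : ℕ) (a : St) : ∃ b : St, Nonempty (Link j a b) := by
  obtain ⟨m', h', σ', p, t, Γ, q, M, h1, h2, h3, h4⟩ := hN a.m a.h a.σ a.per (j + 1)
    (2 ^ (j + 2) * (2 ^ a.h) ^ 2) (1 / 2 ^ j) (Nat.succ_pos j) (by positivity)
  exact ⟨⟨m', h', σ', h4.per⟩, ⟨⟨p, t, Γ, q, M, h1, h3, h2, h4⟩⟩⟩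

noncomputable def sq (hN : S_Next) : ℕ → St
  | 0 => ⟨1, 0, 1, by simp⟩
  | (j + 1) => (step hN j (sq hN j)).choose

noncomputable def lk (hN : S_Next) (j : ℕ) : Link j (sq hN j) (sq hN (j + 1)) :=
  (step hN j (sq hN j)).choose_spec.some

theorem two_split {a b : St} {j : ℕ} (L : Link j a b) : 2 ^ b.m = 2 ^ a.m * 2 ^ (b.m - a.m) := by
  rw [← pow_add]
  congr 1
  have := L.hm
  omega

theorem ref' {a b : St} {j : ℕ} (L : Link j a b) (x : ℝ) : L.p (flf (2 ^ b.m) x) = flf (2 ^ a.m) x := by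
  apply Fin.ext
  rw [L.hp]
  unfold flf
  rw [Fin.val_ofNat, Fin.val_ofNat]
  have h1 : fl (2 ^ a.m) x = fl (2 ^ b.m) x / 2 ^ (b.m - a.m) := by
    rw [two_split L]
    exact fl_div _ _ (by positivity) (by positivity) x
  rw [h1]
  have h2 : fl (2 ^ b.m) x % 2 ^ b.m / 2 ^ (b.m - a.m) =
      fl (2 ^ b.m) x % (2 ^ (b.m - a.m) * 2 ^ a.m) / 2 ^ (b.m - a.m) := by
    rw [mul_comm (2 ^ (b.m - a.m)) (2 ^ a.m), ← two_split L]
  rw [h2, Nat.mod_mul_right_div_self]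

theorem fl_low {a b : St} {j : ℕ} (L : Link j a b) (y : ℝ) (hy : y ∈ Ico (0 : ℝ) 1) :
    fl (2 ^ a.m) y = (L.p (flf (2 ^ b.m) y) : ℕ) := by
  rw [ref' L, flf_val _ y hy]

theorem bad_card {a b : St} {j : ℕ} (L : Link j a b) :
    nc (fun z : Fin (2 ^ b.m) => L.p (b.σ z) ≠ a.σ (L.p z)) / ((2 ^ b.m : ℕ) : ℝ) ≤ 1 / 2 ^ a.h := by
  classical
  have h1 := L.nxt.time
  have h2 : nc (fun z : Fin (2 ^ b.m) => L.p (b.σ z) ≠ a.σ (L.p z)) ≤
      (Nat.card {x : Fin (2 ^ b.m) // ¬ (L.t (b.σ x) = L.t x + 1 ∧ L.Γ (b.σ x) = L.Γ x ∧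
        L.p (b.σ x) = a.σ (L.p x))} : ℝ) := by
    rw [← nc_eq, Nat.card_eq_fintype_card, Fintype.card_subtype]
    norm_cast
    apply Finset.card_le_card
    intro z hz
    rw [Finset.mem_filter] at hz ⊢
    exact ⟨hz.1, fun h => hz.2 h.2.2⟩
  rw [Fintype.card_fin] at h1
  have h3 : ((2 ^ a.h : ℕ) : ℝ) * (Nat.card {x : Fin (2 ^ b.m) // ¬ (L.t (b.σ x) = L.t x + 1 ∧ L.Γ (b.σ x) = L.Γ x ∧
        L.p (b.σ x) = a.σ (L.p x))} : ℝ) ≤ ((2 ^ b.m : ℕ) : ℝ) := by exact_mod_cast h1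
  have h4 : (0 : ℝ) < ((2 ^ b.m : ℕ) : ℝ) := by positivity
  rw [div_le_div_iff₀ h4 (by positivity)]
  push_cast at h3 ⊢
  have h5 : (0 : ℝ) < (2 : ℝ) ^ a.h := by positivity
  nlinarith

theorem dl_succ {a b : St} {j : ℕ} (L : Link j a b) :
    dl (2 ^ a.m) (rz (2 ^ b.m) b.σ).1 (rz (2 ^ a.m) a.σ).1 ≤ 1 / 2 ^ a.h := by
  refine le_trans ?_ (bad_card L)
  rw [← lam_lab]
  unfold dl
  rw [measureReal_def, measureReal_def]
  apply ENNReal.toReal_mono (measure_ne_top _ _)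
  apply measure_mono_ae
  filter_upwards [ae_Ico] with x hx hmem
  show L.p (b.σ (flf (2 ^ b.m) x)) ≠ a.σ (L.p (flf (2 ^ b.m) x))
  intro h
  apply hmem
  have h1 := rzf_mem (2 ^ b.m) b.σ x hx
  have h2 := rzf_mem (2 ^ a.m) a.σ x hx
  rw [rz_apply, rz_apply, fl_low L _ h1.1, h1.2, h, ← flf_val _ _ h2.1, h2.2, ref' L]

theorem dl_succ_symm {a b : St} {j : ℕ} (L : Link j a b) :
    dl (2 ^ a.m) (rz (2 ^ b.m) b.σ).1.symm (rz (2 ^ a.m) a.σ).1.symm ≤ 1 / 2 ^ a.h := by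
  have h0 : nc (fun z : Fin (2 ^ b.m) => L.p (b.σ⁻¹ z) ≠ a.σ⁻¹ (L.p z)) ≤
      nc (fun z : Fin (2 ^ b.m) => L.p (b.σ z) ≠ a.σ (L.p z)) := by
    rw [nc_bij _ (fun z : Fin (2 ^ b.m) => L.p (b.σ z) ≠ a.σ (L.p z)) b.σ⁻¹]
    intro z
    have h1 : b.σ (b.σ⁻¹ z) = z := by simp
    simp only [h1]
    rw [not_iff_not, Equiv.Perm.eq_inv_iff_eq]
    exact eq_comm
  refine le_trans ?_ ((div_le_div_of_nonneg_right h0 (by positivity)).trans (bad_card L))
  rw [← lam_lab]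
  unfold dl
  rw [measureReal_def, measureReal_def]
  apply ENNReal.toReal_mono (measure_ne_top _ _)
  apply measure_mono_ae
  filter_upwards [ae_Ico] with x hx hmem
  show L.p (b.σ⁻¹ (flf (2 ^ b.m) x)) ≠ a.σ⁻¹ (L.p (flf (2 ^ b.m) x))
  intro h
  apply hmem
  have h1 := rzf_mem (2 ^ b.m) b.σ⁻¹ x hx
  have h2 := rzf_mem (2 ^ a.m) a.σ⁻¹ x hx
  rw [rz_symm_apply, rz_symm_apply, fl_low L _ h1.1, h1.2, h, ← flf_val _ _ h2.1, h2.2, ref' L]

section chain

variable (hN : S_Next)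

/-- the approximating automorphisms -/
noncomputable def TT (j : ℕ) : Aut := rz (2 ^ (sq hN j).m) (sq hN j).σ

theorem H4 (j : ℕ) : 4 * (2 : ℝ) ^ (sq hN j).h ≤ 2 ^ (sq hN (j + 1)).h := by
  have h1 := (lk hN j).gr
  have h2 : 4 * 2 ^ (sq hN j).h ≤ 2 ^ (sq hN (j + 1)).h := by
    refine le_trans ?_ h1
    have h3 : 1 ≤ 2 ^ (sq hN j).h := Nat.one_le_two_pow
    have h4 : 4 ≤ 2 ^ (j + 2) := by
      calc 4 = 2 ^ 2 := by norm_num
        _ ≤ 2 ^ (j + 2) := Nat.pow_le_pow_right (by norm_num) (by omega)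
    nlinarith
  exact_mod_cast h2

theorem K_dvd (j k : ℕ) : 2 ^ (sq hN j).m ∣ 2 ^ (sq hN (j + k)).m := by
  apply pow_dvd_pow
  induction k with
  | zero => exact le_rfl
  | succ k ih => exact ih.trans (lk hN (j + k)).hm.le

theorem m_ge (j : ℕ) : j ≤ (sq hN j).m := by
  induction j with
  | zero => exact Nat.zero_le _
  | succ j ih => exact lt_of_le_of_lt ih (lk hN j).hm

theorem h_ge (j : ℕ) : (2 : ℝ) ^ j ≤ 2 ^ (sq hN j).h := by
  induction j with
  | zero => exact one_le_pow₀ (by norm_num)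
  | succ j ih =>
    have := H4 hN j
    have h2 : (0 : ℝ) < 2 ^ j := by positivity
    rw [pow_succ]
    linarith

theorem chain (j k : ℕ) : dl (2 ^ (sq hN j).m) (TT hN (j + k)).1 (TT hN j).1 ≤
    4 / 3 * (1 / 2 ^ (sq hN j).h - 1 / 2 ^ (sq hN (j + k)).h) ∧
    dl (2 ^ (sq hN j).m) (TT hN (j + k)).1.symm (TT hN j).1.symm ≤
    4 / 3 * (1 / 2 ^ (sq hN j).h - 1 / 2 ^ (sq hN (j + k)).h) := by
  induction k with
  | zero =>
    simp only [add_zero, sub_self, mul_zero]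
    constructor
    · unfold dl
      simp
    · unfold dl
      simp
  | succ k ih =>
    have e1 := (dl_dvd _ _ (by positivity) (by positivity) (K_dvd hN j k) (TT hN (j + k + 1)).1
      (TT hN (j + k)).1).trans (dl_succ (lk hN (j + k)))
    have e2 := (dl_dvd _ _ (by positivity) (by positivity) (K_dvd hN j k) (TT hN (j + k + 1)).1.symm
      (TT hN (j + k)).1.symm).trans (dl_succ_symm (lk hN (j + k)))
    have e3 := H4 hN (j + k)
    have e4 : 1 / (2 : ℝ) ^ (sq hN (j + k)).h ≤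
        4 / 3 * (1 / 2 ^ (sq hN (j + k)).h - 1 / 2 ^ (sq hN (j + k + 1)).h) := by
      have h5 : (0 : ℝ) < 2 ^ (sq hN (j + k)).h := by positivity
      have h6 : (0 : ℝ) < 2 ^ (sq hN (j + k + 1)).h := by positivity
      have h7 : 1 / (2 : ℝ) ^ (sq hN (j + k + 1)).h ≤ 1 / (4 * 2 ^ (sq hN (j + k)).h) :=
        one_div_le_one_div_of_le (by positivity) e3
      have h8 : 1 / (4 * (2 : ℝ) ^ (sq hN (j + k)).h) = 1 / 4 * (1 / 2 ^ (sq hN (j + k)).h) := by
        field_simp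
      rw [h8] at h7
      linarith
    constructor
    · have h5 := dl_tri (2 ^ (sq hN j).m) (TT hN (j + k + 1)).1 (TT hN (j + k)).1 (TT hN j).1
      rw [dl_symm _ (TT hN (j + k)).1 (TT hN j).1] at h5 
      have h6 := ih.1
      rw [dl_symm] at h6
      show dl (2 ^ (sq hN j).m) (TT hN (j + k + 1)).1 (TT hN j).1 ≤ _
      rw [show j + (k + 1) = j + k + 1 from rfl]
      linarith
    · have h5 := dl_tri (2 ^ (sq hN j).m) (TT hN (j + k + 1)).1.symm (TT hN (j + k)).1.symm (TT hN j).1.symm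
      rw [dl_symm _ (TT hN (j + k)).1.symm (TT hN j).1.symm] at h5
      have h6 := ih.2
      rw [dl_symm] at h6
      show dl (2 ^ (sq hN j).m) (TT hN (j + k + 1)).1.symm (TT hN j).1.symm ≤ _
      rw [show j + (k + 1) = j + k + 1 from rfl]
      linarith

theorem chain' (j k : ℕ) : dl (2 ^ (sq hN j).m) (TT hN (j + k)).1 (TT hN j).1 ≤
    4 / 3 * (1 / 2 ^ (sq hN j).h) ∧
    dl (2 ^ (sq hN j).m) (TT hN (j + k)).1.symm (TT hN j).1.symm ≤ 4 / 3 * (1 / 2 ^ (sq hN j).h) := by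
  have h1 := chain hN j k
  have h2 : (0 : ℝ) ≤ 1 / 2 ^ (sq hN (j + k)).h := by positivity
  constructor
  · linarith [h1.1]
  · linarith [h1.2]

theorem exists_lim : ∃ T : Aut, Tendsto (TT hN) atTop (𝓝 T) := by
  apply Pool.Agent.W744.SF.lim_exists
  intro s hs ε hε
  obtain ⟨N, hN'⟩ := apxAll s hs (ε / 8) (by positivity)
  obtain ⟨j0, hj0⟩ := exists_nat_gt (16 / ε)
  have hj : N ≤ 2 ^ (sq hN (max N j0)).m := by
    have h1 := m_ge hN (max N j0)
    have h2 : max N j0 < 2 ^ (max N j0) := Nat.lt_two_pow_self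
    have h3 : 2 ^ (max N j0) ≤ 2 ^ (sq hN (max N j0)).m := Nat.pow_le_pow_right (by norm_num) h1
    have h4 := le_max_left N j0
    omega
  obtain ⟨B, hB⟩ := hN' _ hj
  have hs4 : 1 / (2 : ℝ) ^ (sq hN (max N j0)).h < ε / 16 := by
    have h1 := h_ge hN (max N j0)
    have h2 : ((max N j0 : ℕ) : ℝ) < 2 ^ (max N j0) := by exact_mod_cast Nat.lt_two_pow_self
    have h3 : (j0 : ℝ) ≤ ((max N j0 : ℕ) : ℝ) := by exact_mod_cast le_max_right N j0
    have h4 : 16 / ε < 2 ^ (sq hN (max N j0)).h := by linarith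
    rw [div_lt_iff₀ hε] at h4
    rw [div_lt_div_iff₀ (by positivity) (by norm_num)]
    linarith
  refine ⟨max N j0, fun m hm n hn => ?_⟩
  obtain ⟨a, rfl⟩ := Nat.exists_eq_add_of_le hm
  obtain ⟨b, rfl⟩ := Nat.exists_eq_add_of_le hn
  obtain ⟨e1, e2⟩ := chain' hN (max N j0) a
  obtain ⟨e3, e4⟩ := chain' hN (max N j0) b
  have t1 := dl_tri (2 ^ (sq hN (max N j0)).m) (TT hN (max N j0 + a)).1 (TT hN (max N j0)).1 (TT hN (max N j0 + b)).1
  have t2 := dl_tri (2 ^ (sq hN (max N j0)).m) (TT hN (max N j0 + a)).1.symm (TT hN (max N j0)).1.symm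
    (TT hN (max N j0 + b)).1.symm
  rw [dl_symm _ (TT hN (max N j0)).1 (TT hN (max N j0 + b)).1] at t1
  rw [dl_symm _ (TT hN (max N j0)).1.symm (TT hN (max N j0 + b)).1.symm] at t2
  have c1 := close_set _ B s hs _ hB (TT hN (max N j0 + a)).1 (TT hN (max N j0 + b)).1 (TT hN (max N j0 + a)).2
    (TT hN (max N j0 + b)).2
  have c2 := close_set _ B s hs _ hB (TT hN (max N j0 + a)).1.symm (TT hN (max N j0 + b)).1.symm
    (Aut.symm_mp _) (Aut.symm_mp _)
  constructor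
  · linarith
  · linarith

theorem lim_dl (T : Aut) (hT : Tendsto (TT hN) atTop (𝓝 T)) (j : ℕ) :
    dl (2 ^ (sq hN j).m) T.1 (TT hN j).1 ≤ 4 / 3 * (1 / 2 ^ (sq hN j).h) := by
  apply le_of_forall_pos_le_add
  intro θ hθ
  have h1 := hT.eventually (Pool.Agent.W744.SF.dl_nhds0 T (2 ^ (sq hN j).m) (by positivity) θ hθ)
  obtain ⟨n, hn, hjn⟩ := (h1.and (eventually_ge_atTop j)).exists
  obtain ⟨k, rfl⟩ := Nat.exists_eq_add_of_le hjn
  have hn' : dl (2 ^ (sq hN j).m) (TT hN (j + k)).1 T.1 < θ := hn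
  have h2 := dl_tri (2 ^ (sq hN j).m) T.1 (TT hN (j + k)).1 (TT hN j).1
  rw [dl_symm] at hn'
  have h3 := (chain' hN j k).1
  linarith

/-- the tower on the line -/
noncomputable def towR (T : Aut) (hT : Tendsto (TT hN) atTop (𝓝 T)) : Tow lam T.1 where
  K := fun j => 2 ^ (sq hN j).m
  H := fun j => 2 ^ (sq hN j).h
  P := fun j => flf (2 ^ (sq hN j).m)
  σ := fun j => (sq hN j).σ
  p := fun j => (lk hN j).p
  t := fun j => (lk hN j).t
  Γ := fun j => (lk hN j).Γ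
  q := fun j => (lk hN j).q
  M := fun j => (lk hN j).M
  K0 := by simp [sq]
  H0 := by simp [sq]
  s0 := rfl
  meas := fun j => flf_meas _
  unif := fun j i => by
    rw [lam_lab (2 ^ (sq hN j).m) (fun k => k = i)]
    congr 1
    rw [← nc_eq]
    have : (Finset.univ.filter (fun k : Fin (2 ^ (sq hN j).m) => k = i)).card = 1 := by
      rw [Finset.card_eq_one]
      exact ⟨i, by ext k; simp⟩
    rw [this, Nat.cast_one]
  ref := fun j x => ref' (lk hN j) x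
  gen := fun B hB ε hε => by
    obtain ⟨N, hN'⟩ := apxAll B hB ε hε
    have h1 := m_ge hN N
    have h2 : N < 2 ^ N := Nat.lt_two_pow_self
    have h3 : 2 ^ N ≤ 2 ^ (sq hN N).m := Nat.pow_le_pow_right (by norm_num) h1
    obtain ⟨C, hC⟩ := hN' (2 ^ (sq hN N).m) (by omega)
    refine ⟨N, {i | (i : ℕ) ∈ C}, ?_⟩
    refine lt_of_le_of_lt (le_of_eq ?_) hC
    apply measureReal_congr
    refine (ae_eq_refl B).symmDiff ?_
    filter_upwards [ae_Ico] with x hx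
    apply propext
    show ((flf (2 ^ (sq hN N).m) x : Fin _) : ℕ) ∈ C ↔ fl (2 ^ (sq hN N).m) x ∈ C
    rw [flf_val _ x hx]
  nxt := fun j => (lk hN j).nxt
  grow := fun j => (lk hN j).gr
  close := fun j => by
    have h1 := lim_dl hN T hT j
    have h2 : lam.real {x | flf (2 ^ (sq hN j).m) (T.1 x) ≠ (sq hN j).σ (flf (2 ^ (sq hN j).m) x)} ≤
        dl (2 ^ (sq hN j).m) T.1 (TT hN j).1 := by
      unfold dl
      rw [measureReal_def, measureReal_def]
      apply ENNReal.toReal_mono (measure_ne_top _ _)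
      apply measure_mono_ae
      filter_upwards [ae_Ico, T.2.quasiMeasurePreserving.ae ae_Ico] with x hx hTx hmem
      intro h
      apply hmem
      have h3 := rzf_mem (2 ^ (sq hN j).m) (sq hN j).σ x hx
      apply Fin.ext
      rw [flf_val _ _ hTx, ← h3.2, flf_val _ _ h3.1]
      exact h
    refine h2.trans (h1.trans ?_)
    push_cast
    have h3 : (0 : ℝ) < 1 / 2 ^ (sq hN j).h := by positivity
    rw [show (2 : ℝ) / 2 ^ (sq hN j).h = 2 * (1 / 2 ^ (sq hN j).h) by ring]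
    linarith

end chain

theorem mrp {X : Type} [MeasurableSpace X] {μ : Measure X} (e : X ≃ᵐ ℝ)
    (he : MeasurePreserving e μ lam) (s : Set ℝ) : μ.real (e ⁻¹' s) = lam.real s := by
  rw [measureReal_def, measureReal_def, he.measure_preimage_equiv]

/-- transport of a tower -/
noncomputable def transport {X : Type} [MeasurableSpace X] {μ : Measure X} (e : X ≃ᵐ ℝ)
    (he : MeasurePreserving e μ lam) (T : Aut) (W : Tow lam T.1) :
    Tow μ (fun x => e.symm (T.1 (e x))) where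
  K := W.K
  H := W.H
  P := fun j x => W.P j (e x)
  σ := W.σ
  p := W.p
  t := W.t
  Γ := W.Γ
  q := W.q
  M := W.M
  K0 := W.K0
  H0 := W.H0
  s0 := W.s0
  meas := fun j => (W.meas j).comp e.measurable
  unif := fun j i => by
    rw [← W.unif j i]
    exact mrp e he {x | W.P j x = i}
  ref := fun j x => W.ref j (e x)
  gen := fun B hB ε hε => by
    obtain ⟨j, s, h⟩ := W.gen (e.symm ⁻¹' B) (e.symm.measurable hB) ε hε
    refine ⟨j, s, ?_⟩
    rw [← mrp e he] at h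
    refine lt_of_le_of_lt (le_of_eq ?_) h
    congr 1
    ext x
    simp [Set.mem_symmDiff]
  nxt := W.nxt
  grow := W.grow
  close := fun j => by
    refine le_trans (le_of_eq ?_) (W.close j)
    rw [← mrp e he]
    congr 1
    ext x
    simp

theorem main (hN : S_Next) : S_Tower := by
  intro X _ _ μ _ _
  obtain ⟨e, he⟩ := Pool.H359R3.MX.exists_iso (ν := μ)
  obtain ⟨T, hT⟩ := exists_lim hN
  refine ⟨⟨e.trans (T.1.trans e.symm), ?_⟩, ⟨?_⟩⟩
  · have h1 : MeasurePreserving e.symm lam μ := he.symm e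
    exact (h1.comp T.2).comp he
  · exact transport e he T (towR hN T hT)

end Pool.Agent.W744.NG.Tower
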