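import Mathlib
import Pool.Agent.W744.NG.Tower

set_option autoImplicit false
set_option linter.unusedSectionVars false
set_option linter.unusedVariables false

/-!
Dyadic structure on a nonatomic standard probability space.
-/

namespace Pool.Agent.W744.NG.YSt

open MeasureTheory Set Filter Topology
open scoped ENNReal symmDiff
open Pool.H359R3 Pool.H359R3.IX Pool.H359R3.WH
open Pool.Agent.W744.NG

/-- binary digits of a label -/
def bd (r : ℕ) (i : Fin (2 ^ r)) (s : Fin r) : ZMod 2 := (((i : ℕ) / 2 ^ (r - 1 - (s : ℕ)) : ℕ) : ZMod 2)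

theorem bd_inj (r : ℕ) : Function.Injective (bd r) := by
  intro i j h
  apply Fin.ext
  apply Nat.eq_of_testBit_eq
  intro k
  by_cases hk : k < r
  · have h1 := congrFun h ⟨r - 1 - k, by omega⟩
    unfold bd at h1
    have h2 : r - 1 - (r - 1 - k) = k := by omega
    rw [show ((⟨r - 1 - k, by omega⟩ : Fin r) : ℕ) = r - 1 - k from rfl, h2] at h1
    rw [ZMod.natCast_eq_natCast_iff'] at h1
    rw [Nat.testBit_eq_decide_div_mod_eq, Nat.testBit_eq_decide_div_mod_eq, h1]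
  · have h3 : (i : ℕ) < 2 ^ k := lt_of_lt_of_le i.2 (Nat.pow_le_pow_right (by norm_num) (not_lt.1 hk))
    have h4 : (j : ℕ) < 2 ^ k := lt_of_lt_of_le j.2 (Nat.pow_le_pow_right (by norm_num) (not_lt.1 hk))
    rw [Nat.testBit_lt_two_pow h3, Nat.testBit_lt_two_pow h4]

theorem bd_bij (r : ℕ) : Function.Bijective (bd r) := by
  rw [Fintype.bijective_iff_injective_and_card]
  refine ⟨bd_inj r, ?_⟩
  simp [ZMod.card]

/-- the bijection -/
noncomputable def be (r : ℕ) : Fin (2 ^ r) ≃ (Fin r → ZMod 2) := Equiv.ofBijective _ (bd_bij r)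

/-- permutation of the labels -/
noncomputable def sw (r : ℕ) (w : Fin r → ZMod 2) : Equiv.Perm (Fin (2 ^ r)) :=
  (be r).trans ((Equiv.addRight w).trans (be r).symm)

theorem be_sw (r : ℕ) (w : Fin r → ZMod 2) (i : Fin (2 ^ r)) : be r (sw r w i) = be r i + w := by
  unfold sw
  simp

theorem ww (r : ℕ) (w : Fin r → ZMod 2) : w + w = 0 := by
  funext i
  show w i + w i = 0
  generalize w i = c
  revert c
  decide

theorem sw_sw (r : ℕ) (w : Fin r → ZMod 2) (i : Fin (2 ^ r)) : sw r w (sw r w i) = i := by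
  apply (be r).injective
  rw [be_sw, be_sw, add_assoc, ww, add_zero]

/-- the permutation map on every unit interval -/
noncomputable def AF (K : ℕ) [NeZero K] (σ : Equiv.Perm (Fin K)) (x : ℝ) : ℝ := ⌊x⌋ + rzf K σ (Int.fract x)

theorem fr_mem (x : ℝ) : Int.fract x ∈ Ico (0 : ℝ) 1 := ⟨Int.fract_nonneg x, Int.fract_lt_one x⟩

theorem AF_fract (K : ℕ) [NeZero K] (σ : Equiv.Perm (Fin K)) (x : ℝ) :
    Int.fract (AF K σ x) = rzf K σ (Int.fract x) := by
  unfold AF
  rw [Int.fract_intCast_add]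
  have h := (rzf_mem K σ _ (fr_mem x)).1
  exact Int.fract_eq_self.2 ⟨h.1, h.2⟩

theorem AF_floor (K : ℕ) [NeZero K] (σ : Equiv.Perm (Fin K)) (x : ℝ) : ⌊AF K σ x⌋ = ⌊x⌋ := by
  unfold AF
  rw [Int.floor_intCast_add]
  have h := (rzf_mem K σ _ (fr_mem x)).1
  rw [Int.floor_eq_zero_iff.2 h, add_zero]

theorem AF_comp (K : ℕ) [NeZero K] (σ ρ : Equiv.Perm (Fin K)) (x : ℝ) : AF K σ (AF K ρ x) = AF K (σ * ρ) x := by
  have h1 : AF K σ (AF K ρ x) = ⌊AF K ρ x⌋ + rzf K σ (Int.fract (AF K ρ x)) := rfl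
  rw [h1, AF_floor, AF_fract, rzf_comp]
  rfl

theorem AF_one (K : ℕ) [NeZero K] (x : ℝ) : AF K 1 x = x := by
  unfold AF
  rw [rzf_one, Int.floor_add_fract]

theorem AF_meas (K : ℕ) [NeZero K] (σ : Equiv.Perm (Fin K)) : Measurable (AF K σ) := by
  unfold AF
  have h1 : Measurable (fun x : ℝ => ((⌊x⌋ : ℤ) : ℝ)) := (measurable_from_top (f := fun n : ℤ => (n : ℝ))).comp Int.measurable_floor
  exact h1.add ((rzf_meas K σ).comp measurable_fract)

theorem AF_ae (K : ℕ) [NeZero K] (σ : Equiv.Perm (Fin K)) : ∀ᵐ x ∂lam, AF K σ x = rzf K σ x := by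
  filter_upwards [ae_Ico] with x hx
  unfold AF
  rw [Int.floor_eq_zero_iff.2 hx, Int.fract_eq_self.2 ⟨hx.1, hx.2⟩, Int.cast_zero, zero_add]

theorem AF_mp (K : ℕ) [NeZero K] (σ : Equiv.Perm (Fin K)) : MeasurePreserving (AF K σ) lam lam := by
  refine ⟨AF_meas K σ, ?_⟩
  rw [Measure.map_congr (AF_ae K σ)]
  exact (rzf_mp K σ).map_eq

/-- as an automorphism -/
noncomputable def AE (K : ℕ) [NeZero K] (σ : Equiv.Perm (Fin K)) : Aut :=
  ⟨{ toFun := AF K σ
     invFun := AF K σ⁻¹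
     left_inv := fun x => by rw [AF_comp, inv_mul_cancel, AF_one]
     right_inv := fun x => by rw [AF_comp, mul_inv_cancel, AF_one]
     measurable_toFun := AF_meas K σ
     measurable_invFun := AF_meas K σ⁻¹ }, AF_mp K σ⟩

/-- the digits on the line -/
noncomputable def vR (r : ℕ) (x : ℝ) : Fin r → ZMod 2 := fun s => ((fl (2 ^ ((s : ℕ) + 1)) (Int.fract x) : ℕ) : ZMod 2)

theorem vR_eq (r : ℕ) (x : ℝ) : vR r x = be r (flf (2 ^ r) (Int.fract x)) := by
  funext s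
  show ((fl (2 ^ ((s : ℕ) + 1)) (Int.fract x) : ℕ) : ZMod 2) =
    (((flf (2 ^ r) (Int.fract x) : ℕ) / 2 ^ (r - 1 - (s : ℕ)) : ℕ) : ZMod 2)
  rw [flf_val _ _ (fr_mem x), fl_div (2 ^ ((s : ℕ) + 1)) (2 ^ (r - 1 - (s : ℕ))) (by positivity) (by positivity)]
  rw [← pow_add]
  have : (s : ℕ) + 1 + (r - 1 - (s : ℕ)) = r := by omega
  rw [this]

theorem vR_act (r : ℕ) (w : Fin r → ZMod 2) (x : ℝ) : vR r ((AE (2 ^ r) (sw r w)).1 x) = vR r x + w := by
  rw [vR_eq, vR_eq]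
  show be r (flf (2 ^ r) (Int.fract (AF (2 ^ r) (sw r w) x))) = _
  rw [AF_fract, (rzf_mem (2 ^ r) (sw r w) _ (fr_mem x)).2, be_sw]

theorem vR_ae (r : ℕ) : ∀ᵐ x ∂lam, vR r x = be r (flf (2 ^ r) x) := by
  filter_upwards [ae_Ico] with x hx
  rw [vR_eq, Int.fract_eq_self.2 ⟨hx.1, hx.2⟩]

theorem vR_meas (r : ℕ) (w : Fin r → ZMod 2) : MeasurableSet {x | vR r x = w} := by
  have h1 : {x | vR r x = w} = (fun x => flf (2 ^ r) (Int.fract x)) ⁻¹' {(be r).symm w} := by
    ext x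
    rw [mem_ofPred_eq, vR_eq, mem_preimage, mem_singleton_iff, Equiv.eq_symm_apply]
  rw [h1]
  exact ((flf_meas (2 ^ r)).comp measurable_fract) (measurableSet_singleton _)

theorem vR_unif (r : ℕ) (w : Fin r → ZMod 2) : lam.real {x | vR r x = w} = 1 / 2 ^ r := by
  have h1 : lam.real {x | vR r x = w} = lam.real {x | (fun k => k = (be r).symm w) (flf (2 ^ r) x)} := by
    apply measureReal_congr
    filter_upwards [vR_ae r] with x hx
    apply propext
    show vR r x = w ↔ flf (2 ^ r) x = (be r).symm w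
    rw [hx, Equiv.eq_symm_apply]
  rw [h1, lam_lab (2 ^ r) (fun k => k = (be r).symm w)]
  have h2 : nc (fun k : Fin (2 ^ r) => k = (be r).symm w) = 1 := by
    rw [← nc_eq]
    have : (Finset.univ.filter (fun k : Fin (2 ^ r) => k = (be r).symm w)).card = 1 := by
      rw [Finset.card_eq_one]
      exact ⟨(be r).symm w, by ext k; simp⟩
    rw [this, Nat.cast_one]
  rw [h2]
  push_cast
  rfl

theorem main : S_YStr := by
  intro Y _ _ ν _ _
  obtain ⟨e, he⟩ := Pool.H359R3.MX.exists_iso (ν := ν)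
  refine ⟨⟨fun r y => vR r (e y), fun r w => ⟨e.trans ((AE (2 ^ r) (sw r w)).1.trans e.symm),
    ((he.symm e).comp (AE (2 ^ r) (sw r w)).2).comp he⟩, ?_, ?_, ?_, ?_, ?_, ?_⟩⟩
  · intro r w
    exact e.measurable (vR_meas r w)
  · intro r w y
    show vR r (e (e.symm ((AE (2 ^ r) (sw r w)).1 (e y)))) = _
    rw [MeasurableEquiv.apply_symm_apply, vR_act]
  · intro r w y
    show e.symm ((AE (2 ^ r) (sw r w)).1 (e (e.symm ((AE (2 ^ r) (sw r w)).1 (e y))))) = y
    rw [MeasurableEquiv.apply_symm_apply]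
    show e.symm (AF (2 ^ r) (sw r w) (AF (2 ^ r) (sw r w) (e y))) = y
    rw [AF_comp]
    have : sw r w * sw r w = 1 := by
      ext i
      simp [sw_sw]
    rw [this, AF_one, MeasurableEquiv.symm_apply_apply]
  · intro r w
    rw [← vR_unif r w]
    exact Tower.mrp e he {x | vR r x = w}
  · intro r r' hr y y' h
    funext s
    have := congrFun h ⟨s, lt_of_lt_of_le s.2 hr⟩
    exact this
  · intro B hB ε hε
    obtain ⟨N, hN⟩ := Tower.apxAll (e.symm ⁻¹' B) (e.symm.measurable hB) ε hε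
    have h2 : N < 2 ^ N := Nat.lt_two_pow_self
    obtain ⟨C, hC⟩ := hN (2 ^ N) h2.le
    refine ⟨N, {w | (((be N).symm w : Fin (2 ^ N)) : ℕ) ∈ C}, ?_⟩
    refine lt_of_le_of_lt (le_of_eq ?_) hC
    rw [← Tower.mrp e he]
    apply measureReal_congr
    have h3 : (e ⁻¹' ((e.symm ⁻¹' B) ∆ {x | fl (2 ^ N) x ∈ C}) : Set Y) = B ∆ {y | fl (2 ^ N) (e y) ∈ C} := by
      ext y
      simp [Set.mem_symmDiff]
    rw [h3]
    refine (ae_eq_refl B).symmDiff ?_
    have h4 := he.quasiMeasurePreserving.ae (vR_ae N)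
    have h5 := he.quasiMeasurePreserving.ae ae_Ico
    filter_upwards [h4, h5] with y hy1 hy2
    apply propext
    show (((be N).symm (vR N (e y)) : Fin (2 ^ N)) : ℕ) ∈ C ↔ fl (2 ^ N) (e y) ∈ C
    rw [hy1, Equiv.symm_apply_apply, flf_val _ _ hy2]

end Pool.Agent.W744.NG.YSt
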