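import Mathlib
import Pool.Agent.W744.NG.Final
import Pool.Agent.W744.NG.Tower
import Pool.Agent.W744.NG.Dens
import Pool.Agent.W744.NG.Theta
import Pool.Agent.W744.NG.Open
import Pool.Agent.W744.NG.Baire
import Pool.Agent.W744.NG.Ind
import Pool.Agent.W744.NG.Comp
import Pool.Agent.W744.NG.YSt
import Pool.Agent.W744.NG.Koop
import Pool.Agent.W585.NG.Let
import Pool.Agent.W744.NG.Pol
import Pool.Agent.W585.NG.Gau
import Pool.Agent.W744.NG.Sing
import Pool.Agent.W337.NG.Corr
import Pool.Agent.W337.NG.Gauge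
import Pool.Agent.W337.NG.Rel
import Pool.Agent.W337.NG.Leb
import Pool.Agent.W338.NGAC
import Pool.Agent.W782.NGReal
import Pool.Agent.W782.NGVert
import Pool.Agent.W368.NG.Approx
import Pool.Agent.W338.NGNEXTA

set_option autoImplicit false

/-!
All the pieces.
-/

namespace Pool.Agent.W744.NG.All

open Pool.Agent.W744.NG

theorem baire : S_Baire :=
  Bair.main Ind.main (Pool.Agent.W782.NGVert.main Pool.Agent.W782.NGReal.main) Compl.main

theorem opn : S_Open := Open.main Ind.main Koop.main

theorem leb : S_Leb := Pool.Agent.W337.NG.Le.main Pool.Agent.W338.NGAC.main Pool.Agent.W337.NG.main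

theorem dens : S_Dens :=
  Dens.main Theta.theta Theta.alpha Pool.Agent.W368.NG.Approx.main Pool.Agent.W337.NG.Ga.main

theorem nextA : S_NextA :=
  Pool.Agent.W338.NGNEXTA.main Pool.Agent.W585.NG.letters Pool.Agent.W585.NG.gauge_letters Pol.pol

theorem tower : S_Tower := Tower.main (Pool.Agent.W337.NG.Re.main nextA)

theorem sing : S_Sing := Sing.sing

end Pool.Agent.W744.NG.All
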