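import Mathlib
import Pool.Agent.W744.NG.Open
import Pool.Agent.W744.NG.Ind
import Pool.Agent.H359R3.MX12

set_option autoImplicit false
set_option linter.unusedSectionVars false
set_option linter.unusedVariables false

/-!
Multiple mixing of generic extensions, for cocycles with convergence in measure.
-/

namespace Pool.Agent.W744.NG.Mult

open MeasureTheory Set Filter Topology
open scoped ENNReal symmDiff
open Pool.H359R3 Pool.H359R3.IX Pool.H359R3.MX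
open Pool.Agent.W744.NG Pool.Agent.W744.NG.Open

section
variable {X Y : Type} [MeasurableSpace X] [StandardBorelSpace X] [MeasurableSpace Y] [StandardBorelSpace Y]
  {μ : Measure X} {ν : Measure Y} [IsProbabilityMeasure μ] [IsProbabilityMeasure ν]

/-- the skew products determine the topology -/
theorem tend_back (F : DF (μ.prod ν)) (T : AU μ) (Φ : Coc X ν) (Ψ : ℕ → Coc X ν)
    (h : Tendsto (fun n => skA T (Ψ n)) atTop (@nhds _ (un F).toTopologicalSpace (skA T Φ))) :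
    Tendsto Ψ atTop (@nhds (Coc X ν) (tC μ ν) Φ) := by
  rw [Ind.main X Y μ ν F]
  rw [show @nhds (Coc X ν) (TopologicalSpace.induced (fun Φ : Coc X ν => skA (oneA : AU μ) Φ)
    (un F).toTopologicalSpace) Φ = Filter.comap (fun Φ : Coc X ν => skA (oneA : AU μ) Φ)
      (@nhds _ (un F).toTopologicalSpace (skA (oneA : AU μ) Φ)) from
    @nhds_induced _ _ (un F).toTopologicalSpace (fun Φ : Coc X ν => skA (oneA : AU μ) Φ) Φ,
    Filter.tendsto_comap_iff]
  set V : AU (μ.prod ν) := skA T (⟨fun _ => oneA, measurable_snd⟩ : Coc X ν) with hV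
  have h0 : Tendsto (fun _ : ℕ => invA V) atTop (@nhds _ (un F).toTopologicalSpace (invA V)) := by
    let _ : TopologicalSpace (AU (μ.prod ν)) := (un F).toTopologicalSpace
    exact tendsto_const_nhds
  have h1 := tend_mul F atTop _ _ _ _ h0 h
  have key : ∀ Ψ' : Coc X ν, mulA (invA V) (skA T Ψ') = skA (oneA : AU μ) Ψ' := by
    intro Ψ'
    rw [skA_split T Ψ']
    apply Subtype.ext
    apply MeasurableEquiv.ext
    funext z
    show V.1.symm (V.1 ((skA (oneA : AU μ) Ψ').1 z)) = _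
    exact V.1.symm_apply_apply _
  have h2 : (fun b => mulA (invA V) (skA T (Ψ b))) = (fun Φ : Coc X ν => skA (oneA : AU μ) Φ) ∘ Ψ :=
    funext fun b => key (Ψ b)
  rw [h2, key Φ] at h1
  exact h1

/-- finitely many sets determine a neighbourhood -/
theorem nbh (F : DF (μ.prod ν)) (T : AU μ) (Φ : Coc X ν) (O : Set (Coc X ν))
    (hO : O ∈ @nhds (Coc X ν) (tC μ ν) Φ) : ∃ N : ℕ, ∀ Ψ : Coc X ν,
      (∀ i : Fin N, (μ.prod ν).real (((skA T Φ).1 ⁻¹' F.C i) ∆ ((skA T Ψ).1 ⁻¹' F.C i)) < 1 / ((N : ℝ) + 1)) → Ψ ∈ O := by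
  by_contra hcon
  push Not at hcon
  choose Ψ hΨ1 hΨ2 using hcon
  have h1 : Tendsto (fun n => skA T (Ψ n)) atTop (@nhds _ (un F).toTopologicalSpace (skA T Φ)) := by
    apply tendsto_un F
    intro i
    have h2 : Tendsto (fun n => (μ.prod ν).real (((skA T (Ψ n)).1 ⁻¹' F.C i) ∆ ((skA T Φ).1 ⁻¹' F.C i))) atTop (𝓝 0) := by
      refine squeeze_zero' (Eventually.of_forall fun n => measureReal_nonneg) ?_ tendsto_one_div_add_atTop_nhds_zero_nat
      filter_upwards [eventually_gt_atTop i] with n hn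
      have := hΨ1 n ⟨i, hn⟩
      rw [symmDiff_comm]
      exact this.le
    have h4 := ENNReal.tendsto_ofReal h2
    rw [ENNReal.ofReal_zero] at h4
    refine h4.congr fun n => ?_
    exact ENNReal.ofReal_toReal (measure_ne_top _ _)
  have h2 := tend_back F T Φ Ψ h1
  obtain ⟨n, hn⟩ := (h2.eventually hO).exists
  exact hΨ2 n hn

theorem ext_skA (T : AU μ) (Φ : Coc X ν) : IsExt μ ν T.1 (skA T Φ).1 :=
  ⟨(skA T Φ).2, Eventually.of_forall fun z => rfl⟩

theorem mult_k [NullSingletonClass μ] [NullSingletonClass ν] (T : AU μ) (k : ℕ) (hk : 1 ≤ k) (hT : MixS true k μ T.1) :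
    {Φ : Coc X ν | MixS true k (μ.prod ν) (skA T Φ).1} ∈ @residual (Coc X ν) (tC μ ν) := by
  classical
  obtain ⟨F⟩ := exists_DF (μ.prod ν)
  let _ : TopologicalSpace (Coc X ν) := tC μ ν
  have hCD := CD_gen μ ν T.1 T.2 true k hk hT
  obtain ⟨D, hDm, hDd⟩ := exists_D (μ.prod ν)
  let P : (Fin (k + 1) → ℕ) × ℕ → Set (Coc X ν) := fun i =>
    {Φ | ∃ n0 : Fin k → ℕ, ∀ n ≥ n0,
      |(μ.prod ν).real (⋂ j, ((pw true (skA T Φ).1 : X × Y → X × Y)^[ps n j]) ⁻¹' D (i.1 j)) -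
        ∏ j, (μ.prod ν).real (D (i.1 j))| ≤ 1 / ((i.2 : ℝ) + 1)}
  have hsub : (⋂ i, P i) ⊆ {Φ : Coc X ν | MixS true k (μ.prod ν) (skA T Φ).1} := by
    intro Φ hΦ
    refine mix_of_dense (μ.prod ν) (skA T Φ).1 (skA T Φ).2 true k D hDm hDd (fun f p => ?_)
    obtain ⟨n0, hn0⟩ := mem_iInter.1 hΦ (f, p)
    exact ⟨n0, hn0⟩
  refine Filter.mem_of_superset (residual_of P ?_) hsub
  rintro ⟨f, p⟩ O hO ⟨Φ, hΦ⟩
  obtain ⟨N, hN⟩ := nbh F T Φ O (hO.mem_nhds hΦ)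
  obtain ⟨S0, hS0, hskew, hclose, J', hJ'f, hJ'm, δ', hδ', n0, hopen⟩ := hCD (skA T Φ).1 (ext_skA T Φ) N
    (fun i => F.C i) (fun i => F.meas i) (1 / ((N : ℝ) + 1)) (by positivity) (fun j => D (f j)) (fun j => hDm _)
    (1 / ((p : ℝ) + 1)) (by positivity)
  obtain ⟨φ, hφ1, hφ2, hφ3⟩ := hskew
  let Φ0 : Coc X ν := ⟨fun x => ⟨φ x, hφ1 x⟩, hφ2⟩
  have hΦ0 : (skA T Φ0).1 = S0 := by
    apply MeasurableEquiv.ext
    funext z
    rw [hφ3 z]
    rfl
  have hΦ0O : Φ0 ∈ O := by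
    apply hN
    intro i
    rw [hΦ0]
    exact hclose i
  let U0 : Set (Coc X ν) := {Φ' | ∀ A ∈ J', (μ.prod ν).real (((skA T Φ').1 ⁻¹' A) ∆ (S0 ⁻¹' A)) < δ'}
  have hU0 : U0 ∈ 𝓝 Φ0 := by
    have h1 : Tendsto (fun Φ' : Coc X ν => skA T Φ') (𝓝 Φ0) (@nhds _ (un F).toTopologicalSpace (skA T Φ0)) :=
      (@continuous_iff_continuousAt _ _ (tC μ ν) (un F).toTopologicalSpace _).1 (skA_cont Ind.main F T) Φ0
    have h2 : ∀ A ∈ J', ∀ᶠ Φ' in 𝓝 Φ0, (μ.prod ν).real (((skA T Φ').1 ⁻¹' A) ∆ (S0 ⁻¹' A)) < δ' := by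
      intro A hA
      have h3 := of_tendsto_un F _ _ _ h1 A (hJ'm A hA) (measure_lt_top _ _)
      have h4 := (ENNReal.tendsto_toReal ENNReal.zero_ne_top).comp h3
      have h5 := h4.eventually (gt_mem_nhds (show (0 : ℝ≥0∞).toReal < δ' by simpa using hδ'))
      filter_upwards [h5] with Φ' hΦ'
      rw [← hΦ0]
      exact hΦ'
    exact (Filter.eventually_all_finite hJ'f).2 h2
  refine ⟨interior U0, isOpen_interior, ⟨Φ0, hΦ0O, mem_interior_iff_mem_nhds.2 hU0⟩, ?_⟩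
  intro Φ' hΦ'
  have h6 : Φ' ∈ U0 := interior_subset hΦ'
  exact ⟨n0, fun n hn => hopen (skA T Φ').1 (ext_skA T Φ') (fun A hA => (h6 A hA).le) n hn⟩

theorem mult_all [NullSingletonClass μ] [NullSingletonClass ν] (T : AU μ) (hT : ∀ k ≥ 2, MixS true k μ T.1) :
    {Φ : Coc X ν | ∀ k ≥ 2, MixS true k (μ.prod ν) (skA T Φ).1} ∈ @residual (Coc X ν) (tC μ ν) := by
  let _ : TopologicalSpace (Coc X ν) := tC μ ν
  have h1 : ∀ k : ℕ, {Φ : Coc X ν | k ≥ 2 → MixS true k (μ.prod ν) (skA T Φ).1} ∈ residual (Coc X ν) := by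
    intro k
    by_cases hk : 2 ≤ k
    · exact Filter.mem_of_superset (mult_k T k (by omega) (hT k hk)) (fun Φ hΦ _ => hΦ)
    · exact Filter.mem_of_superset Filter.univ_mem (fun Φ _ h => absurd h hk)
  have h2 := countable_iInter_mem.2 h1
  refine Filter.mem_of_superset h2 ?_
  intro Φ hΦ k hk
  exact (mem_iInter.1 hΦ k) hk

end

theorem mixS_congr {Z : Type} [MeasurableSpace Z] {m : Measure Z} (S S' : AU m) (h : ∀ᵐ z ∂m, S.1 z = S'.1 z)
    (k : ℕ) (h1 : MixS true k m S.1) : MixS true k m S'.1 := by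
  intro A hA
  refine (h1 A hA).congr fun n => ?_
  apply measureReal_congr
  have h2 : ∀ j : Fin (k + 1), ∀ᵐ z ∂m, (S.1 : Z → Z)^[ps n j] z = (S'.1 : Z → Z)^[ps n j] z := fun j =>
    iter_ae m _ _ S.2 h _
  rw [← ae_all_iff] at h2
  filter_upwards [h2] with z hz
  apply propext
  show z ∈ ⋂ j, ((S.1 : Z → Z)^[ps n j]) ⁻¹' A j ↔ z ∈ ⋂ j, ((S'.1 : Z → Z)^[ps n j]) ⁻¹' A j
  simp only [mem_iInter, mem_preimage, hz]

end Pool.Agent.W744.NG.Mult
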